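import Mathlib

set_option autoImplicit false

namespace Pool.Agent.Helper31_CP

open MeasureTheory Filter Topology Set
open scoped InnerProductSpace

/-- Euclidean space of dimension `d`. -/
abbrev EE (d : ℕ) := EuclideanSpace ℝ (Fin d)

/-- The Hilbert space `L²(ℝ^d; ℂ)`. -/
noncomputable abbrev HH (d : ℕ) := Lp ℂ 2 (volume : Measure (EE d))

/-- Test functions. -/
def IsTest {d : ℕ} (φ : EE d → ℂ) : Prop := ContDiff ℝ (⊤ : ℕ∞) φ ∧ HasCompactSupport φ

/-- The derivative of `φ` in the direction of the `i`-th basis vector. -/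
noncomputable def pd {d : ℕ} (i : Fin d) (φ : EE d → ℂ) (x : EE d) : ℂ :=
  fderiv ℝ φ x (EuclideanSpace.single i 1)

/-- `g` is the weak derivative `∂_i f`. -/
def WD {d : ℕ} (i : Fin d) (f g : EE d → ℂ) : Prop :=
  ∀ φ : EE d → ℂ, IsTest φ → ∫ x, f x * pd i φ x = - ∫ x, g x * φ x

/-- The ambient Hilbert space: triples (u, W u, h ∇u). -/
noncomputable abbrev VX (d : ℕ) := PiLp 2 (fun _ : Option (Option (Fin d)) => HH d)

/-- The conditions: `z (some none) = W u` and `z (some (some i)) = h ∂_i u` for `u = z none`. -/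
def InV {d : ℕ} (h : ℝ) (W : EE d → ℝ) (z : VX d) : Prop :=
  ((z (some none) : EE d → ℂ) =ᵐ[volume] fun x => (W x : ℂ) * z none x) ∧
    ∀ (i : Fin d) (φ : EE d → ℂ), IsTest φ →
      (h : ℂ) * ∫ x, z none x * pd i φ x = - ∫ x, z (some (some i)) x * φ x

/-- The potential energy `∫ |V||u|²` is finite. -/
def FinPot {d : ℕ} (V : EE d → ℂ) (u : HH d) : Prop :=
  Integrable (fun x => ‖V x‖ * ‖u x‖ ^ 2) volume

/-- `u ∈ D(H)` and `H u = f`, where `H = -h²Δ + V` is the operator of the sesquilinear form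
`h² ∫ ∇u · conj ∇v + ∫ V u conj v` with form domain `{u ∈ H¹(ℝ^d) : |V||u|² ∈ L¹}`. -/
def IsHu {d : ℕ} (h : ℝ) (V : EE d → ℂ) (u f : HH d) : Prop :=
  FinPot V u ∧ ∃ p : Fin d → HH d, (∀ i, WD i u (p i)) ∧
    ∀ (v : HH d) (q : Fin d → HH d), FinPot V v → (∀ i, WD i v (q i)) →
      ((h ^ 2 : ℝ) : ℂ) * (∑ i, ∫ x, p i x * (starRingEnd ℂ) (q i x)) +
        ∫ x, V x * u x * (starRingEnd ℂ) (v x) = ∫ x, f x * (starRingEnd ℂ) (v x)

/-- The generalised eigenspace at `E` of a linear relation. -/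
def gen {X : Type*} [AddCommGroup X] [Module ℂ X] (Rel : X → X → Prop) (E : ℂ) :
    Submodule ℂ X :=
  Submodule.span ℂ {v | ∃ (n : ℕ) (f : ℕ → X), f 0 = v ∧ f n = 0 ∧
    ∀ j, j < n → Rel (f j) (E • f j + f (j + 1))}

/-- The algebraic multiplicity. -/
noncomputable def mult {X : Type*} [AddCommGroup X] [Module ℂ X] (Rel : X → X → Prop) (E : ℂ) :
    ℕ∞ :=
  Cardinal.toENat (Module.rank ℂ (gen Rel E))

/-- The half line `[0, ∞)` in the complex plane. -/
def halfLine : Set ℂ := {z | 0 ≤ z.re ∧ z.im = 0}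

end Pool.Agent.Helper31_CP
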