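import Mathlib
import Pool.Agent.Helper31_CP.Defs

set_option autoImplicit false

namespace Pool.Agent.Helper31_CP

open scoped InnerProductSpace

/-- the operator M - T controls the norm up to the projection on F -/
theorem A2_greedy_coer {H : Type*} [NormedAddCommGroup H] [InnerProductSpace ℂ H]
    (T : H →L[ℂ] H) (F : Submodule ℂ H) [FiniteDimensional ℂ F] (θ : ℝ)
    (hF : ∀ x : H, (∀ f ∈ F, ⟪f, x⟫_ℂ = 0) → (⟪x, T x⟫_ℂ).re ≤ θ * ‖x‖ ^ 2) (M : ℝ) (hM : θ < M) :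
    ∃ C : ℝ, 0 < C ∧ ∀ y : H, ‖y‖ ≤ C * (‖F.orthogonalProjectionOnto y‖ + ‖(M : ℂ) • y - T y‖) := by
  obtain ⟨L, hL, hL2⟩ : ∃ L : ℝ, 0 < L ∧ ∀ y : H, ‖(M : ℂ) • y - T y‖ ≤ L * ‖y‖ := by
    refine ⟨|M| + ‖T‖ + 1, by positivity, fun y => ?_⟩
    calc ‖(M : ℂ) • y - T y‖ ≤ ‖(M : ℂ) • y‖ + ‖T y‖ := norm_sub_le _ _
      _ ≤ |M| * ‖y‖ + ‖T‖ * ‖y‖ := by
          refine add_le_add ?_ (T.le_opNorm y)
          rw [norm_smul, Complex.norm_real, Real.norm_eq_abs]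
      _ ≤ _ := by nlinarith [norm_nonneg y]
  have hd : 0 < M - θ := sub_pos.2 hM
  refine ⟨1 + (1 + L) / (M - θ), by positivity, fun y => ?_⟩
  set p : H := (F.orthogonalProjectionOnto y : H) with hp
  set q : H := y - p with hq
  have hpn : ‖p‖ = ‖F.orthogonalProjectionOnto y‖ := rfl
  have hqF : ∀ f ∈ F, ⟪f, q⟫_ℂ = 0 := by
    intro f hf
    exact (F.mem_orthogonal q).1 (F.sub_starProjection_mem_orthogonal y) f hf
  have h1 : (M - θ) * ‖q‖ ≤ ‖(M : ℂ) • q - T q‖ := by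
    by_cases h0 : ‖q‖ = 0
    · rw [h0, mul_zero]
      exact norm_nonneg _
    have hpos : 0 < ‖q‖ := lt_of_le_of_ne (norm_nonneg _) (Ne.symm h0)
    have h2 := hF q hqF
    have h3 : (⟪q, (M : ℂ) • q - T q⟫_ℂ).re = M * ‖q‖ ^ 2 - (⟪q, T q⟫_ℂ).re := by
      rw [inner_sub_right, inner_smul_right, inner_self_eq_norm_sq_to_K]
      simp [← Complex.ofReal_pow]
    have h4 : (⟪q, (M : ℂ) • q - T q⟫_ℂ).re ≤ ‖q‖ * ‖(M : ℂ) • q - T q‖ :=
      (Complex.re_le_norm _).trans (norm_inner_le_norm _ _)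
    have h5 : ‖q‖ * ((M - θ) * ‖q‖) ≤ ‖q‖ * ‖(M : ℂ) • q - T q‖ := by nlinarith
    exact le_of_mul_le_mul_left h5 hpos
  have h6 : ‖(M : ℂ) • q - T q‖ ≤ ‖(M : ℂ) • y - T y‖ + L * ‖p‖ := by
    have : (M : ℂ) • q - T q = ((M : ℂ) • y - T y) - ((M : ℂ) • p - T p) := by
      rw [hq, smul_sub, map_sub]
      abel
    rw [this]
    exact (norm_sub_le _ _).trans (add_le_add le_rfl (hL2 p))
  have h7 : ‖y‖ ≤ ‖p‖ + ‖q‖ := by
    have : y = p + q := by rw [hq]; abel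
    calc ‖y‖ = ‖p + q‖ := by rw [← this]
      _ ≤ _ := norm_add_le _ _
  have h8 : ‖q‖ ≤ (‖(M : ℂ) • y - T y‖ + L * ‖p‖) / (M - θ) := by
    rw [le_div_iff₀ hd]
    linarith
  rw [← hpn]
  have h9 : (‖(M : ℂ) • y - T y‖ + L * ‖p‖) / (M - θ) ≤
      (1 + L) / (M - θ) * (‖p‖ + ‖(M : ℂ) • y - T y‖) := by
    rw [div_mul_eq_mul_div]
    refine div_le_div_of_nonneg_right ?_ hd.le
    nlinarith [norm_nonneg p, norm_nonneg ((M : ℂ) • y - T y)]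
  have h10 := norm_nonneg ((M : ℂ) • y - T y)
  have h11 := norm_nonneg p
  rw [add_mul, one_mul]
  linarith

theorem A2_greedy_alg {H : Type*} [NormedAddCommGroup H] [InnerProductSpace ℂ H]
    (x a b : H) (t : ℝ) (h : ⟪x, b⟫_ℂ = ⟪a, a⟫_ℂ) :
    (⟪x - (t : ℂ) • a, a - (t : ℂ) • b⟫_ℂ).re =
      (⟪x, a⟫_ℂ).re - 2 * t * ‖a‖ ^ 2 + t ^ 2 * (⟪a, b⟫_ℂ).re := by
  have h0 : ⟪a, a⟫_ℂ = ((‖a‖ ^ 2 : ℝ) : ℂ) := by
    rw [inner_self_eq_norm_sq_to_K]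
    simp
  rw [inner_sub_left, inner_sub_right, inner_smul_left, inner_smul_right, inner_sub_right,
    inner_smul_right, h, h0, Complex.conj_ofReal]
  simp only [Complex.sub_re, Complex.re_ofReal_mul, Complex.ofReal_re]
  ring

/-- Cauchy-Schwarz for M - T -/
theorem A2_greedy_cs {H : Type*} [NormedAddCommGroup H] [InnerProductSpace ℂ H]
    (T : H →L[ℂ] H) (hT : ∀ x y : H, ⟪T x, y⟫_ℂ = ⟪x, T y⟫_ℂ) (K : Submodule ℂ H)
    (hKT : ∀ x ∈ K, T x ∈ K) (M : ℝ) (hM : ∀ x ∈ K, (⟪x, T x⟫_ℂ).re ≤ M * ‖x‖ ^ 2) :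
    ∃ L : ℝ, 0 < L ∧ ∀ x ∈ K, ‖(M : ℂ) • x - T x‖ ^ 2 ≤
      L * (M * ‖x‖ ^ 2 - (⟪x, T x⟫_ℂ).re) := by
  obtain ⟨L, hL, hL2⟩ : ∃ L : ℝ, 0 < L ∧ ∀ y : H, ‖(M : ℂ) • y - T y‖ ≤ L * ‖y‖ := by
    refine ⟨|M| + ‖T‖ + 1, by positivity, fun y => ?_⟩
    calc ‖(M : ℂ) • y - T y‖ ≤ ‖(M : ℂ) • y‖ + ‖T y‖ := norm_sub_le _ _
      _ ≤ |M| * ‖y‖ + ‖T‖ * ‖y‖ := by
          refine add_le_add ?_ (T.le_opNorm y)
          rw [norm_smul, Complex.norm_real, Real.norm_eq_abs]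
      _ ≤ _ := by nlinarith [norm_nonneg y]
  refine ⟨L, hL, fun x hx => ?_⟩
  set A : H → H := fun y => (M : ℂ) • y - T y with hA
  have hAi : ∀ y : H, (⟪y, A y⟫_ℂ).re = M * ‖y‖ ^ 2 - (⟪y, T y⟫_ℂ).re := by
    intro y
    rw [hA]
    simp only
    rw [inner_sub_right, inner_smul_right, inner_self_eq_norm_sq_to_K]
    simp [← Complex.ofReal_pow]
  have hAs : ∀ y z : H, ⟪A y, z⟫_ℂ = ⟪y, A z⟫_ℂ := by
    intro y z
    simp only [hA]
    rw [inner_sub_right, inner_smul_right, inner_sub_left, inner_smul_left, hT,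
      Complex.conj_ofReal]
  have hAK : ∀ y ∈ K, A y ∈ K := fun y hy => K.sub_mem (K.smul_mem _ hy) (hKT y hy)
  set t : ℝ := 1 / L with ht
  have hz : x - (t : ℂ) • A x ∈ K := K.sub_mem hx (K.smul_mem _ (hAK x hx))
  have h1 : 0 ≤ (⟪x - (t : ℂ) • A x, A (x - (t : ℂ) • A x)⟫_ℂ).re := by
    rw [hAi]
    linarith [hM _ hz]
  have h2 : A (x - (t : ℂ) • A x) = A x - (t : ℂ) • A (A x) := by
    simp only [hA, smul_sub, map_sub, map_smul]
    rw [smul_comm (M : ℂ) (t : ℂ)]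
    rw [smul_comm (M : ℂ) (t : ℂ)]
    abel
  have h3 : (⟪x - (t : ℂ) • A x, A (x - (t : ℂ) • A x)⟫_ℂ).re =
      (⟪x, A x⟫_ℂ).re - 2 * t * ‖A x‖ ^ 2 + t ^ 2 * (⟪A x, A (A x)⟫_ℂ).re := by
    rw [h2]
    exact A2_greedy_alg x (A x) (A (A x)) t (hAs x (A x)).symm
  have h4 : (⟪A x, A (A x)⟫_ℂ).re ≤ L * ‖A x‖ ^ 2 := by
    calc _ ≤ ‖A x‖ * ‖A (A x)‖ := (Complex.re_le_norm _).trans (norm_inner_le_norm _ _)
      _ ≤ ‖A x‖ * (L * ‖A x‖) := mul_le_mul_of_nonneg_left (hL2 (A x)) (norm_nonneg _)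
      _ = _ := by ring
  rw [h3, hAi] at h1
  have h5 : t ^ 2 * (⟪A x, A (A x)⟫_ℂ).re ≤ t ^ 2 * (L * ‖A x‖ ^ 2) :=
    mul_le_mul_of_nonneg_left h4 (by positivity)
  have h6 : t ^ 2 * (L * ‖A x‖ ^ 2) = t * ‖A x‖ ^ 2 := by
    rw [ht]
    field_simp
  have h7 : t * ‖A x‖ ^ 2 ≤ M * ‖x‖ ^ 2 - (⟪x, T x⟫_ℂ).re := by linarith
  have h8 := mul_le_mul_of_nonneg_left h7 hL.le
  have h9 : L * (t * ‖A x‖ ^ 2) = ‖A x‖ ^ 2 := by
    rw [ht]
    field_simp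
  rw [h9] at h8
  exact h8

/-- top eigenvector -/
theorem A2_greedy_top {H : Type*} [NormedAddCommGroup H] [InnerProductSpace ℂ H] [CompleteSpace H]
    (T : H →L[ℂ] H) (hT : ∀ x y : H, ⟪T x, y⟫_ℂ = ⟪x, T y⟫_ℂ)
    (F : Submodule ℂ H) [FiniteDimensional ℂ F] (θ : ℝ)
    (hF : ∀ x : H, (∀ f ∈ F, ⟪f, x⟫_ℂ = 0) → (⟪x, T x⟫_ℂ).re ≤ θ * ‖x‖ ^ 2)
    (K : Submodule ℂ H) (hKc : IsClosed (K : Set H)) (hKT : ∀ x ∈ K, T x ∈ K) (x0 : H)
    (hx0 : x0 ∈ K) (h0 : θ * ‖x0‖ ^ 2 < (⟪x0, T x0⟫_ℂ).re) :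
    ∃ e ∈ K, ‖e‖ = 1 ∧ ∃ M : ℝ, θ < M ∧ T e = (M : ℂ) • e := by
  have hx0n : x0 ≠ 0 := by
    rintro rfl
    simp at h0
  have hxp : 0 < ‖x0‖ := norm_pos_iff.2 hx0n
  set S : Set ℝ := {r | ∃ x ∈ K, ‖x‖ = 1 ∧ r = (⟪x, T x⟫_ℂ).re} with hS
  have hscale : ∀ x ∈ K, x ≠ 0 → (⟪x, T x⟫_ℂ).re / ‖x‖ ^ 2 ∈ S := by
    intro x hx hx1
    have hp : 0 < ‖x‖ := norm_pos_iff.2 hx1
    refine ⟨((‖x‖⁻¹ : ℝ) : ℂ) • x, K.smul_mem _ hx, ?_, ?_⟩
    · rw [norm_smul, Complex.norm_real, norm_inv, norm_norm, inv_mul_cancel₀ hp.ne']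
    · rw [map_smul, inner_smul_left, inner_smul_right, Complex.conj_ofReal,
        Complex.re_ofReal_mul, Complex.re_ofReal_mul]
      field_simp
  have hSne : S.Nonempty := ⟨_, hscale x0 hx0 hx0n⟩
  have hSb : BddAbove S := by
    refine ⟨‖T‖, ?_⟩
    rintro r ⟨x, hx, hx1, rfl⟩
    calc (⟪x, T x⟫_ℂ).re ≤ ‖x‖ * ‖T x‖ := (Complex.re_le_norm _).trans (norm_inner_le_norm _ _)
      _ ≤ ‖x‖ * (‖T‖ * ‖x‖) := mul_le_mul_of_nonneg_left (T.le_opNorm x) (norm_nonneg _)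
      _ = ‖T‖ := by rw [hx1]; ring
  set M : ℝ := sSup S with hMdef
  have hMθ : θ < M := by
    have h1 : (⟪x0, T x0⟫_ℂ).re / ‖x0‖ ^ 2 ≤ M := le_csSup hSb (hscale x0 hx0 hx0n)
    have h2 : θ < (⟪x0, T x0⟫_ℂ).re / ‖x0‖ ^ 2 := by
      rw [lt_div_iff₀ (by positivity)]
      exact h0
    linarith
  have hM : ∀ x ∈ K, (⟪x, T x⟫_ℂ).re ≤ M * ‖x‖ ^ 2 := by
    intro x hx
    by_cases hx1 : x = 0
    · rw [hx1]
      simp
    · have hp : 0 < ‖x‖ := norm_pos_iff.2 hx1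
      have h1 : (⟪x, T x⟫_ℂ).re / ‖x‖ ^ 2 ≤ M := le_csSup hSb (hscale x hx hx1)
      rwa [div_le_iff₀ (by positivity)] at h1
  obtain ⟨u, -, hu, huS⟩ := exists_seq_tendsto_sSup hSne hSb
  choose x hxK hx1 hxu using huS
  obtain ⟨L, hL, hcs⟩ := A2_greedy_cs T hT K hKT M hM
  obtain ⟨C, hC, hco⟩ := A2_greedy_coer T F θ hF M hMθ
  have hA0 : Filter.Tendsto (fun n => (M : ℂ) • x n - T (x n)) Filter.atTop (nhds 0) := by
    rw [tendsto_zero_iff_norm_tendsto_zero]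
    have h1 : Filter.Tendsto (fun n => L * (M - u n)) Filter.atTop (nhds 0) := by
      have := (tendsto_const_nhds (x := M)).sub hu
      rw [sub_self] at this
      simpa using this.const_mul L
    have h2 : Filter.Tendsto (fun n => ‖(M : ℂ) • x n - T (x n)‖ ^ 2) Filter.atTop (nhds 0) := by
      refine squeeze_zero (fun n => by positivity) (fun n => ?_) h1
      have := hcs (x n) (hxK n)
      rw [hx1 n, ← hxu n, one_pow, mul_one] at this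
      exact this
    have h3 := h2.sqrt
    rw [Real.sqrt_zero] at h3
    refine h3.congr fun n => ?_
    exact Real.sqrt_sq (norm_nonneg _)
  have : ProperSpace F := FiniteDimensional.proper ℂ F
  obtain ⟨p, -, φ, hφ, hp⟩ := tendsto_subseq_of_bounded (s := Metric.closedBall (0 : F) 1)
    Metric.isBounded_closedBall (x := fun n => F.orthogonalProjectionOnto (x n)) (fun n => by
      rw [mem_closedBall_zero_iff, ← hx1 n]
      exact F.norm_orthogonalProjectionOnto_apply_le (x n))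
  have hcau : CauchySeq (fun n => x (φ n)) := by
    rw [Metric.cauchySeq_iff]
    intro ε hε
    have hpc := hp.cauchySeq
    rw [Metric.cauchySeq_iff] at hpc
    obtain ⟨N1, hN1⟩ := hpc (ε / (4 * C)) (by positivity)
    have hA1 := (hA0.comp hφ.tendsto_atTop)
    rw [Metric.tendsto_atTop] at hA1
    obtain ⟨N2, hN2⟩ := hA1 (ε / (4 * C)) (by positivity)
    refine ⟨max N1 N2, fun n hn m hm => ?_⟩
    have k1 := hN1 n ((le_max_left _ _).trans hn) m ((le_max_left _ _).trans hm)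
    have k2 := hN2 n ((le_max_right _ _).trans hn)
    have k3 := hN2 m ((le_max_right _ _).trans hm)
    simp only [Function.comp_apply, dist_zero_right] at k2 k3
    rw [dist_eq_norm] at k1 ⊢
    simp only [Function.comp_apply] at k1
    rw [← map_sub] at k1
    have k4 := hco (x (φ n) - x (φ m))
    have k5 : ‖(M : ℂ) • (x (φ n) - x (φ m)) - T (x (φ n) - x (φ m))‖ ≤
        ‖(M : ℂ) • x (φ n) - T (x (φ n))‖ + ‖(M : ℂ) • x (φ m) - T (x (φ m))‖ := by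
      have : (M : ℂ) • (x (φ n) - x (φ m)) - T (x (φ n) - x (φ m)) =
          ((M : ℂ) • x (φ n) - T (x (φ n))) - ((M : ℂ) • x (φ m) - T (x (φ m))) := by
        rw [smul_sub, map_sub]
        abel
      rw [this]
      exact norm_sub_le _ _
    have k6 : C * (‖F.orthogonalProjectionOnto (x (φ n) - x (φ m))‖ +
        ‖(M : ℂ) • (x (φ n) - x (φ m)) - T (x (φ n) - x (φ m))‖) <
        C * (ε / (4 * C) + (ε / (4 * C) + ε / (4 * C))) := by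
      refine mul_lt_mul_of_pos_left ?_ hC
      linarith
    have k7 : C * (ε / (4 * C) + (ε / (4 * C) + ε / (4 * C))) = 3 / 4 * ε := by
      field_simp
      ring
    rw [k7] at k6
    linarith
  obtain ⟨e, he⟩ := cauchySeq_tendsto_of_complete hcau
  have heK : e ∈ K := hKc.mem_of_tendsto he (Filter.Eventually.of_forall fun n => hxK (φ n))
  refine ⟨e, heK, ?_, M, hMθ, ?_⟩
  · have h1 := he.norm
    simp only [hx1] at h1
    exact (tendsto_nhds_unique h1 tendsto_const_nhds)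
  · have h1 : Filter.Tendsto (fun n => (M : ℂ) • x (φ n) - T (x (φ n))) Filter.atTop
        (nhds ((M : ℂ) • e - T e)) :=
      (he.const_smul (M : ℂ)).sub ((T.continuous.tendsto e).comp he)
    have h2 := tendsto_nhds_unique h1 (hA0.comp hφ.tendsto_atTop)
    exact (sub_eq_zero.1 h2).symm

/-- families of eigenvectors -/
def A2_greedy_Q {H : Type*} [NormedAddCommGroup H] [InnerProductSpace ℂ H]
    (T : H →L[ℂ] H) (θ : ℝ) (k : ℕ) (e : Fin k → H) (τ : Fin k → ℝ) : Prop :=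
  Orthonormal ℂ e ∧ (∀ j, T (e j) = (τ j : ℂ) • e j) ∧ ∀ j, θ < τ j

theorem A2_greedy_card {H : Type*} [NormedAddCommGroup H] [InnerProductSpace ℂ H]
    (T : H →L[ℂ] H) (F : Submodule ℂ H) [FiniteDimensional ℂ F] (θ : ℝ)
    (hF : ∀ x : H, (∀ f ∈ F, ⟪f, x⟫_ℂ = 0) → (⟪x, T x⟫_ℂ).re ≤ θ * ‖x‖ ^ 2)
    (k : ℕ) (e : Fin k → H) (τ : Fin k → ℝ) (hQ : A2_greedy_Q T θ k e τ) :
    k ≤ Module.finrank ℂ F := by
  by_contra hlt
  push Not at hlt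
  obtain ⟨ho, he, hτ⟩ := hQ
  set L : (Fin k → ℂ) →ₗ[ℂ] H := Fintype.linearCombination ℂ e with hL
  set L2 : (Fin k → ℂ) →ₗ[ℂ] F := (F.orthogonalProjectionOnto : H →ₗ[ℂ] F) ∘ₗ L with hL2
  have hker : LinearMap.ker L2 ≠ ⊥ := by
    apply LinearMap.ker_ne_bot_of_finrank_lt
    rw [Module.finrank_fin_fun]
    exact hlt
  obtain ⟨c, hc, hc0⟩ := (Submodule.ne_bot_iff _).1 hker
  set x : H := ∑ j, c j • e j with hx
  have hLc : L c = x := by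
    rw [hL, hx, Fintype.linearCombination_apply]
  have hproj : F.orthogonalProjectionOnto x = 0 := by
    have : L2 c = 0 := hc
    rw [hL2, LinearMap.comp_apply, hLc] at this
    exact this
  have hxF : ∀ f ∈ F, ⟪f, x⟫_ℂ = 0 := by
    have h1 : x ∈ Fᗮ := F.orthogonalProjectionOnto_eq_zero_iff.1 hproj
    exact fun f hf => (F.mem_orthogonal x).1 h1 f hf
  have h2 := hF x hxF
  have hTx : T x = ∑ j, (c j * (τ j : ℂ)) • e j := by
    rw [hx, map_sum]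
    refine Finset.sum_congr rfl fun j _ => ?_
    rw [map_smul, he j, smul_smul]
  have h3 : (⟪x, T x⟫_ℂ).re = ∑ j, τ j * ‖c j‖ ^ 2 := by
    rw [hTx, hx, ho.inner_sum, Complex.re_sum]
    refine Finset.sum_congr rfl fun j _ => ?_
    rw [← mul_assoc, mul_comm (starRingEnd ℂ (c j)), Complex.mul_conj, Complex.normSq_eq_norm_sq,
      ← Complex.ofReal_mul, Complex.ofReal_re, mul_comm]
  have h4 : ‖x‖ ^ 2 = ∑ j, ‖c j‖ ^ 2 := by
    have h5 : (⟪x, x⟫_ℂ).re = ‖x‖ ^ 2 := by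
      rw [inner_self_eq_norm_sq_to_K]
      simp [← Complex.ofReal_pow]
    rw [← h5, hx, ho.inner_sum, Complex.re_sum]
    refine Finset.sum_congr rfl fun j _ => ?_
    rw [mul_comm, Complex.mul_conj, Complex.normSq_eq_norm_sq, Complex.ofReal_re]
  rw [h3, h4, Finset.mul_sum] at h2
  have h6 : ∑ j, θ * ‖c j‖ ^ 2 < ∑ j, τ j * ‖c j‖ ^ 2 := by
    obtain ⟨j0, hj0⟩ : ∃ j, c j ≠ 0 := by
      by_contra hcon
      push Not at hcon
      exact hc0 (funext hcon)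
    refine Finset.sum_lt_sum (fun j _ => mul_le_mul_of_nonneg_right (hτ j).le (by positivity))
      ⟨j0, Finset.mem_univ _, mul_lt_mul_of_pos_right (hτ j0) ?_⟩
    have := norm_pos_iff.2 hj0
    positivity
  linarith

theorem A2_greedy_ext {H : Type*} [NormedAddCommGroup H] [InnerProductSpace ℂ H] [CompleteSpace H]
    (T : H →L[ℂ] H) (hT : ∀ x y : H, ⟪T x, y⟫_ℂ = ⟪x, T y⟫_ℂ)
    (F : Submodule ℂ H) [FiniteDimensional ℂ F] (θ : ℝ)
    (hF : ∀ x : H, (∀ f ∈ F, ⟪f, x⟫_ℂ = 0) → (⟪x, T x⟫_ℂ).re ≤ θ * ‖x‖ ^ 2)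
    (k : ℕ) (e : Fin k → H) (τ : Fin k → ℝ) (hQ : A2_greedy_Q T θ k e τ) (x0 : H)
    (hx0 : ∀ j, ⟪e j, x0⟫_ℂ = 0) (h0 : θ * ‖x0‖ ^ 2 < (⟪x0, T x0⟫_ℂ).re) :
    ∃ (e' : Fin (k + 1) → H) (τ' : Fin (k + 1) → ℝ), A2_greedy_Q T θ (k + 1) e' τ' := by
  obtain ⟨ho, he, hτ⟩ := hQ
  set K : Submodule ℂ H := ⨅ j, LinearMap.ker (innerSL ℂ (e j) : H →ₗ[ℂ] ℂ) with hK
  have hmem : ∀ x, x ∈ K ↔ ∀ j, ⟪e j, x⟫_ℂ = 0 := by
    intro x
    rw [hK, Submodule.mem_iInf]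
    exact Iff.rfl
  have hKc : IsClosed (K : Set H) := by
    have : (K : Set H) = ⋂ j, {x | ⟪e j, x⟫_ℂ = 0} := by
      ext x
      rw [Set.mem_iInter]
      exact hmem x
    rw [this]
    refine isClosed_iInter fun j => isClosed_eq ?_ continuous_const
    exact continuous_const.inner continuous_id
  have hKT : ∀ x ∈ K, T x ∈ K := by
    intro x hx
    rw [hmem] at hx ⊢
    intro j
    rw [← hT, he j, inner_smul_left, hx j, mul_zero]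
  obtain ⟨f, hfK, hf1, M, hM, hTf⟩ := A2_greedy_top T hT F θ hF K hKc hKT x0 ((hmem x0).2 hx0) h0
  rw [hmem] at hfK
  refine ⟨Fin.cons (α := fun _ => H) f e, Fin.cons (α := fun _ => ℝ) M τ, ?_, ?_, ?_⟩
  · constructor
    · intro i
      refine Fin.cases ?_ (fun i => ?_) i
      · rw [Fin.cons_zero]
        exact hf1
      · rw [Fin.cons_succ]
        exact ho.1 i
    · intro i j hij
      show ⟪(Fin.cons (α := fun _ => H) f e : Fin (k + 1) → H) i,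
        (Fin.cons (α := fun _ => H) f e : Fin (k + 1) → H) j⟫_ℂ = 0
      revert hij
      refine Fin.cases ?_ (fun i => ?_) i <;> refine Fin.cases ?_ (fun j => ?_) j
      · intro h
        exact absurd rfl h
      · intro _
        rw [Fin.cons_zero, Fin.cons_succ, ← inner_conj_symm, hfK j, map_zero]
      · intro _
        rw [Fin.cons_zero, Fin.cons_succ]
        exact hfK i
      · intro h
        rw [Fin.cons_succ, Fin.cons_succ]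
        exact ho.2 (fun hh => h (by rw [hh]))
  · intro j
    refine Fin.cases ?_ (fun j => ?_) j
    · rw [Fin.cons_zero, Fin.cons_zero]
      exact hTf
    · rw [Fin.cons_succ, Fin.cons_succ]
      exact he j
  · intro j
    refine Fin.cases ?_ (fun j => ?_) j
    · rw [Fin.cons_zero]
      exact hM
    · rw [Fin.cons_succ]
      exact hτ j

/-- TARGET -/
theorem greedy {H : Type*} [NormedAddCommGroup H] [InnerProductSpace ℂ H] [CompleteSpace H]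
    (T : H →L[ℂ] H) (hT : ∀ x y : H, ⟪T x, y⟫_ℂ = ⟪x, T y⟫_ℂ)
    (F : Submodule ℂ H) [FiniteDimensional ℂ F] (θ : ℝ)
    (hF : ∀ x : H, (∀ f ∈ F, ⟪f, x⟫_ℂ = 0) → (⟪x, T x⟫_ℂ).re ≤ θ * ‖x‖ ^ 2) :
    ∃ (n : ℕ) (e : Fin n → H) (τ : Fin n → ℝ), n ≤ Module.finrank ℂ F ∧ Orthonormal ℂ e ∧
      (∀ j, T (e j) = (τ j : ℂ) • e j) ∧ (∀ j, θ < τ j) ∧
      ∀ x : H, (∀ j, ⟪e j, x⟫_ℂ = 0) → (⟪x, T x⟫_ℂ).re ≤ θ * ‖x‖ ^ 2 := by
  by_contra hcon
  have key : ∀ k : ℕ, ∃ (e : Fin k → H) (τ : Fin k → ℝ), A2_greedy_Q T θ k e τ := by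
    intro k
    induction k with
    | zero =>
      refine ⟨fun i => i.elim0, fun i => i.elim0, ⟨fun i => i.elim0, fun i => i.elim0⟩,
        fun i => i.elim0, fun i => i.elim0⟩
    | succ k ih =>
      obtain ⟨e, τ, hQ⟩ := ih
      by_cases hx : ∃ x : H, (∀ j, ⟪e j, x⟫_ℂ = 0) ∧ θ * ‖x‖ ^ 2 < (⟪x, T x⟫_ℂ).re
      · obtain ⟨x0, hx0, h0⟩ := hx
        exact A2_greedy_ext T hT F θ hF k e τ hQ x0 hx0 h0
      · push Not at hx
        exact absurd ⟨k, e, τ, A2_greedy_card T F θ hF k e τ hQ, hQ.1, hQ.2.1, hQ.2.2, hx⟩ hcon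
  obtain ⟨e, τ, hQ⟩ := key (Module.finrank ℂ F + 1)
  have := A2_greedy_card T F θ hF _ e τ hQ
  omega

end Pool.Agent.Helper31_CP

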