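import Mathlib
import Pool.Agent.Helper31_CP.Defs

set_option autoImplicit false

namespace Pool.Agent.Helper31_CP

theorem gap {n N : ℕ} (hn : n ≤ N) (τ : Fin n → ℝ) (a b : ℝ) (hab : a < b) :
    ∃ t g : ℝ, g = (b - a) / (2 * (N + 1)) ∧ a + g ≤ t ∧ t + g ≤ b ∧
      ∀ j, τ j ≤ t - g ∨ t + g ≤ τ j := by
  set g : ℝ := (b - a) / (2 * (N + 1)) with hg
  have hN : (0 : ℝ) < N + 1 := by positivity
  have hg0 : 0 < g := div_pos (by linarith) (by positivity)
  have hgN : 2 * g * (N + 1) = b - a := by rw [hg]; field_simp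
  have hcard : (Finset.univ.image fun j : Fin n => ⌊(τ j - a) / (2 * g)⌋₊).card <
      (Finset.range (N + 1)).card := by
    rw [Finset.card_range]
    refine lt_of_le_of_lt Finset.card_image_le ?_
    rw [Finset.card_univ, Fintype.card_fin]
    omega
  obtain ⟨m, hm, hmn⟩ := Finset.exists_mem_notMem_of_card_lt_card hcard
  rw [Finset.mem_range] at hm
  have hmN : (m : ℝ) ≤ N := by exact_mod_cast (by omega : m ≤ N)
  refine ⟨a + 2 * g * m + g, g, rfl, ?_, ?_, ?_⟩
  · have : 0 ≤ 2 * g * (m : ℝ) := by positivity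
    linarith
  · have : 2 * g * (m : ℝ) ≤ 2 * g * N := mul_le_mul_of_nonneg_left hmN (by positivity)
    nlinarith
  · intro j
    by_contra hcon
    push Not at hcon
    apply hmn
    rw [Finset.mem_image]
    refine ⟨j, Finset.mem_univ _, ?_⟩
    rw [Nat.floor_eq_iff]
    · constructor
      · rw [le_div_iff₀ (by positivity)]
        nlinarith [hcon.1]
      · rw [div_lt_iff₀ (by positivity)]
        nlinarith [hcon.2]
    · apply div_nonneg _ (by positivity)
      have : 0 ≤ 2 * g * (m : ℝ) := by positivity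
      linarith [hcon.1]

end Pool.Agent.Helper31_CP
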