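import Mathlib
import Pool.Agent.Helper31_CP.Defs

set_option autoImplicit false

namespace Pool.Agent.Helper31_CP

open scoped InnerProductSpace

open Submodule in
theorem A4_riccati_mem {H : Type*} [NormedAddCommGroup H] [InnerProductSpace ℂ H]
    {n : ℕ} (e : Fin n → H) (x : H) :
    x ∈ (Submodule.span ℂ (Set.range e))ᗮ ↔ ∀ k, ⟪e k, x⟫_ℂ = 0 := by
  constructor
  · intro hx k
    exact (Submodule.mem_orthogonal _ _).1 hx _ (Submodule.subset_span ⟨k, rfl⟩)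
  · intro hx
    rw [Submodule.mem_orthogonal]
    intro u hu
    induction hu using Submodule.span_induction with
    | mem y hy =>
      obtain ⟨k, rfl⟩ := hy
      exact hx k
    | zero => exact inner_zero_left _
    | add y z _ _ hy hz => rw [inner_add_left, hy, hz, add_zero]
    | smul a y _ hy => rw [inner_smul_left, hy, mul_zero]

/-- the contraction argument in a Hilbert space `F` -/
theorem A4_riccati_fix {F : Type*} [NormedAddCommGroup F] [InnerProductSpace ℂ F] [CompleteSpace F]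
    {n : ℕ} (L : Fin n → F →L[ℂ] F) (c δ : ℝ) (hc : 0 < c) (hδ : 0 ≤ δ)
    (hsmall : 6 * (n + 1) * δ ≤ c)
    (hL : ∀ j, ∀ x : F, c * ‖x‖ ^ 2 ≤ ‖⟪x, L j x⟫_ℂ‖)
    (r : Fin n → F) (hr : ∀ j, ‖r j‖ ≤ δ) (a : Fin n → Fin n → ℂ) (ha : ∀ k j, ‖a k j‖ ≤ δ)
    (β : Fin n → F →ₗ[ℂ] ℂ) (hβ : ∀ k, ∀ x, ‖β k x‖ ≤ δ * ‖x‖) :
    ∃ x : Fin n → F, (∀ j, ‖x j‖ ≤ 1) ∧
      ∀ j, L j (x j) = - r j + ∑ k, (a k j + β k (x j)) • x k := by
  have hG : ∀ j, ∃ G : F →L[ℂ] F, (∀ y, L j (G y) = y) ∧ ∀ y, ‖G y‖ ≤ c⁻¹ * ‖y‖ := by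
    intro j
    have hu : IsUnit (L j) := by
      refine ContinuousLinearMap.isUnit_of_forall_le_norm_inner_map (L j) (c := Real.toNNReal c)
        (Real.toNNReal_pos.2 hc) ?_
      intro x
      have h := hL j x
      rw [norm_inner_symm, Real.coe_toNNReal c hc.le, mul_comm]
      exact h
    obtain ⟨U, hU⟩ := hu
    have hmul : ∀ y, L j ((U⁻¹ : (F →L[ℂ] F)ˣ).1 y) = y := by
      intro y
      have h := congrArg (fun T : F →L[ℂ] F => T y) U.mul_inv
      rw [← hU]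
      exact h
    refine ⟨(U⁻¹ : (F →L[ℂ] F)ˣ).1, hmul, ?_⟩
    intro y
    set z := (U⁻¹ : (F →L[ℂ] F)ˣ).1 y with hz
    have h1 := hL j z
    rw [hmul y] at h1
    have h2 := norm_inner_le_norm (𝕜 := ℂ) z y
    rw [← div_eq_inv_mul, le_div_iff₀ hc]
    rcases (norm_nonneg z).eq_or_lt with h0 | h0
    · rw [← h0, zero_mul]
      exact norm_nonneg y
    · have h3 : ‖z‖ * (‖z‖ * c) ≤ ‖z‖ * ‖y‖ := by
        have := h1.trans h2
        nlinarith [this]
      exact le_of_mul_le_mul_left h3 h0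
  choose G hG1 hG2 using hG
  set Φ : (Fin n → F) → (Fin n → F) := fun x j => G j (- r j + ∑ k, (a k j + β k (x j)) • x k)
    with hΦ
  have hn0 : (0 : ℝ) ≤ (n : ℝ) := Nat.cast_nonneg n
  have hnδ : 0 ≤ (n : ℝ) * δ := mul_nonneg hn0 hδ
  have hmap : Set.MapsTo Φ (Metric.closedBall (0 : Fin n → F) 1) (Metric.closedBall 0 1) := by
    intro x hx
    rw [mem_closedBall_zero_iff, pi_norm_le_iff_of_nonneg zero_le_one] at hx ⊢
    intro j
    refine (hG2 j _).trans ?_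
    rw [← div_eq_inv_mul, div_le_one hc]
    have h1 : ‖- r j + ∑ k, (a k j + β k (x j)) • x k‖ ≤ δ + ∑ _k : Fin n, 2 * δ := by
      refine (norm_add_le _ _).trans (add_le_add ?_ ?_)
      · rw [norm_neg]
        exact hr j
      · refine (norm_sum_le _ _).trans (Finset.sum_le_sum fun k _ => ?_)
        rw [norm_smul]
        have h2 : ‖a k j + β k (x j)‖ ≤ 2 * δ := by
          refine (norm_add_le _ _).trans ?_
          have h3 := hβ k (x j)
          have h4 : δ * ‖x j‖ ≤ δ * 1 := mul_le_mul_of_nonneg_left (hx j) hδ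
          have h5 := ha k j
          linarith
        calc ‖a k j + β k (x j)‖ * ‖x k‖ ≤ (2 * δ) * 1 :=
              mul_le_mul h2 (hx k) (norm_nonneg _) (by linarith)
          _ = 2 * δ := mul_one _
    refine h1.trans ?_
    rw [Finset.sum_const, Finset.card_univ, Fintype.card_fin, nsmul_eq_mul]
    nlinarith
  have hlip : ContractingWith (1 / 2 : NNReal) (hmap.restrict Φ _ _) := by
    refine ⟨by
      rw [← NNReal.coe_lt_coe]
      norm_num, ?_⟩
    refine LipschitzWith.of_dist_le_mul ?_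
    rintro ⟨x, hx⟩ ⟨y, hy⟩
    rw [mem_closedBall_zero_iff, pi_norm_le_iff_of_nonneg zero_le_one] at hx hy
    rw [Subtype.dist_eq, Subtype.dist_eq]
    change dist (Φ x) (Φ y) ≤ _ * dist x y
    rw [dist_eq_norm, dist_eq_norm]
    set D := ‖x - y‖ with hD
    have hD0 : 0 ≤ D := norm_nonneg _
    have hDk : ∀ k, ‖x k - y k‖ ≤ D := fun k => norm_le_pi_norm (x - y) k
    have hhalf : ((1 / 2 : NNReal) : ℝ) = 1 / 2 := by norm_num
    rw [hhalf]
    rw [pi_norm_le_iff_of_nonneg (by positivity)]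
    intro j
    have h0 : (Φ x - Φ y) j = G j (∑ k, ((a k j + β k (x j)) • (x k - y k) +
        (β k (x j - y j)) • y k)) := by
      rw [Pi.sub_apply, hΦ]
      simp only
      rw [← map_sub]
      congr 1
      rw [add_sub_add_left_eq_sub, ← Finset.sum_sub_distrib]
      refine Finset.sum_congr rfl fun k _ => ?_
      rw [map_sub]
      module
    rw [h0]
    refine (hG2 j _).trans ?_
    rw [← div_eq_inv_mul, div_le_iff₀ hc]
    have h1 : ‖∑ k, ((a k j + β k (x j)) • (x k - y k) + (β k (x j - y j)) • y k)‖ ≤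
        ∑ _k : Fin n, 3 * δ * D := by
      refine (norm_sum_le _ _).trans (Finset.sum_le_sum fun k _ => ?_)
      refine (norm_add_le _ _).trans ?_
      rw [norm_smul, norm_smul]
      have h2 : ‖a k j + β k (x j)‖ ≤ 2 * δ := by
        refine (norm_add_le _ _).trans ?_
        have h3 := hβ k (x j)
        have h4 : δ * ‖x j‖ ≤ δ * 1 := mul_le_mul_of_nonneg_left (hx j) hδ
        have h5 := ha k j
        linarith
      have h3 : ‖a k j + β k (x j)‖ * ‖x k - y k‖ ≤ (2 * δ) * D :=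
        mul_le_mul h2 (hDk k) (norm_nonneg _) (by linarith)
      have h4 : ‖β k (x j - y j)‖ ≤ δ * D :=
        (hβ k _).trans (mul_le_mul_of_nonneg_left (hDk j) hδ)
      have h5 : ‖β k (x j - y j)‖ * ‖y k‖ ≤ (δ * D) * 1 :=
        mul_le_mul h4 (hy k) (norm_nonneg _) (mul_nonneg hδ hD0)
      linarith
    refine h1.trans ?_
    rw [Finset.sum_const, Finset.card_univ, Fintype.card_fin, nsmul_eq_mul]
    have h6 : 6 * (n : ℝ) * δ ≤ c := by nlinarith
    have h7 : 6 * (n : ℝ) * δ * D ≤ c * D := mul_le_mul_of_nonneg_right h6 hD0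
    nlinarith
  obtain ⟨x, hx, hfix, -⟩ := hlip.exists_fixedPoint'
    (Metric.isClosed_closedBall.isComplete) hmap
    (Metric.mem_closedBall_self zero_le_one) (edist_ne_top _ _)
  rw [mem_closedBall_zero_iff, pi_norm_le_iff_of_nonneg zero_le_one] at hx
  refine ⟨x, hx, ?_⟩
  intro j
  have h := congrFun hfix j
  have h2 : G j (- r j + ∑ k, (a k j + β k (x j)) • x k) = x j := h
  rw [← hG1 j (- r j + ∑ k, (a k j + β k (x j)) • x k), h2]

/-- TARGET -/
theorem riccati {H : Type*} [NormedAddCommGroup H] [InnerProductSpace ℂ H] [CompleteSpace H]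
    (R : H →L[ℂ] H) {n : ℕ} (e : Fin n → H) (he : Orthonormal ℂ e) (τ : Fin n → ℝ)
    (c δ : ℝ) (hc : 0 < c) (hδ : 0 ≤ δ) (hsmall : 6 * (n + 1) * δ ≤ c)
    (h1 : ∀ j, ‖R (e j) - (τ j : ℂ) • e j‖ ≤ δ)
    (h2 : ∀ j, ∀ x : H, (∀ k, ⟪e k, x⟫_ℂ = 0) → ‖⟪e j, R x⟫_ℂ‖ ≤ δ * ‖x‖)
    (h3 : ∀ j, ∀ x : H, (∀ k, ⟪e k, x⟫_ℂ = 0) →
      c * ‖x‖ ^ 2 ≤ ‖⟪x, R x - (τ j : ℂ) • x⟫_ℂ‖) :
    ∃ (w : Fin n → H) (Z : Matrix (Fin n) (Fin n) ℂ), LinearIndependent ℂ w ∧
      (∀ j, R (w j) = (τ j : ℂ) • w j + ∑ k, Z k j • w k) ∧ ∀ k j, ‖Z k j‖ ≤ 2 * δ := by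
  classical
  set K : Submodule ℂ H := Submodule.span ℂ (Set.range e) with hK
  have : FiniteDimensional ℂ K := FiniteDimensional.span_of_finite ℂ (Set.finite_range e)
  have hmem : ∀ x : H, x ∈ Kᗮ ↔ ∀ k, ⟪e k, x⟫_ℂ = 0 := A4_riccati_mem e
  have hee : ∀ k j, ⟪e k, e j⟫_ℂ = if k = j then 1 else 0 := fun k j => by
    rw [orthonormal_iff_ite.1 he k j]
  set P : H →L[ℂ] Kᗮ := (Kᗮ).orthogonalProjectionOnto with hP
  have hPv : ∀ v : H, ((P v : Kᗮ) : H) = v - ∑ k, ⟪e k, v⟫_ℂ • e k := by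
    intro v
    refine Submodule.eq_starProjection_of_mem_orthogonal (K := Kᗮ) (u := v) ?_ ?_
    · rw [hmem]
      intro k
      rw [inner_sub_right, inner_sum]
      simp only [inner_smul_right, hee]
      simp
    · rw [sub_sub_cancel]
      refine Submodule.le_orthogonal_orthogonal K ?_
      exact Submodule.sum_mem _ fun k _ => Submodule.smul_mem _ _ (Submodule.subset_span ⟨k, rfl⟩)
  have hPle : ∀ v : H, ‖P v‖ ≤ ‖v‖ := fun v =>
    Submodule.norm_orthogonalProjectionOnto_apply_le (Kᗮ) v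
  set L : Fin n → Kᗮ →L[ℂ] Kᗮ := fun j =>
    P ∘L (R - (τ j : ℂ) • ContinuousLinearMap.id ℂ H) ∘L (Kᗮ).subtypeL with hLdef
  have hLa : ∀ j (x : Kᗮ), L j x = P (R (x : H) - (τ j : ℂ) • (x : H)) := fun j x => rfl
  have hnorm : ∀ k, ‖e k‖ = 1 := fun k => he.1 k
  obtain ⟨x, hx1, hx2⟩ := A4_riccati_fix L c δ hc hδ hsmall
    (by
      intro j x
      rw [hLa]
      rw [Submodule.inner_orthogonalProjectionOnto_eq_of_mem_left]
      exact h3 j x ((hmem x).1 x.2))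
    (fun j => P (R (e j) - (τ j : ℂ) • e j)) (fun j => (hPle _).trans (h1 j))
    (fun k j => ⟪e k, R (e j) - (τ j : ℂ) • e j⟫_ℂ)
    (by
      intro k j
      refine (norm_inner_le_norm _ _).trans ?_
      rw [hnorm, one_mul]
      exact h1 j)
    (fun k => ((innerSL ℂ (e k)).toLinearMap ∘ₗ R.toLinearMap) ∘ₗ (Kᗮ).subtype)
    (by
      intro k x
      exact h2 k x ((hmem x).1 x.2))
  have hxe : ∀ k j, ⟪e k, (x j : H)⟫_ℂ = 0 := fun k j => (hmem _).1 (x j).2 k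
  refine ⟨fun j => e j + (x j : H), fun k j => ⟪e k, R (e j) - (τ j : ℂ) • e j⟫_ℂ +
    ⟪e k, R (x j : H)⟫_ℂ, ?_, ?_, ?_⟩
  · rw [Fintype.linearIndependent_iff]
    intro g hg i
    have h := congrArg (fun v => ⟪e i, v⟫_ℂ) hg
    simp only [inner_sum, inner_smul_right, inner_add_right, hee, hxe, inner_zero_right] at h
    simpa using h
  · intro j
    have h4 := hx2 j
    have h5 : ((L j (x j) : Kᗮ) : H) = -((P (R (e j) - (τ j : ℂ) • e j) : Kᗮ) : H) +
        ∑ k, (⟪e k, R (e j) - (τ j : ℂ) • e j⟫_ℂ + ⟪e k, R (x j : H)⟫_ℂ) • (x k : H) := by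
      rw [h4]
      push_cast
      rfl
    rw [hLa, hPv, hPv] at h5
    have h6 : ∀ k, ⟪e k, R (x j : H) - (τ j : ℂ) • (x j : H)⟫_ℂ = ⟪e k, R (x j : H)⟫_ℂ := by
      intro k
      rw [inner_sub_right, inner_smul_right, hxe, mul_zero, sub_zero]
    simp only [h6] at h5
    rw [map_add]
    simp only [smul_add, Finset.sum_add_distrib, add_smul] at h5 ⊢
    linear_combination (norm := module) h5
  · intro k j
    refine (norm_add_le _ _).trans ?_
    have h4 : ‖⟪e k, R (e j) - (τ j : ℂ) • e j⟫_ℂ‖ ≤ δ := by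
      refine (norm_inner_le_norm _ _).trans ?_
      rw [hnorm, one_mul]
      exact h1 j
    have h5 : ‖⟪e k, R (x j : H)⟫_ℂ‖ ≤ δ * ‖(x j : H)‖ := h2 k _ ((hmem _).1 (x j).2)
    have h6 : ‖(x j : H)‖ ≤ 1 := hx1 j
    have h7 : δ * ‖(x j : H)‖ ≤ δ * 1 := mul_le_mul_of_nonneg_left h6 hδ
    linarith

end Pool.Agent.Helper31_CP
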