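import Mathlib
import Pool.Agent.Helper31_CP.Defs

set_option autoImplicit false

namespace Pool.Agent.Helper31_CP

open scoped InnerProductSpace

/-- TARGET -/
theorem resolvent {H V : Type*} [NormedAddCommGroup H] [InnerProductSpace ℂ H] [CompleteSpace H]
    [NormedAddCommGroup V] [InnerProductSpace ℂ V] [CompleteSpace V]
    (J : V →L[ℂ] H) (P : H →L[ℂ] H) (hP : ∀ x y : H, ⟪P x, y⟫_ℂ = ⟪x, P y⟫_ℂ)
    (hPP : ∀ x, P (P x) = P x) (Λ : ℝ) (hΛ : 0 ≤ Λ)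
    (hb : ∀ u : V, (Λ + 1) * ‖P (J u)‖ ^ 2 ≤ ‖u‖ ^ 2) (κ : ℂ) (hκ : κ.re = Λ) :
    ∃ S : H →L[ℂ] V,
      (∀ (f : H) (v : V), ⟪v, S f⟫_ℂ - κ * ⟪P (J v), P (J (S f))⟫_ℂ = ⟪J v, f⟫_ℂ) ∧
      (∀ f, ‖S f‖ ≤ (Λ + 1) * ‖J‖ * ‖f‖) ∧
      (∀ f : H, J (S f) = J (J.adjoint f) + κ • J (J.adjoint (P (J (S f))))) ∧
      (∀ f : H, J (S f) = J (J.adjoint f) + κ • J (S (P (J (J.adjoint f))))) := by
  classical
  obtain ⟨G, hG⟩ : ∃ G : V →L[ℂ] V, ∀ u, G u = u - κ • J.adjoint (P (J u)) :=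
    ⟨ContinuousLinearMap.id ℂ V - κ • (J.adjoint ∘L P ∘L J), fun u => by simp⟩
  have hinner : ∀ v u : V, ⟪v, G u⟫_ℂ = ⟪v, u⟫_ℂ - κ * ⟪P (J v), P (J u)⟫_ℂ := by
    intro v u
    rw [hG, inner_sub_right, inner_smul_right, ContinuousLinearMap.adjoint_inner_right]
    rw [hP, hPP]
  have hpos : (0 : ℝ) < Λ + 1 := by linarith
  have hlow : ∀ u : V, ‖u‖ ^ 2 / (Λ + 1) ≤ (⟪u, G u⟫_ℂ).re := by
    intro u
    have h1 : (⟪u, G u⟫_ℂ).re = ‖u‖ ^ 2 - Λ * ‖P (J u)‖ ^ 2 := by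
      rw [hinner, inner_self_eq_norm_sq_to_K, inner_self_eq_norm_sq_to_K]
      have h2 : (κ * ((‖P (J u)‖ : ℂ)) ^ 2).re = κ.re * ‖P (J u)‖ ^ 2 := by
        have h3 : ((‖P (J u)‖ : ℂ)) ^ 2 = ((‖P (J u)‖ ^ 2 : ℝ) : ℂ) := by push_cast; rfl
        rw [h3, Complex.re_mul_ofReal]
      have h4 : (((‖u‖ : ℂ)) ^ 2).re = ‖u‖ ^ 2 := by
        have h3 : ((‖u‖ : ℂ)) ^ 2 = ((‖u‖ ^ 2 : ℝ) : ℂ) := by push_cast; rfl
        rw [h3, Complex.ofReal_re]
      have h5 : (((‖u‖ : ℂ)) ^ 2 - κ * ((‖P (J u)‖ : ℂ)) ^ 2).re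
          = ‖u‖ ^ 2 - Λ * ‖P (J u)‖ ^ 2 := by
        rw [Complex.sub_re, h2, h4, hκ]
      exact h5
    rw [h1, div_le_iff₀ hpos]
    have h6 := hb u
    nlinarith [mul_le_mul_of_nonneg_left h6 hΛ]
  have hunit : IsUnit G := by
    refine ContinuousLinearMap.isUnit_of_forall_le_norm_inner_map G
      (c := ⟨1 / (Λ + 1), by positivity⟩) ?_ ?_
    · have h27 : (0 : ℝ) < 1 / (Λ + 1) := by positivity
      exact NNReal.coe_pos.mp h27
    · intro x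
      have h7 : ‖⟪G x, x⟫_ℂ‖ = ‖⟪x, G x⟫_ℂ‖ := norm_inner_symm _ _
      rw [h7]
      have h8 : (⟪x, G x⟫_ℂ).re ≤ ‖⟪x, G x⟫_ℂ‖ := Complex.re_le_norm _
      have h9 := hlow x
      have h10 : ‖x‖ ^ 2 * (1 / (Λ + 1)) = ‖x‖ ^ 2 / (Λ + 1) := by ring
      change ‖x‖ ^ 2 * (1 / (Λ + 1)) ≤ _
      rw [h10]
      exact h9.trans h8
  obtain ⟨U, hU⟩ := hunit
  have hright : ∀ w : V, G ((U⁻¹).val w) = w := by
    intro w
    have h11 : U.val * (U⁻¹).val = 1 := Units.mul_inv U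
    rw [← hU]
    exact congrArg (fun T : V →L[ℂ] V => T w) h11
  have hleft : ∀ w : V, (U⁻¹).val (G w) = w := by
    intro w
    have h11 : (U⁻¹).val * U.val = 1 := Units.inv_mul U
    rw [← hU]
    exact congrArg (fun T : V →L[ℂ] V => T w) h11
  generalize hR : (U⁻¹).val = R at hright hleft
  have hnorm : ∀ w : V, ‖R w‖ ≤ (Λ + 1) * ‖w‖ := by
    intro w
    have h13 := hlow (R w)
    rw [hright, div_le_iff₀ hpos] at h13
    have h14 : (⟪R w, w⟫_ℂ).re ≤ ‖R w‖ * ‖w‖ :=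
      (Complex.re_le_norm _).trans (norm_inner_le_norm _ _)
    by_cases h0 : ‖R w‖ = 0
    · rw [h0]; positivity
    · have h15 : 0 < ‖R w‖ := lt_of_le_of_ne (norm_nonneg _) (Ne.symm h0)
      have h16 : ‖R w‖ * ‖R w‖ ≤ ‖R w‖ * ((Λ + 1) * ‖w‖) := by
        have h17 := mul_le_mul_of_nonneg_right h14 hpos.le
        nlinarith [h13, h17]
      exact le_of_mul_le_mul_left h16 h15
  refine ⟨R ∘L J.adjoint, ?_, ?_, ?_, ?_⟩
  · intro f v
    have h18 := hinner v (R (J.adjoint f))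
    rw [hright, ContinuousLinearMap.adjoint_inner_right] at h18
    rw [ContinuousLinearMap.comp_apply]
    exact h18.symm
  · intro f
    rw [ContinuousLinearMap.comp_apply]
    have h19 : ‖J.adjoint f‖ ≤ ‖J‖ * ‖f‖ := by
      have h20 := (J.adjoint).le_opNorm f
      rwa [LinearIsometryEquiv.norm_map] at h20
    calc ‖R (J.adjoint f)‖ ≤ (Λ + 1) * ‖J.adjoint f‖ := hnorm _
      _ ≤ (Λ + 1) * (‖J‖ * ‖f‖) := mul_le_mul_of_nonneg_left h19 hpos.le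
      _ = (Λ + 1) * ‖J‖ * ‖f‖ := by ring
  · intro f
    rw [ContinuousLinearMap.comp_apply]
    have h21 := hG (R (J.adjoint f))
    rw [hright] at h21
    have h22 : R (J.adjoint f)
        = J.adjoint f + κ • J.adjoint (P (J (R (J.adjoint f)))) := by
      rw [eq_comm, ← eq_sub_iff_add_eq]
      exact h21
    have h23 := congrArg (fun x : V => J x) h22
    simpa only [map_add, map_smul] using h23
  · intro f
    simp only [ContinuousLinearMap.comp_apply]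
    have h24 := hleft (J.adjoint f)
    rw [hG, map_sub, map_smul] at h24
    have h25 : R (J.adjoint f)
        = J.adjoint f + κ • R (J.adjoint (P (J (J.adjoint f)))) := by
      rw [eq_comm, ← eq_sub_iff_add_eq]
      exact h24.symm
    have h26 := congrArg (fun x : V => J x) h25
    simpa only [map_add, map_smul] using h26

end Pool.Agent.Helper31_CP
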