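import Mathlib
import Pool.Agent.Helper31_CP.Defs
import Pool.Agent.Helper31_CP.A2_greedy
import Pool.Agent.Helper31_CP.A3_gap

set_option autoImplicit false

namespace Pool.Agent.Helper31_CP

open scoped InnerProductSpace

theorem A6a_spectral_split {H : Type*} [NormedAddCommGroup H] [InnerProductSpace ℂ H]
    (T : H →L[ℂ] H) (hT : ∀ x y : H, ⟪T x, y⟫_ℂ = ⟪x, T y⟫_ℂ) (a s : ℝ) (has : a ≤ s)
    {m : ℕ} (e : Fin m → H) (τ : Fin m → ℝ) (he : Orthonormal ℂ e)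
    (hTe : ∀ j, T (e j) = (τ j : ℂ) • e j)
    (hbd : ∀ x : H, (∀ j, ⟪e j, x⟫_ℂ = 0) → (⟪x, T x⟫_ℂ).re ≤ a * ‖x‖ ^ 2)
    (x : H) (hx : ∀ j, ⟪e j, x⟫_ℂ = 0 ∨ τ j ≤ s) :
    (⟪x, T x⟫_ℂ).re ≤ s * ‖x‖ ^ 2 := by
  set c : Fin m → ℂ := fun j => ⟪e j, x⟫_ℂ with hc
  set S : H := ∑ j, c j • e j with hS
  set x' : H := x - S with hx'
  have hxS : x = S + x' := by rw [hx']; abel
  have heS : ∀ j, ⟪e j, S⟫_ℂ = c j := by
    intro j
    rw [hS]
    exact he.inner_right_fintype c j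
  have hex' : ∀ j, ⟪e j, x'⟫_ℂ = 0 := by
    intro j
    rw [hx', inner_sub_right, heS j, hc]
    simp
  have hTS : T S = ∑ j, ((τ j : ℂ) * c j) • e j := by
    rw [hS, map_sum]
    apply Finset.sum_congr rfl
    intro j _
    rw [map_smul, hTe j, smul_smul, mul_comm]
  have hTSx' : ⟪T S, x'⟫_ℂ = 0 := by
    rw [hTS, sum_inner]
    apply Finset.sum_eq_zero
    intro j _
    rw [inner_smul_left, hex' j, mul_zero]
  have hx'TS : ⟪x', T S⟫_ℂ = 0 := by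
    rw [← inner_conj_symm, hTSx']
    simp
  have hSTx' : ⟪S, T x'⟫_ℂ = 0 := by
    rw [← hT S x', hTSx']
  have hSx' : ⟪S, x'⟫_ℂ = 0 := by
    rw [hS, sum_inner]
    apply Finset.sum_eq_zero
    intro j _
    rw [inner_smul_left, hex' j, mul_zero]
  have hx'S : ⟪x', S⟫_ℂ = 0 := by
    rw [← inner_conj_symm, hSx']
    simp
  have hSTS : (⟪S, T S⟫_ℂ).re = ∑ j, τ j * ‖c j‖ ^ 2 := by
    rw [hTS]
    have := he.inner_sum c (fun j => (τ j : ℂ) * c j) Finset.univ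
    rw [← hS] at this
    rw [this, Complex.re_sum]
    apply Finset.sum_congr rfl
    intro j _
    have h1 : (starRingEnd ℂ) (c j) * ((τ j : ℂ) * c j) = ((τ j * ‖c j‖ ^ 2 : ℝ) : ℂ) := by
      have h2 : (starRingEnd ℂ) (c j) * c j = ((‖c j‖ ^ 2 : ℝ) : ℂ) := by
        rw [mul_comm, Complex.mul_conj, Complex.normSq_eq_norm_sq]
      calc (starRingEnd ℂ) (c j) * ((τ j : ℂ) * c j)
          = (τ j : ℂ) * ((starRingEnd ℂ) (c j) * c j) := by ring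
        _ = _ := by rw [h2]; push_cast; ring
    rw [h1, Complex.ofReal_re]
  have hSS : (⟪S, S⟫_ℂ).re = ∑ j, ‖c j‖ ^ 2 := by
    have := he.inner_sum c c Finset.univ
    rw [← hS] at this
    rw [this, Complex.re_sum]
    apply Finset.sum_congr rfl
    intro j _
    have h2 : (starRingEnd ℂ) (c j) * c j = ((‖c j‖ ^ 2 : ℝ) : ℂ) := by
      rw [mul_comm, Complex.mul_conj, Complex.normSq_eq_norm_sq]
    rw [h2, Complex.ofReal_re]
  have hxx : ‖x‖ ^ 2 = ∑ j, ‖c j‖ ^ 2 + ‖x'‖ ^ 2 := by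
    have h1 : ‖x‖ ^ 2 = (⟪x, x⟫_ℂ).re := by
      rw [inner_self_eq_norm_sq_to_K]
      norm_cast
    have h2 : ‖x'‖ ^ 2 = (⟪x', x'⟫_ℂ).re := by
      rw [inner_self_eq_norm_sq_to_K]
      norm_cast
    rw [h1, h2, ← hSS]
    conv_lhs => rw [hxS]
    rw [inner_add_left, inner_add_right, inner_add_right, hSx', hx'S]
    simp
  have hxT : (⟪x, T x⟫_ℂ).re = ∑ j, τ j * ‖c j‖ ^ 2 + (⟪x', T x'⟫_ℂ).re := by
    rw [← hSTS]
    conv_lhs => rw [hxS]
    rw [map_add, inner_add_left, inner_add_right, inner_add_right, hSTx', hx'TS]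
    simp
  have hb := hbd x' hex'
  have hsum : ∑ j, τ j * ‖c j‖ ^ 2 ≤ s * ∑ j, ‖c j‖ ^ 2 := by
    rw [Finset.mul_sum]
    apply Finset.sum_le_sum
    intro j _
    rcases hx j with h | h
    · have : c j = 0 := h
      rw [this]
      simp
    · exact mul_le_mul_of_nonneg_right h (sq_nonneg _)
  rw [hxT, hxx]
  have h3 : a * ‖x'‖ ^ 2 ≤ s * ‖x'‖ ^ 2 := mul_le_mul_of_nonneg_right has (sq_nonneg _)
  calc ∑ j, τ j * ‖c j‖ ^ 2 + (⟪x', T x'⟫_ℂ).re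
      ≤ s * ∑ j, ‖c j‖ ^ 2 + s * ‖x'‖ ^ 2 := by linarith
    _ = s * (∑ j, ‖c j‖ ^ 2 + ‖x'‖ ^ 2) := by ring

/-- TARGET -/
theorem spectral_part {H V : Type*} [NormedAddCommGroup H] [InnerProductSpace ℂ H]
    [CompleteSpace H] [NormedAddCommGroup V] [InnerProductSpace ℂ V] [CompleteSpace V]
    (J : V →L[ℂ] H) (hJ : ∀ u, ‖J u‖ ≤ ‖u‖) (P : H →L[ℂ] H) (lam : ℝ) (hlam : 1 ≤ lam)
    (F : Submodule ℂ H) [FiniteDimensional ℂ F] (N : ℕ) (hN : Module.finrank ℂ F ≤ N)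
    (hF : ∀ u : V, (∀ f ∈ F, ⟪f, J u⟫_ℂ = 0) → (1 + 2 * lam) * ‖J u‖ ^ 2 ≤ ‖u‖ ^ 2)
    (G : Submodule ℂ V) [FiniteDimensional ℂ G]
    (hG : ∀ u ∈ G, ‖u‖ ^ 2 ≤ (1 + lam) * ‖J u‖ ^ 2)
    (ε : ℝ) (hA : ∀ (u : V) (μ : ℝ), 0 ≤ μ → μ ≤ 2 * lam →
      (∀ v, ⟪v, u⟫_ℂ = ((1 + μ : ℝ) : ℂ) * ⟪J v, J u⟫_ℂ) → ‖P (J u)‖ ≤ ε * ‖J u‖) :
    ∃ (t g : ℝ) (n : ℕ) (e : Fin n → H) (τ : Fin n → ℝ),
      1 / (8 * (1 + 2 * lam) * (N + 1)) ≤ g ∧ 1 / (1 + 2 * lam) + g ≤ t ∧ n ≤ N ∧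
      Orthonormal ℂ e ∧ (∀ j, J (J.adjoint (e j)) = (τ j : ℂ) • e j) ∧
      (∀ j, t + g ≤ τ j ∧ τ j ≤ 1) ∧
      (∀ x : H, (∀ j, ⟪e j, x⟫_ℂ = 0) → (⟪x, J (J.adjoint x)⟫_ℂ).re ≤ (t - g) * ‖x‖ ^ 2) ∧
      Module.finrank ℂ G ≤ n ∧ ∀ j, ‖P (e j)‖ ≤ ε := by
  classical
  set T : H →L[ℂ] H := J ∘L J.adjoint with hTdef
  have hTa : ∀ x, T x = J (J.adjoint x) := fun x => rfl
  have hT : ∀ x y : H, ⟪T x, y⟫_ℂ = ⟪x, T y⟫_ℂ := by
    intro x y
    rw [hTa, hTa]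
    exact (ContinuousLinearMap.adjoint_inner_right J _ _).symm.trans
      (ContinuousLinearMap.adjoint_inner_left J _ _)
  have hq : ∀ x : H, (⟪x, T x⟫_ℂ).re = ‖J.adjoint x‖ ^ 2 := by
    intro x
    rw [hTa, ← ContinuousLinearMap.adjoint_inner_left, inner_self_eq_norm_sq_to_K]
    norm_cast
  have hCS : ∀ x : H, ‖J.adjoint x‖ ^ 2 ≤ ‖x‖ * ‖T x‖ := by
    intro x
    rw [← hq x]
    exact (Complex.re_le_norm _).trans (norm_inner_le_norm x (T x))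
  have hadj : ∀ x : H, ‖J.adjoint x‖ ≤ ‖x‖ := by
    intro x
    have h1 := hCS x
    have h2 : ‖T x‖ ≤ ‖J.adjoint x‖ := by rw [hTa]; exact hJ _
    have h3 : ‖x‖ * ‖T x‖ ≤ ‖x‖ * ‖J.adjoint x‖ :=
      mul_le_mul_of_nonneg_left h2 (norm_nonneg _)
    by_contra hne
    push Not at hne
    have h4 : 0 < ‖J.adjoint x‖ := (norm_nonneg x).trans_lt hne
    nlinarith
  have hlam0 : 0 < 1 + 2 * lam := by linarith
  have hlam1 : 0 < 1 + lam := by linarith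
  set a : ℝ := 1 / (1 + 2 * lam) with ha
  set b : ℝ := 1 / (1 + lam) with hb
  have ha0 : 0 < a := by positivity
  have hdiff : 1 / (2 * (1 + 2 * lam)) ≤ b - a := by
    rw [ha, hb]
    rw [div_sub_div _ _ hlam1.ne' hlam0.ne', div_le_div_iff₀ (by positivity) (by positivity)]
    nlinarith
  have hab : a < b := by
    have : 0 < 1 / (2 * (1 + 2 * lam)) := by positivity
    linarith
  have hF' : ∀ x : H, (∀ f ∈ F.map (T : H →ₗ[ℂ] H), ⟪f, x⟫_ℂ = 0) →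
      (⟪x, T x⟫_ℂ).re ≤ a * ‖x‖ ^ 2 := by
    intro x hx
    have h1 : ∀ f ∈ F, ⟪f, J (J.adjoint x)⟫_ℂ = 0 := by
      intro f hf
      rw [← hTa, ← hT]
      exact hx _ (Submodule.mem_map_of_mem hf)
    have h2 := hF (J.adjoint x) h1
    rw [← hTa] at h2
    rw [hq x]
    have h3 := hCS x
    set q : ℝ := ‖J.adjoint x‖ ^ 2 with hqdef
    have hq0 : 0 ≤ q := by positivity
    have h4 : ‖T x‖ ^ 2 ≤ a * q := by
      rw [ha, one_div, inv_mul_eq_div, le_div_iff₀ hlam0]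
      linarith
    have h5 : q ^ 2 ≤ (a * ‖x‖ ^ 2) * q := by
      calc q ^ 2 ≤ (‖x‖ * ‖T x‖) ^ 2 := by gcongr
        _ = ‖x‖ ^ 2 * ‖T x‖ ^ 2 := by ring
        _ ≤ ‖x‖ ^ 2 * (a * q) := by gcongr
        _ = _ := by ring
    rcases hq0.eq_or_lt with h | h
    · rw [← h]; positivity
    · by_contra hne
      push Not at hne
      nlinarith
  obtain ⟨n', e', τ', hn', he', hTe', hτ', hbd'⟩ := greedy T hT (F.map (T : H →ₗ[ℂ] H)) a hF'
  have hn'N : n' ≤ N := by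
    have : Module.finrank ℂ (F.map (T : H →ₗ[ℂ] H)) ≤ Module.finrank ℂ F :=
      Submodule.finrank_map_le _ _
    omega
  obtain ⟨t, g, hg, hat, htb, hgap⟩ := gap hn'N τ' a b hab
  have hNp : (0 : ℝ) < (N : ℝ) + 1 := by positivity
  have hglow : 1 / (8 * (1 + 2 * lam) * ((N : ℝ) + 1)) ≤ g := by
    rw [hg]
    have h1 : 1 / (8 * (1 + 2 * lam) * ((N : ℝ) + 1)) ≤
        (1 / (2 * (1 + 2 * lam))) / (2 * ((N : ℝ) + 1)) := by
      rw [div_div, div_le_div_iff₀ (by positivity) (by positivity)]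
      have : 0 < (1 + 2 * lam) * ((N : ℝ) + 1) := by positivity
      nlinarith
    refine h1.trans ?_
    gcongr
  have hg0 : 0 < g := by
    refine lt_of_lt_of_le ?_ hglow
    positivity
  set I : Finset (Fin n') := Finset.univ.filter (fun j => t + g ≤ τ' j) with hI
  let em : Fin I.card ≃ I := I.equivFin.symm
  have hem : ∀ j, t + g ≤ τ' (em j) := by
    intro j
    exact (Finset.mem_filter.1 (em j).2).2
  have hτ1 : ∀ j, τ' j ≤ 1 := by
    intro j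
    have h1 := hq (e' j)
    have h2 : (⟪e' j, T (e' j)⟫_ℂ).re = τ' j := by
      rw [hTe' j, inner_smul_right, inner_self_eq_norm_sq_to_K, he'.1 j]
      simp
    have h3 := hadj (e' j)
    rw [he'.1 j] at h3
    have h4 : 0 ≤ ‖J.adjoint (e' j)‖ := norm_nonneg _
    rw [h2] at h1
    rw [h1]
    nlinarith
  have hcomp : ∀ x : H, (∀ j, ⟪e' (em j), x⟫_ℂ = 0) →
      (⟪x, T x⟫_ℂ).re ≤ (t - g) * ‖x‖ ^ 2 := by
    intro x hx
    apply A6a_spectral_split T hT a (t - g) (by linarith) e' τ' he' hTe' hbd' x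
    intro j
    rcases hgap j with h | h
    · exact Or.inr h
    · left
      have hj : j ∈ I := by
        rw [hI, Finset.mem_filter]
        exact ⟨Finset.mem_univ _, h⟩
      have := hx (em.symm ⟨j, hj⟩)
      simpa using this
  refine ⟨t, g, I.card, fun j => e' (em j), fun j => τ' (em j), hglow, hat, ?_, ?_, ?_, ?_, ?_, ?_, ?_⟩
  · have h1 := Finset.card_le_univ I
    rw [Fintype.card_fin] at h1
    omega
  · exact he'.comp (fun j => (em j : Fin n')) (Subtype.val_injective.comp em.injective)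
  · intro j
    exact hTe' (em j)
  · intro j
    exact ⟨hem j, hτ1 _⟩
  · exact hcomp
  · by_contra hne
    push Not at hne
    let L : G →ₗ[ℂ] (Fin I.card → ℂ) :=
      LinearMap.pi (fun j => ((innerSL ℂ (e' (em j))) : H →ₗ[ℂ] ℂ) ∘ₗ (J : V →ₗ[ℂ] H) ∘ₗ G.subtype)
    have hker : LinearMap.ker L ≠ ⊥ := by
      apply LinearMap.ker_ne_bot_of_finrank_lt
      rw [Module.finrank_fin_fun]
      exact hne
    obtain ⟨u, hu, hu0⟩ := (Submodule.ne_bot_iff _).1 hker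
    have hLu : ∀ j, ⟪e' (em j), J (u : V)⟫_ℂ = 0 := by
      intro j
      have h1 : L u = 0 := hu
      have h2 := congrFun h1 j
      exact h2
    have h1 := hcomp (J (u : V)) hLu
    rw [hq] at h1
    have h2 := hG (u : V) u.2
    have hune : 0 < ‖(u : V)‖ := by
      rw [norm_pos_iff]
      intro h
      apply hu0
      exact Subtype.ext h
    set f : H := J (u : V) with hf
    have hf0 : 0 < ‖f‖ ^ 2 := by
      by_contra hle
      push Not at hle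
      have h3 : (1 + lam) * ‖f‖ ^ 2 ≤ 0 := mul_nonpos_of_nonneg_of_nonpos hlam1.le hle
      nlinarith
    have h3 : ‖f‖ ^ 2 ≤ ‖J.adjoint f‖ * ‖(u : V)‖ := by
      have h4 : ‖f‖ ^ 2 = (⟪J.adjoint f, (u : V)⟫_ℂ).re := by
        rw [ContinuousLinearMap.adjoint_inner_left, ← hf, inner_self_eq_norm_sq_to_K]
        norm_cast
      rw [h4]
      exact (Complex.re_le_norm _).trans (norm_inner_le_norm _ _)
    have h4 : (‖f‖ ^ 2) ^ 2 ≤ ‖J.adjoint f‖ ^ 2 * ((1 + lam) * ‖f‖ ^ 2) := by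
      calc (‖f‖ ^ 2) ^ 2 ≤ (‖J.adjoint f‖ * ‖(u : V)‖) ^ 2 := by gcongr
        _ = ‖J.adjoint f‖ ^ 2 * ‖(u : V)‖ ^ 2 := by ring
        _ ≤ _ := by gcongr
    have h5 : ‖f‖ ^ 2 ≤ ‖J.adjoint f‖ ^ 2 * (1 + lam) := by
      by_contra hle
      push Not at hle
      nlinarith
    have h6 : b * ‖f‖ ^ 2 ≤ ‖J.adjoint f‖ ^ 2 := by
      rw [hb, one_div, inv_mul_eq_div, div_le_iff₀ hlam1]
      exact h5
    have h7 : (t - g) * ‖f‖ ^ 2 < b * ‖f‖ ^ 2 := by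
      apply mul_lt_mul_of_pos_right _ hf0
      linarith
    linarith
  · intro j
    set τ : ℝ := τ' (em j) with hτdef
    have hτlow : a < τ := by
      have := hem j
      linarith
    have hτ0 : 0 < τ := ha0.trans hτlow
    have hτc : (τ : ℂ) ≠ 0 := by
      exact_mod_cast hτ0.ne'
    set u : V := ((τ : ℂ)⁻¹) • J.adjoint (e' (em j)) with hu
    have hJu : J u = e' (em j) := by
      rw [hu, map_smul, ← hTa, hTe' (em j), smul_smul, inv_mul_cancel₀ hτc, one_smul]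
    have hμ0 : 0 ≤ 1 / τ - 1 := by
      have : 1 ≤ 1 / τ := by
        rw [le_div_iff₀ hτ0]
        have := hτ1 (em j)
        linarith
      linarith
    have hμ1 : 1 / τ - 1 ≤ 2 * lam := by
      have : 1 / τ ≤ 1 + 2 * lam := by
        rw [div_le_iff₀ hτ0]
        have h1 : a * (1 + 2 * lam) = 1 := by
          rw [ha]; field_simp
        nlinarith
      linarith
    have h := hA u (1 / τ - 1) hμ0 hμ1 (by
      intro v
      rw [hJu, hu, inner_smul_right, ContinuousLinearMap.adjoint_inner_right]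
      congr 1
      push_cast
      rw [one_div]
      ring)
    rw [hJu, he'.1 (em j), mul_one] at h
    exact h

end Pool.Agent.Helper31_CP
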