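import Mathlib
import Pool.Agent.Helper31_CP.Defs

set_option autoImplicit false

namespace Pool.Agent.Helper31_CP

open scoped InnerProductSpace

theorem A6b_matrix_gersh {n : ℕ} (τ : Fin n → ℝ) (Z : Matrix (Fin n) (Fin n) ℂ) (δ : ℝ)
    (hZ : ∀ k j, ‖Z k j‖ ≤ 2 * δ) (ρ : ℂ) (v : Fin n → ℂ) (hv : v ≠ 0)
    (h : (Matrix.diagonal (fun j => (τ j : ℂ)) + Z).mulVec v = ρ • v) :
    ∃ k, ‖ρ - (τ k : ℂ)‖ ≤ 2 * n * δ := by
  classical
  have hne : Nonempty (Fin n) := by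
    by_contra hc
    rw [not_nonempty_iff] at hc
    exact hv (funext fun x => (hc.false x).elim)
  obtain ⟨k, -, hk⟩ := Finset.exists_max_image Finset.univ (fun j => ‖v j‖)
    (Finset.univ_nonempty (α := Fin n))
  have hpos : 0 < ‖v k‖ := by
    by_contra hc
    apply hv
    funext j
    have h1 := hk j (Finset.mem_univ j)
    have h2 : ‖v j‖ ≤ 0 := le_trans h1 (not_lt.1 hc)
    simpa using h2
  refine ⟨k, ?_⟩
  have h1 := congrFun h k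
  rw [Matrix.add_mulVec, Pi.add_apply, Matrix.mulVec_diagonal, Pi.smul_apply, smul_eq_mul] at h1
  have h2 : (ρ - (τ k : ℂ)) * v k = ∑ j, Z k j * v j := by
    have h3 : (Z.mulVec v) k = ∑ j, Z k j * v j := rfl
    rw [← h3, sub_mul, ← h1]
    ring
  have h4 : ‖ρ - (τ k : ℂ)‖ * ‖v k‖ ≤ (2 * n * δ) * ‖v k‖ := by
    rw [← norm_mul, h2]
    calc ‖∑ j, Z k j * v j‖ ≤ ∑ j, ‖Z k j * v j‖ := norm_sum_le _ _
      _ ≤ ∑ _j : Fin n, (2 * δ) * ‖v k‖ := by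
          apply Finset.sum_le_sum
          intro j _
          rw [norm_mul]
          have h5 : 0 ≤ 2 * δ := le_trans (norm_nonneg _) (hZ k j)
          exact mul_le_mul (hZ k j) (hk j (Finset.mem_univ j)) (norm_nonneg _) h5
      _ = (2 * n * δ) * ‖v k‖ := by
          rw [Finset.sum_const, Finset.card_univ, Fintype.card_fin, nsmul_eq_mul]
          ring
  exact le_of_mul_le_mul_right h4 hpos

/-- TARGET -/
theorem matrix_part {n : ℕ} (τ : Fin n → ℝ) (Z : Matrix (Fin n) (Fin n) ℂ) (a δ : ℝ)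
    (ha : 0 < a) (ha1 : a ≤ 1) (hτ : ∀ j, a ≤ τ j) (hZ : ∀ k j, ‖Z k j‖ ≤ 2 * δ)
    (hδ : 8 * n * δ ≤ a ^ 2) :
    ∃ B : Matrix (Fin n) (Fin n) ℂ,
      (Matrix.diagonal (fun j => (τ j : ℂ)) + Z) * B = 1 ∧
      B * (Matrix.diagonal (fun j => (τ j : ℂ)) + Z) = 1 ∧
      ∀ E : ℂ, B.charpoly.IsRoot E → ∃ k, ‖E - ((1 / τ k : ℝ) : ℂ)‖ ≤ 1 / 2 := by
  classical
  have haa : a ^ 2 ≤ a := by nlinarith
  have h8 : 2 * (n : ℝ) * δ ≤ a ^ 2 / 4 := by nlinarith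
  set Y : Matrix (Fin n) (Fin n) ℂ := Matrix.diagonal (fun j => (τ j : ℂ)) + Z with hY
  have hdet : Y.det ≠ 0 := by
    intro h0
    obtain ⟨v, hv, hv0⟩ := Matrix.exists_mulVec_eq_zero_iff.2 h0
    obtain ⟨k, hk⟩ := A6b_matrix_gersh τ Z δ hZ 0 v hv (by rw [← hY, hv0, zero_smul])
    rw [zero_sub, norm_neg, Complex.norm_real, Real.norm_eq_abs] at hk
    have h1 := hτ k
    have h2 := le_abs_self (τ k)
    nlinarith
  have hu : IsUnit Y.det := isUnit_iff_ne_zero.2 hdet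
  refine ⟨Y⁻¹, Matrix.mul_nonsing_inv Y hu, Matrix.nonsing_inv_mul Y hu, ?_⟩
  intro E hE
  have h1 : (Matrix.scalar (Fin n) E - Y⁻¹).det = 0 := by
    rw [← Matrix.eval_charpoly]
    exact hE
  obtain ⟨v, hv, hv0⟩ := Matrix.exists_mulVec_eq_zero_iff.2 h1
  have h2 : Y⁻¹.mulVec v = E • v := by
    rw [Matrix.sub_mulVec, sub_eq_zero] at hv0
    rw [← hv0, Matrix.scalar_apply]
    funext j
    rw [Matrix.mulVec_diagonal]
    rfl
  have h3 : v = E • Y.mulVec v := by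
    rw [← Matrix.mulVec_smul, ← h2, Matrix.mulVec_mulVec, Matrix.mul_nonsing_inv Y hu,
      Matrix.one_mulVec]
  have hE0 : E ≠ 0 := by
    intro h0
    rw [h0, zero_smul] at h3
    exact hv h3
  have h4 : Y.mulVec v = E⁻¹ • v := by
    have h5 : E⁻¹ • v = E⁻¹ • (E • Y.mulVec v) := by rw [← h3]
    rw [h5, smul_smul, inv_mul_cancel₀ hE0, one_smul]
  obtain ⟨k, hk⟩ := A6b_matrix_gersh τ Z δ hZ E⁻¹ v hv h4
  refine ⟨k, ?_⟩
  have hτk := hτ k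
  have hτ0 : 0 < τ k := lt_of_lt_of_le ha hτk
  have hk4 : ‖E⁻¹ - (τ k : ℂ)‖ ≤ a ^ 2 / 4 := le_trans hk h8
  have hx : a / 2 ≤ ‖E⁻¹‖ := by
    have h6 : ‖(τ k : ℂ)‖ ≤ ‖E⁻¹‖ + ‖E⁻¹ - (τ k : ℂ)‖ := by
      have h7 := norm_sub_le (E⁻¹) (E⁻¹ - (τ k : ℂ))
      rwa [sub_sub_cancel] at h7
    rw [Complex.norm_real, Real.norm_eq_abs, abs_of_pos hτ0] at h6
    nlinarith
  have hτc : (τ k : ℂ) ≠ 0 := by exact_mod_cast hτ0.ne'
  have h9 : E - ((1 / τ k : ℝ) : ℂ) = ((τ k : ℂ) - E⁻¹) / (E⁻¹ * (τ k : ℂ)) := by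
    push_cast
    field_simp
  rw [h9, norm_div, norm_mul, Complex.norm_real, Real.norm_eq_abs, abs_of_pos hτ0, norm_sub_rev]
  have hpos : 0 < ‖E⁻¹‖ * τ k := by
    have : 0 < ‖E⁻¹‖ := lt_of_lt_of_le (by positivity) hx
    positivity
  rw [div_le_iff₀ hpos]
  have h10 : a / 2 * a ≤ ‖E⁻¹‖ * τ k := mul_le_mul hx hτk ha.le (le_trans (by positivity) hx)
  nlinarith

end Pool.Agent.Helper31_CP
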