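import Mathlib
import Pool.Agent.Helper31_CP.Defs
import Pool.Agent.Helper31_CP.A4_riccati
import Pool.Agent.Helper31_CP.A5_resolvent
import Pool.Agent.Helper31_CP.A6b_matrix

set_option autoImplicit false

namespace Pool.Agent.Helper31_CP

open scoped InnerProductSpace

section J_A6c_invariant

open Complex

theorem A6c_invariant_adj {H V : Type*} [NormedAddCommGroup H] [InnerProductSpace ℂ H]
    [CompleteSpace H] [NormedAddCommGroup V] [InnerProductSpace ℂ V] [CompleteSpace V]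
    (J : V →L[ℂ] H) (x y : H) :
    ⟪x, J (J.adjoint y)⟫_ℂ = ⟪J.adjoint x, J.adjoint y⟫_ℂ := by
  rw [← ContinuousLinearMap.adjoint_inner_left]

theorem A6c_invariant_self {H V : Type*} [NormedAddCommGroup H] [InnerProductSpace ℂ H]
    [CompleteSpace H] [NormedAddCommGroup V] [InnerProductSpace ℂ V] [CompleteSpace V]
    (J : V →L[ℂ] H) (x : H) :
    ⟪x, J (J.adjoint x)⟫_ℂ = ((‖J.adjoint x‖ ^ 2 : ℝ) : ℂ) := by
  rw [A6c_invariant_adj, inner_self_eq_norm_sq_to_K]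
  simp

theorem A6c_invariant_symm {H V : Type*} [NormedAddCommGroup H] [InnerProductSpace ℂ H]
    [CompleteSpace H] [NormedAddCommGroup V] [InnerProductSpace ℂ V] [CompleteSpace V]
    (J : V →L[ℂ] H) (x y : H) :
    ⟪x, J (J.adjoint y)⟫_ℂ = ⟪J (J.adjoint x), y⟫_ℂ := by
  rw [A6c_invariant_adj, ContinuousLinearMap.adjoint_inner_right]

theorem A6c_invariant_kappa (Λ : ℝ) (hΛ : 0 ≤ Λ) : ‖(Λ : ℂ) + I‖ ≤ Λ + 1 := by
  calc ‖(Λ : ℂ) + I‖ ≤ ‖(Λ : ℂ)‖ + ‖(I : ℂ)‖ := norm_add_le _ _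
    _ = Λ + 1 := by rw [Complex.norm_real, Complex.norm_I, Real.norm_of_nonneg hΛ]

theorem A6c_invariant_h3 {H V : Type*} [NormedAddCommGroup H] [InnerProductSpace ℂ H]
    [CompleteSpace H] [NormedAddCommGroup V] [InnerProductSpace ℂ V] [CompleteSpace V]
    (J : V →L[ℂ] H) (P : H →L[ℂ] H)
    (hP : ∀ x y : H, ⟪P x, y⟫_ℂ = ⟪x, P y⟫_ℂ) (hPP : ∀ x, P (P x) = P x)
    (Λ : ℝ) (hΛ : 0 ≤ Λ) (x v : H)
    (hv : v = J (J.adjoint x) + ((Λ : ℂ) + I) • J (J.adjoint (P v)))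
    (t g τ : ℝ) (h1 : (⟪x, J (J.adjoint x)⟫_ℂ).re ≤ (t - g) * ‖x‖ ^ 2) (h2 : t + g ≤ τ) :
    2 * g * ‖x‖ ^ 2 ≤ (Λ + 1) * ‖⟪x, v - (τ : ℂ) • x⟫_ℂ‖ := by
  set κ : ℂ := (Λ : ℂ) + I with hκ
  have hTx : J (J.adjoint x) = v - κ • J (J.adjoint (P v)) := by
    rw [eq_sub_iff_add_eq]; exact hv.symm
  have e1 : ⟪x, v⟫_ℂ = ((‖J.adjoint x‖ ^ 2 : ℝ) : ℂ) + κ * ⟪J (J.adjoint x), P v⟫_ℂ := by
    conv_lhs => rw [hv]
    rw [inner_add_right, inner_smul_right, A6c_invariant_self, A6c_invariant_symm]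
  have e2 : ⟪v, P v⟫_ℂ = ((‖P v‖ ^ 2 : ℝ) : ℂ) := by
    have : ⟪v, P v⟫_ℂ = ⟪P v, P v⟫_ℂ := by
      rw [hP v (P v), hPP]
    rw [this, inner_self_eq_norm_sq_to_K]; simp
  have e3 : ⟪J (J.adjoint x), P v⟫_ℂ = ((‖P v‖ ^ 2 : ℝ) : ℂ)
      - (starRingEnd ℂ) κ * ((‖J.adjoint (P v)‖ ^ 2 : ℝ) : ℂ) := by
    rw [hTx, inner_sub_left, inner_smul_left, e2, ← A6c_invariant_symm, A6c_invariant_self]
  have e4 : ⟪x, v - (τ : ℂ) • x⟫_ℂ = ((‖J.adjoint x‖ ^ 2 : ℝ) : ℂ)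
      + κ * (((‖P v‖ ^ 2 : ℝ) : ℂ)
      - (starRingEnd ℂ) κ * ((‖J.adjoint (P v)‖ ^ 2 : ℝ) : ℂ)) - ((τ * ‖x‖ ^ 2 : ℝ) : ℂ) := by
    rw [inner_sub_right, inner_smul_right, e1, e3, inner_self_eq_norm_sq_to_K]
    push_cast
    rfl
  set w0 := ⟪x, v - (τ : ℂ) • x⟫_ℂ with hw0
  have hre : w0.re = ‖J.adjoint x‖ ^ 2 + Λ * ‖P v‖ ^ 2
      - (Λ ^ 2 + 1) * ‖J.adjoint (P v)‖ ^ 2 - τ * ‖x‖ ^ 2 := by
    rw [e4, hκ]
    simp only [Complex.add_re, Complex.sub_re, Complex.mul_re, Complex.mul_im, Complex.ofReal_re,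
      Complex.ofReal_im, Complex.I_re, Complex.I_im, Complex.add_im, Complex.sub_im,
      Complex.conj_re, Complex.conj_im]
    ring
  have him : w0.im = ‖P v‖ ^ 2 := by
    rw [e4, hκ]
    simp only [Complex.add_re, Complex.sub_re, Complex.mul_re, Complex.mul_im, Complex.ofReal_re,
      Complex.ofReal_im, Complex.I_re, Complex.I_im, Complex.add_im, Complex.sub_im,
      Complex.conj_re, Complex.conj_im]
    ring
  have h1' : ‖J.adjoint x‖ ^ 2 ≤ (t - g) * ‖x‖ ^ 2 := by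
    rw [A6c_invariant_self] at h1
    exact h1
  have hkey : w0.re - Λ * w0.im ≤ - (2 * g * ‖x‖ ^ 2) := by
    rw [hre, him]
    have : 0 ≤ (Λ ^ 2 + 1) * ‖J.adjoint (P v)‖ ^ 2 := by positivity
    nlinarith [mul_nonneg (sub_nonneg.mpr h2) (sq_nonneg ‖x‖)]
  have hn1 : |w0.re| ≤ ‖w0‖ := Complex.abs_re_le_norm w0
  have hn2 : |w0.im| ≤ ‖w0‖ := Complex.abs_im_le_norm w0
  have hn3 := neg_abs_le w0.re
  have hn4 := le_abs_self w0.im
  nlinarith [mul_le_mul_of_nonneg_left (hn4.trans hn2) hΛ]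

end J_A6c_invariant

/-- TARGET -/
theorem invariant_part {H V : Type*} [NormedAddCommGroup H] [InnerProductSpace ℂ H]
    [CompleteSpace H] [NormedAddCommGroup V] [InnerProductSpace ℂ V] [CompleteSpace V]
    (J : V →L[ℂ] H) (hJ : ∀ u, ‖J u‖ ≤ ‖u‖) (P : H →L[ℂ] H)
    (hP : ∀ x y : H, ⟪P x, y⟫_ℂ = ⟪x, P y⟫_ℂ) (hPP : ∀ x, P (P x) = P x)
    (Λ : ℝ) (hΛ : 0 ≤ Λ) (hb : ∀ u : V, (Λ + 1) * ‖P (J u)‖ ^ 2 ≤ ‖u‖ ^ 2)
    (lam : ℝ) (hlam : 1 ≤ lam) (N : ℕ) (ε : ℝ) (hε : 0 ≤ ε)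
    (hsmall : 48 * (N + 1) ^ 2 * (Λ + 1) ^ 3 * (1 + 2 * lam) ^ 2 * ε ≤ 1)
    (t g : ℝ) (n : ℕ) (e : Fin n → H) (τ : Fin n → ℝ)
    (hg : 1 / (8 * (1 + 2 * lam) * (N + 1)) ≤ g) (ht : 1 / (1 + 2 * lam) + g ≤ t) (hn : n ≤ N)
    (he : Orthonormal ℂ e) (hT : ∀ j, J (J.adjoint (e j)) = (τ j : ℂ) • e j)
    (hτ : ∀ j, t + g ≤ τ j ∧ τ j ≤ 1)
    (hperp : ∀ x : H, (∀ j, ⟪e j, x⟫_ℂ = 0) → (⟪x, J (J.adjoint x)⟫_ℂ).re ≤ (t - g) * ‖x‖ ^ 2)
    (hPe : ∀ j, ‖P (e j)‖ ≤ ε) :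
    ∃ (u : Fin n → V) (A : Matrix (Fin n) (Fin n) ℂ),
      LinearIndependent ℂ (fun j => J (u j)) ∧
      (∀ j v, ⟪v, u j⟫_ℂ - ((Λ : ℂ) + Complex.I) * ⟪P (J v), P (J (u j))⟫_ℂ
          - (1 - Complex.I) * ⟪J v, J (u j)⟫_ℂ = ⟪J v, ∑ k, A k j • J (u k)⟫_ℂ) ∧
      ∀ E : ℂ, A.charpoly.IsRoot E → 1 / 2 ≤ E.im ∧ ‖E‖ ≤ 2 * lam + 3 := by
  set κ : ℂ := (Λ : ℂ) + Complex.I with hκdef
  have hκre : κ.re = Λ := by simp [hκdef]
  have hκn : ‖κ‖ ≤ Λ + 1 := A6c_invariant_kappa Λ hΛ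
  obtain ⟨S, S1, S2, S3, S4⟩ := resolvent J P hP hPP Λ hΛ hb κ hκre
  have hL1 : 0 < Λ + 1 := by linarith
  have hlam0 : 0 < 1 + 2 * lam := by linarith
  have hN0 : (0 : ℝ) < (N : ℝ) + 1 := by positivity
  have hnN : (n : ℝ) ≤ N := by exact_mod_cast hn
  have hn0 : (0 : ℝ) ≤ n := by positivity
  have hg0 : 0 < g := lt_of_lt_of_le (by positivity) hg
  have ha0 : 0 < 1 / (1 + 2 * lam) := by positivity
  have hJn : ‖J‖ ≤ 1 := J.opNorm_le_bound zero_le_one (fun u => by simpa using hJ u)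
  have hτ0 : ∀ j, 0 < τ j := fun j => by have := (hτ j).1; linarith
  set R : H →L[ℂ] H := J.comp S with hR
  have hRn : ∀ f, ‖R f‖ ≤ (Λ + 1) * ‖f‖ := fun f => by
    calc ‖R f‖ = ‖J (S f)‖ := rfl
      _ ≤ ‖S f‖ := hJ _
      _ ≤ (Λ + 1) * ‖J‖ * ‖f‖ := S2 f
      _ ≤ (Λ + 1) * 1 * ‖f‖ := by gcongr
      _ = (Λ + 1) * ‖f‖ := by ring
  set δ : ℝ := (Λ + 1) ^ 2 * ε with hδdef
  have hδ0 : 0 ≤ δ := by positivity
  set c : ℝ := 2 * g / (Λ + 1) with hcdef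
  have hc0 : 0 < c := by positivity
  have hsm : 6 * ((n : ℝ) + 1) * δ ≤ c := by
    rw [hcdef, le_div_iff₀ hL1]
    have h1 : 1 / (8 * (1 + 2 * lam) * (N + 1)) * (8 * (1 + 2 * lam) * (N + 1)) = 1 := by
      field_simp
    have h2 : 1 ≤ g * (8 * (1 + 2 * lam) * (N + 1)) := by
      calc (1 : ℝ) = 1 / (8 * (1 + 2 * lam) * (N + 1)) * (8 * (1 + 2 * lam) * (N + 1)) := h1.symm
        _ ≤ g * (8 * (1 + 2 * lam) * (N + 1)) := by gcongr
    have h3 : 48 * ((N : ℝ) + 1) ^ 2 * (Λ + 1) ^ 3 * (1 + 2 * lam) * ε ≤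
        48 * ((N : ℝ) + 1) ^ 2 * (Λ + 1) ^ 3 * (1 + 2 * lam) ^ 2 * ε := by
      have : (1 + 2 * lam) ≤ (1 + 2 * lam) ^ 2 := by nlinarith
      gcongr
    have h4 : 48 * ((N : ℝ) + 1) ^ 2 * (Λ + 1) ^ 3 * (1 + 2 * lam) * ε ≤
        g * (8 * (1 + 2 * lam) * (N + 1)) := by linarith
    have h5 : 6 * ((N : ℝ) + 1) * (Λ + 1) ^ 3 * ε ≤ g := by
      have h6 : 0 < 8 * (1 + 2 * lam) * ((N : ℝ) + 1) := by positivity
      refine le_of_mul_le_mul_right ?_ h6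
      calc 6 * ((N : ℝ) + 1) * (Λ + 1) ^ 3 * ε * (8 * (1 + 2 * lam) * ((N : ℝ) + 1))
          = 48 * ((N : ℝ) + 1) ^ 2 * (Λ + 1) ^ 3 * (1 + 2 * lam) * ε := by ring
        _ ≤ _ := h4
    calc 6 * ((n : ℝ) + 1) * δ * (Λ + 1) = 6 * ((n : ℝ) + 1) * (Λ + 1) ^ 3 * ε := by
          rw [hδdef]; ring
      _ ≤ 6 * ((N : ℝ) + 1) * (Λ + 1) ^ 3 * ε := by gcongr
      _ ≤ g := h5
      _ ≤ 2 * g := by linarith
  have hTsym : ∀ j (x : H), ⟪e j, J (J.adjoint x)⟫_ℂ = (τ j : ℂ) * ⟪e j, x⟫_ℂ := by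
    intro j x
    rw [A6c_invariant_symm, hT, inner_smul_left, Complex.conj_ofReal]
  have H1 : ∀ j, ‖R (e j) - (τ j : ℂ) • e j‖ ≤ δ := by
    intro j
    have h4 := S4 (e j)
    rw [hT j] at h4
    have h5 : R (e j) - (τ j : ℂ) • e j = κ • ((τ j : ℂ) • R (P (e j))) := by
      change J (S (e j)) - _ = κ • ((τ j : ℂ) • J (S (P (e j))))
      rw [h4]
      simp only [map_smul]
      abel
    rw [h5, norm_smul, norm_smul, Complex.norm_real, Real.norm_of_nonneg (hτ0 j).le]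
    calc ‖κ‖ * (τ j * ‖R (P (e j))‖) ≤ (Λ + 1) * (1 * ((Λ + 1) * ε)) := by
          have := hRn (P (e j))
          have h6 : ‖R (P (e j))‖ ≤ (Λ + 1) * ε :=
            this.trans (by have := hPe j; gcongr)
          have h7 := (hτ j).2
          have h8 := (hτ0 j).le
          gcongr
      _ = δ := by rw [hδdef]; ring
  have H2 : ∀ j, ∀ x : H, (∀ k, ⟪e k, x⟫_ℂ = 0) → ‖⟪e j, R x⟫_ℂ‖ ≤ δ * ‖x‖ := by
    intro j x hx
    have h3 : R x = J (J.adjoint x) + κ • J (J.adjoint (P (R x))) := S3 x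
    have h5 : ⟪e j, R x⟫_ℂ = κ * ((τ j : ℂ) * ⟪P (e j), R x⟫_ℂ) := by
      conv_lhs => rw [h3]
      rw [inner_add_right, inner_smul_right, hTsym, hTsym, hx j, hP]
      ring
    rw [h5, norm_mul, norm_mul, Complex.norm_real, Real.norm_of_nonneg (hτ0 j).le]
    calc ‖κ‖ * (τ j * ‖⟪P (e j), R x⟫_ℂ‖) ≤ (Λ + 1) * (1 * (ε * ((Λ + 1) * ‖x‖))) := by
          have h6 : ‖⟪P (e j), R x⟫_ℂ‖ ≤ ε * ((Λ + 1) * ‖x‖) := by
            refine (norm_inner_le_norm _ _).trans ?_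
            have := hPe j
            have := hRn x
            gcongr
          have h7 := (hτ j).2
          have h8 := (hτ0 j).le
          gcongr
      _ = δ * ‖x‖ := by rw [hδdef]; ring
  have H3 : ∀ j, ∀ x : H, (∀ k, ⟪e k, x⟫_ℂ = 0) →
      c * ‖x‖ ^ 2 ≤ ‖⟪x, R x - (τ j : ℂ) • x⟫_ℂ‖ := by
    intro j x hx
    have h3 : R x = J (J.adjoint x) + κ • J (J.adjoint (P (R x))) := S3 x
    have := A6c_invariant_h3 J P hP hPP Λ hΛ x (R x) h3 t g (τ j) (hperp x hx) (hτ j).1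
    rw [hcdef, div_mul_eq_mul_div, div_le_iff₀ hL1]
    linarith
  obtain ⟨w, Z, hw, hZ, hZn⟩ := riccati R e he τ c δ hc0 hδ0 hsm H1 H2 H3
  have ha1 : 1 / (1 + 2 * lam) ≤ 1 := by
    rw [div_le_one hlam0]; linarith
  have hδ8 : 8 * (n : ℝ) * δ ≤ (1 / (1 + 2 * lam)) ^ 2 := by
    rw [div_pow, one_pow, le_div_iff₀ (by positivity)]
    calc 8 * (n : ℝ) * δ * (1 + 2 * lam) ^ 2
        = 8 * (n : ℝ) * (Λ + 1) ^ 2 * (1 + 2 * lam) ^ 2 * ε := by rw [hδdef]; ring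
      _ ≤ 48 * (N + 1) ^ 2 * (Λ + 1) ^ 3 * (1 + 2 * lam) ^ 2 * ε := by
          have h1 : (n : ℝ) ≤ ((N : ℝ) + 1) ^ 2 := by nlinarith
          have h2 : (Λ + 1) ^ 2 ≤ (Λ + 1) ^ 3 := by
            have : 1 ≤ Λ + 1 := by linarith
            exact pow_le_pow_right₀ this (by norm_num)
          gcongr
          norm_num
      _ ≤ 1 := hsmall
  obtain ⟨B, hYB, hBY, hroot⟩ := matrix_part τ Z (1 / (1 + 2 * lam)) δ ha0 ha1
    (fun j => by have := (hτ j).1; linarith) hZn hδ8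
  set Y : Matrix (Fin n) (Fin n) ℂ := Matrix.diagonal (fun j => (τ j : ℂ)) + Z with hY
  have hRw : ∀ j, R (w j) = ∑ k, Y k j • w k := by
    intro j
    rw [hZ j, hY]
    simp only [Matrix.add_apply, add_smul, Finset.sum_add_distrib]
    congr 1
    simp [Matrix.diagonal_apply, ite_smul]
  have hJu : ∀ j, J (S (∑ k, B k j • w k)) = w j := by
    intro j
    have : J (S (∑ k, B k j • w k)) = R (∑ k, B k j • w k) := rfl
    rw [this, map_sum]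
    simp only [map_smul, hRw, Finset.smul_sum, smul_smul]
    rw [Finset.sum_comm]
    have h1 : ∀ l, ∑ k, (B k j * Y l k) • w l = (Y * B) l j • w l := by
      intro l
      rw [← Finset.sum_smul, Matrix.mul_apply]
      congr 1
      exact Finset.sum_congr rfl (fun k _ => mul_comm _ _)
    simp only [h1, hYB, Matrix.one_apply, ite_smul, one_smul, zero_smul]
    simp
  refine ⟨fun j => S (∑ k, B k j • w k), B - (1 - Complex.I) • 1, ?_, ?_, ?_⟩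
  · have : (fun j => J (S (∑ k, B k j • w k))) = w := funext hJu
    rw [this]; exact hw
  · intro j v
    have h1 := S1 (∑ k, B k j • w k) v
    simp only [hJu] at h1 ⊢
    have h2 : ∑ k, (B - (1 - Complex.I) • (1 : Matrix (Fin n) (Fin n) ℂ)) k j • w k
        = (∑ k, B k j • w k) - (1 - Complex.I) • w j := by
      simp only [Matrix.sub_apply, Matrix.smul_apply, sub_smul, Finset.sum_sub_distrib,
        Matrix.one_apply, smul_eq_mul, mul_ite, mul_one, mul_zero, ite_smul, zero_smul]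
      simp
    rw [h2, inner_sub_right, inner_smul_right, ← h1]
  · intro E hE
    have hE' : B.charpoly.IsRoot (E + (1 - Complex.I)) := by
      rw [Polynomial.IsRoot.def, Matrix.eval_charpoly] at hE ⊢
      rw [← hE]
      congr 1
      rw [map_add]
      have : (1 - Complex.I) • (1 : Matrix (Fin n) (Fin n) ℂ) = Matrix.scalar (Fin n) (1 - Complex.I) := by
        ext i j
        simp [Matrix.one_apply, Matrix.scalar_apply, Matrix.diagonal_apply]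
      rw [this]
      abel
    obtain ⟨k, hk⟩ := hroot _ hE'
    have hτk := hτ k
    have hk1 : 1 ≤ 1 / τ k := by
      rw [le_div_iff₀ (hτ0 k)]; linarith [hτk.2]
    have hk2 : 1 / τ k ≤ 1 + 2 * lam := by
      rw [div_le_iff₀ (hτ0 k)]
      have h1 : 1 / (1 + 2 * lam) ≤ τ k := by linarith [hτk.1]
      rw [div_le_iff₀ hlam0] at h1
      linarith
    constructor
    · have h1 := Complex.abs_im_le_norm (E + (1 - Complex.I) - ((1 / τ k : ℝ) : ℂ))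
      have h2 : (E + (1 - Complex.I) - ((1 / τ k : ℝ) : ℂ)).im = E.im - 1 := by
        simp only [Complex.sub_im, Complex.add_im, Complex.one_im, Complex.I_im,
          Complex.ofReal_im]
        ring
      rw [h2] at h1
      have h3 := neg_abs_le (E.im - 1)
      linarith
    · have h1 : E = (E + (1 - Complex.I) - ((1 / τ k : ℝ) : ℂ))
          + (((1 / τ k - 1 : ℝ) : ℂ) + Complex.I) := by
        push_cast; ring
      have h2 : ‖((1 / τ k - 1 : ℝ) : ℂ) + Complex.I‖ ≤ (1 / τ k - 1) + 1 :=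
        A6c_invariant_kappa _ (by linarith)
      calc ‖E‖ = ‖(E + (1 - Complex.I) - ((1 / τ k : ℝ) : ℂ))
          + (((1 / τ k - 1 : ℝ) : ℂ) + Complex.I)‖ := by rw [← h1]
        _ ≤ _ := norm_add_le _ _
        _ ≤ 1 / 2 + ((1 / τ k - 1) + 1) := add_le_add hk h2
        _ ≤ 2 * lam + 3 := by linarith


end Pool.Agent.Helper31_CP
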