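import Mathlib
import Pool.Agent.Helper31_CP.Defs
import Pool.Agent.H631.LT.J02

set_option autoImplicit false

namespace Pool.Agent.Helper31_CP

open MeasureTheory Filter Topology Set
open scoped InnerProductSpace

theorem nsq {d : ℕ} (f : HH d) : ‖f‖ ^ 2 = ∫ x, ‖f x‖ ^ 2 := by
  have h1 := L2.inner_def (𝕜 := ℂ) f f
  have h2 : (⟪f, f⟫_ℂ) = ((‖f‖ ^ 2 : ℝ) : ℂ) := by
    rw [inner_self_eq_norm_sq_to_K]; push_cast; rfl
  have h3 : (∫ x, ⟪f x, f x⟫_ℂ) = ((∫ x, ‖f x‖ ^ 2 : ℝ) : ℂ) := by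
    rw [← integral_complex_ofReal]
    apply integral_congr_ae
    filter_upwards with x
    rw [inner_self_eq_norm_sq_to_K]; push_cast; rfl
  rw [h2, h3] at h1
  exact_mod_cast h1

theorem int_nsq {d : ℕ} (f : HH d) : Integrable (fun x => ‖f x‖ ^ 2) volume :=
  (Lp.memLp f).integrable_norm_pow (by norm_num)

theorem norm_VX {d : ℕ} (z : VX d) :
    ‖z‖ ^ 2 = ‖z none‖ ^ 2 + (‖z (some none)‖ ^ 2 + ∑ i, ‖z (some (some i))‖ ^ 2) := by
  rw [PiLp.norm_sq_eq_of_L2, Fintype.sum_option, Fintype.sum_option]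

theorem inner_VX {d : ℕ} (z z' : VX d) :
    ⟪z, z'⟫_ℂ = ⟪z none, z' none⟫_ℂ + (⟪z (some none), z' (some none)⟫_ℂ +
      ∑ i, ⟪z (some (some i)), z' (some (some i))⟫_ℂ) := by
  rw [PiLp.inner_apply, Fintype.sum_option, Fintype.sum_option]

/-- Assemble a triple. -/
noncomputable def mkz {d : ℕ} (h : ℝ) (v w : HH d) (q : Fin d → HH d) : VX d :=
  WithLp.toLp 2 (fun o => match o with
    | none => v
    | some none => w
    | some (some i) => (h : ℂ) • q i)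

theorem mkz_none {d : ℕ} (h : ℝ) (v w : HH d) (q : Fin d → HH d) : mkz h v w q none = v := rfl
theorem mkz_some {d : ℕ} (h : ℝ) (v w : HH d) (q : Fin d → HH d) :
    mkz h v w q (some none) = w := rfl
theorem mkz_ss {d : ℕ} (h : ℝ) (v w : HH d) (q : Fin d → HH d) (i : Fin d) :
    mkz h v w q (some (some i)) = (h : ℂ) • q i := rfl

theorem integral_smul_mul {d : ℕ} (c : ℂ) (q : HH d) (φ : EE d → ℂ) :
    ∫ x, (c • q : HH d) x * φ x = c * ∫ x, q x * φ x := by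
  rw [← integral_const_mul]
  apply integral_congr_ae
  filter_upwards [Lp.coeFn_smul c q] with x hx
  rw [hx, Pi.smul_apply, smul_eq_mul, mul_assoc]

theorem mkz_inV {d : ℕ} (h : ℝ) (W : EE d → ℝ) (v w : HH d) (q : Fin d → HH d)
    (hw : (w : EE d → ℂ) =ᵐ[volume] fun x => (W x : ℂ) * v x) (hq : ∀ i, WD i v (q i)) :
    InV h W (mkz h v w q) := by
  refine ⟨hw, fun i φ hφ => ?_⟩
  rw [mkz_none, mkz_ss, integral_smul_mul, hq i φ hφ]
  ring

theorem inV_WD {d : ℕ} (h : ℝ) (hh : h ≠ 0) (W : EE d → ℝ) (z : VX d) (hz : InV h W z)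
    (i : Fin d) : WD i (z none) ((h : ℂ)⁻¹ • z (some (some i)) : HH d) := by
  intro φ hφ
  have h1 := hz.2 i φ hφ
  have hc : (h : ℂ) ≠ 0 := by exact_mod_cast hh
  rw [integral_smul_mul]
  have h2 : ∫ x, z none x * pd i φ x = (h : ℂ)⁻¹ * ((h : ℂ) * ∫ x, z none x * pd i φ x) := by
    rw [← mul_assoc, inv_mul_cancel₀ hc, one_mul]
  rw [h2, h1]
  ring

/-- the outside of the unit ball -/
def OO (d : ℕ) : Set (EE d) := {x | 1 ≤ ‖x‖}

theorem OO_meas (d : ℕ) : MeasurableSet (OO d) :=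
  measurableSet_le measurable_const measurable_norm

/-- projection onto functions living outside the unit ball -/
noncomputable def PP (d : ℕ) : HH d →L[ℂ] HH d := LTS.proj (OO d)

theorem PP_ae {d : ℕ} (f : HH d) : (PP d f : EE d → ℂ) =ᵐ[volume] (OO d).indicator f :=
  LTS.proj_ae (OO d) (OO_meas d) f

theorem PP_sym {d : ℕ} (f g : HH d) : ⟪PP d f, g⟫_ℂ = ⟪f, PP d g⟫_ℂ :=
  LTS.proj_inner (OO d) (OO_meas d) f g

theorem PP_idem {d : ℕ} (f : HH d) : PP d (PP d f) = PP d f :=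
  LTS.proj_sub (OO d) (OO d) (OO_meas d) (OO_meas d) le_rfl f

theorem PP_nsq {d : ℕ} (f : HH d) : ‖PP d f‖ ^ 2 = ∫ x in OO d, ‖f x‖ ^ 2 := by
  rw [nsq, ← integral_indicator (OO_meas d)]
  apply integral_congr_ae
  filter_upwards [PP_ae f] with x hx
  rw [hx]
  by_cases h : x ∈ OO d
  · rw [indicator_of_mem h, indicator_of_mem h]
  · rw [indicator_of_notMem h, indicator_of_notMem h]; simp

theorem split_nsq {d : ℕ} (f : HH d) :
    ‖f‖ ^ 2 = (∫ x in Metric.ball (0 : EE d) 1, ‖f x‖ ^ 2) + ∫ x in OO d, ‖f x‖ ^ 2 := by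
  have h1 : (OO d) = (Metric.ball (0 : EE d) 1)ᶜ := by
    ext x; simp [OO]
  rw [h1, nsq, integral_add_compl measurableSet_ball (int_nsq f)]

end Pool.Agent.Helper31_CP
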