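import Mathlib
import Pool.Agent.Helper31_CP.Defs

set_option autoImplicit false

namespace Pool.Agent.Helper31_CP

open MeasureTheory Filter Topology Set
open scoped InnerProductSpace

/-- The real part of the potential: `-log (1 - |x|)` inside the unit ball, zero outside. -/
noncomputable def Ulog {d : ℕ} (x : EE d) : ℝ := if ‖x‖ < 1 then -Real.log (1 - ‖x‖) else 0

/-- TARGET -/
theorem Ulog_props (d : ℕ) (hd : 1 ≤ d) :
    Measurable (Ulog : EE d → ℝ) ∧ (∀ x : EE d, 0 ≤ Ulog x) ∧
    (∀ x : EE d, ‖x‖ ≤ 1 / 2 → Ulog x ≤ 1) ∧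
    (∀ M : ℝ, ∃ r : ℝ, 0 < r ∧ r < 1 ∧ ∀ x : EE d, r ≤ ‖x‖ → ‖x‖ < 1 → M ≤ Ulog x) ∧
    (∀ p : ℝ, 0 < p → Integrable (fun x : EE d => (Ulog x) ^ p) volume) := by
  refine ⟨?_, ?_, ?_, ?_, ?_⟩
  · unfold Ulog
    refine Measurable.ite (measurableSet_lt measurable_norm measurable_const) ?_ measurable_const
    exact (Real.measurable_log.comp (measurable_const.sub measurable_norm)).neg
  · intro x
    unfold Ulog
    split_ifs with h
    · have h0 := norm_nonneg x
      have := Real.log_nonpos (x := 1 - ‖x‖) (by linarith) (by linarith)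
      linarith
    · exact le_rfl
  · intro x hx
    unfold Ulog
    split_ifs with h
    · have h1 : Real.log (1 / 2) ≤ Real.log (1 - ‖x‖) := Real.log_le_log (by norm_num) (by linarith)
      have h2 : Real.log (1 / 2) = - Real.log 2 := by
        rw [one_div, Real.log_inv]
      have h3 := Real.log_two_lt_d9
      linarith
    · norm_num
  · intro M
    refine ⟨max (1 / 2) (1 - Real.exp (-M)), lt_of_lt_of_le (by norm_num) (le_max_left _ _), ?_, ?_⟩
    · have := Real.exp_pos (-M)
      exact max_lt (by norm_num) (by linarith)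
    · intro x hx hx1
      unfold Ulog
      rw [if_pos hx1]
      have h1 : 1 - Real.exp (-M) ≤ ‖x‖ := (le_max_right _ _).trans hx
      have h2 : Real.log (1 - ‖x‖) ≤ Real.log (Real.exp (-M)) :=
        Real.log_le_log (by linarith) (by linarith)
      rw [Real.log_exp] at h2
      linarith
  · intro p hp
    have : Nontrivial (EE d) := by
      have : Nonempty (Fin d) := ⟨⟨0, by omega⟩⟩
      infer_instance
    have hfun : (fun x : EE d => (Ulog x) ^ p) =
        (fun x : EE d => (fun y : ℝ => (if y < 1 then -Real.log (1 - y) else 0) ^ p) ‖x‖) := by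
      ext x; rfl
    rw [hfun]
    refine (integrable_fun_norm_addHaar volume
      (f := fun y : ℝ => (if y < 1 then -Real.log (1 - y) else 0) ^ p)).2 ?_
    have hmeas : Measurable (fun y : ℝ => y ^ (Module.finrank ℝ (EE d) - 1) •
        (if y < 1 then -Real.log (1 - y) else 0) ^ p) := by
      refine (measurable_id.pow_const _).smul (Measurable.pow_const ?_ _)
      refine Measurable.ite (measurableSet_lt measurable_id measurable_const) ?_ measurable_const
      exact (Real.measurable_log.comp (measurable_const.sub measurable_id)).neg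
    have hint : IntegrableOn (fun y : ℝ => (2 * p) ^ p * (1 - y) ^ (-(1 / 2) : ℝ)) (Ioo 0 1) := by
      have h1 : IntervalIntegrable (fun x : ℝ => x ^ (-(1 / 2) : ℝ)) volume 0 1 :=
        intervalIntegral.intervalIntegrable_rpow' (by norm_num)
      have h2 := h1.comp_sub_left 1
      have h3 := h2.symm
      simp only [sub_self, sub_zero] at h3
      have h4 := (intervalIntegrable_iff_integrableOn_Ioo_of_le (by norm_num)).1 h3
      exact h4.const_mul _
    have hsupp : IntegrableOn (fun y : ℝ => y ^ (Module.finrank ℝ (EE d) - 1) •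
        (if y < 1 then -Real.log (1 - y) else 0) ^ p) (Ioo 0 1) := by
      refine Integrable.mono' hint hmeas.aestronglyMeasurable ?_
      rw [ae_restrict_iff' measurableSet_Ioo]
      refine ae_of_all _ fun y hy => ?_
      obtain ⟨hy0, hy1⟩ := hy
      rw [if_pos hy1, smul_eq_mul, norm_mul, norm_pow, Real.norm_eq_abs, abs_of_pos hy0]
      have h1y : 0 < 1 - y := by linarith
      have hL : 0 ≤ -Real.log (1 - y) := by
        have := Real.log_nonpos (x := 1 - y) (by linarith) (by linarith)
        linarith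
      have hpw : y ^ (Module.finrank ℝ (EE d) - 1) ≤ 1 := pow_le_one₀ hy0.le hy1.le
      have hle : -Real.log (1 - y) ≤ (2 * p) * (1 - y) ^ (-(1 / (2 * p)) : ℝ) := by
        have h2 := Real.log_le_rpow_div (x := (1 - y)⁻¹) (ε := 1 / (2 * p)) (by positivity)
          (by positivity)
        rw [Real.log_inv, Real.inv_rpow h1y.le, ← Real.rpow_neg h1y.le] at h2
        calc -Real.log (1 - y) ≤ (1 - y) ^ (-(1 / (2 * p)) : ℝ) / (1 / (2 * p)) := h2
          _ = (2 * p) * (1 - y) ^ (-(1 / (2 * p)) : ℝ) := by field_simp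
      have hpow : (-Real.log (1 - y)) ^ p ≤ (2 * p) ^ p * (1 - y) ^ (-(1 / 2) : ℝ) := by
        calc (-Real.log (1 - y)) ^ p ≤ ((2 * p) * (1 - y) ^ (-(1 / (2 * p)) : ℝ)) ^ p :=
              Real.rpow_le_rpow hL hle hp.le
          _ = (2 * p) ^ p * (1 - y) ^ (-(1 / 2) : ℝ) := by
              rw [Real.mul_rpow (by positivity) (by positivity), ← Real.rpow_mul h1y.le]
              congr 2
              field_simp
      rw [Real.norm_of_nonneg (Real.rpow_nonneg hL _)]
      have h0 : 0 ≤ (-Real.log (1 - y)) ^ p := Real.rpow_nonneg hL _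
      calc y ^ (Module.finrank ℝ (EE d) - 1) * (-Real.log (1 - y)) ^ p
          ≤ 1 * (-Real.log (1 - y)) ^ p := mul_le_mul_of_nonneg_right hpw h0
        _ ≤ _ := by rw [one_mul]; exact hpow
    refine hsupp.of_forall_sdiff_eq_zero measurableSet_Ioi ?_
    intro y hy
    have hy0 : 0 < y := hy.1
    have hy1 : ¬ y < 1 := fun h => hy.2 ⟨hy0, h⟩
    simp only [if_neg hy1]
    rw [Real.zero_rpow hp.ne', smul_zero]

end Pool.Agent.Helper31_CP
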