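import Mathlib
import Pool.Agent.Helper31_CP.B1
import Pool.Agent.Helper31_CP.P4_potential

set_option autoImplicit false

namespace Pool.Agent.Helper31_CP

open MeasureTheory Filter Topology Set
open scoped InnerProductSpace

/-- The potential `V = (i - log (1 - |x|)) 1_{|x| < 1}`. -/
noncomputable def Vpot {d : ℕ} (x : EE d) : ℂ :=
  (Ulog x : ℂ) + (Metric.ball (0 : EE d) 1).indicator (fun _ => Complex.I) x

/-- the weight function -/
noncomputable def Wf {d : ℕ} (Λ : ℝ) (x : EE d) : ℝ :=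
  Real.sqrt (Ulog x + (OO d).indicator (fun _ => Λ) x)

theorem Wf_sq {d : ℕ} (Λ : ℝ) (hΛ : 0 ≤ Λ) (h0 : ∀ x : EE d, 0 ≤ Ulog x) (x : EE d) :
    (Wf Λ x) ^ 2 = Ulog x + (OO d).indicator (fun _ => Λ) x := by
  refine Real.sq_sqrt (add_nonneg (h0 x) ?_)
  exact indicator_nonneg (fun _ _ => hΛ) x

theorem Wf_meas {d : ℕ} (Λ : ℝ) (h : Measurable (Ulog : EE d → ℝ)) :
    Measurable (Wf Λ : EE d → ℝ) := by
  unfold Wf
  exact (h.add (measurable_const.indicator (OO_meas d))).sqrt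

/-- `‖w‖² ≥ Λ ‖1_O u‖²` when `w = W u` and `W² ≥ Λ` on `O`. -/
theorem out_le {d : ℕ} (Λ : ℝ) (W : EE d → ℝ) (u w : HH d)
    (hw : (w : EE d → ℂ) =ᵐ[volume] fun x => (W x : ℂ) * u x)
    (hW : ∀ x ∈ OO d, Λ ≤ (W x) ^ 2) :
    Λ * ∫ x in OO d, ‖u x‖ ^ 2 ≤ ‖w‖ ^ 2 := by
  rw [nsq w]
  have h1 : ∫ x in OO d, ‖w x‖ ^ 2 ≤ ∫ x, ‖w x‖ ^ 2 :=
    setIntegral_le_integral (int_nsq w) (Eventually.of_forall fun x => by positivity)
  refine le_trans ?_ h1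
  rw [← integral_const_mul]
  refine setIntegral_mono_ae_restrict ((int_nsq u).integrableOn.const_mul Λ)
    (int_nsq w).integrableOn ?_
  rw [Filter.EventuallyLE, ae_restrict_iff' (OO_meas d)]
  filter_upwards [hw] with x hx hxO
  rw [hx, norm_mul, Complex.norm_real, mul_pow, Real.norm_eq_abs, sq_abs]
  exact mul_le_mul_of_nonneg_right (hW x hxO) (by positivity)

/-- The abstract hypothesis `hF`. -/
theorem codim_use {d : ℕ} (C s h lam : ℝ) (hh : 0 < h) (hlam : 0 < lam) (hC : 0 < C)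
    (hs : s = h / Real.sqrt (2 * lam * C)) (W : EE d → ℝ) (z : VX d) (hz : InV h W z)
    (hW : ∀ x ∈ OO d, 2 * lam ≤ (W x) ^ 2)
    (hF : ∀ p : Fin d → HH d, (∀ i, WD i (z none) (p i)) →
      ∫ x in Metric.ball (0 : EE d) 1, ‖z none x‖ ^ 2 ≤ C * s ^ 2 * ∑ i, ‖p i‖ ^ 2) :
    (1 + 2 * lam) * ‖z none‖ ^ 2 ≤ ‖z‖ ^ 2 := by
  have h1 := hF (fun i => (h : ℂ)⁻¹ • z (some (some i))) (fun i => inV_WD h hh.ne' W z hz i)
  have h2 : ∑ i, ‖((h : ℂ)⁻¹ • z (some (some i)) : HH d)‖ ^ 2 =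
      (h ^ 2)⁻¹ * ∑ i, ‖z (some (some i))‖ ^ 2 := by
    rw [Finset.mul_sum]
    apply Finset.sum_congr rfl
    intro i _
    rw [norm_smul, mul_pow, norm_inv, Complex.norm_real, Real.norm_eq_abs, inv_pow, sq_abs]
  rw [h2] at h1
  have h3 : C * s ^ 2 * ((h ^ 2)⁻¹ * ∑ i, ‖z (some (some i))‖ ^ 2) =
      (2 * lam)⁻¹ * ∑ i, ‖z (some (some i))‖ ^ 2 := by
    rw [hs, div_pow, Real.sq_sqrt (by positivity)]
    field_simp
  rw [h3] at h1
  have h4 := out_le (2 * lam) W (z none) (z (some none)) hz.1 hW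
  rw [norm_VX]
  have h5 := split_nsq (z none)
  have h6 : 2 * lam * ∫ x in Metric.ball (0 : EE d) 1, ‖z none x‖ ^ 2 ≤
      ∑ i, ‖z (some (some i))‖ ^ 2 := by
    have := mul_le_mul_of_nonneg_left h1 (by positivity : 0 ≤ 2 * lam)
    rwa [← mul_assoc, mul_inv_cancel₀ (by positivity), one_mul] at this
  nlinarith

end Pool.Agent.Helper31_CP
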