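import Mathlib
import Pool.Agent.Helper31_CP.Defs

set_option autoImplicit false

namespace Pool.Agent.Helper31_CP

open MeasureTheory Filter Topology Set
open scoped InnerProductSpace

namespace J_L2_transfer

variable {d : ℕ}

lemma inner_eq (a b : HH d) : ⟪a, b⟫_ℂ = ∫ x, b x * (starRingEnd ℂ) (a x) := by
  rw [L2.inner_def]
  refine integral_congr_ae (Eventually.of_forall fun x => ?_)
  simp only [RCLike.inner_apply]

lemma integrable_mul (a b : HH d) : Integrable (fun x => b x * (starRingEnd ℂ) (a x)) volume := by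
  have h := L2.integrable_inner (𝕜 := ℂ) a b
  refine h.congr (Eventually.of_forall fun x => ?_)
  simp only [RCLike.inner_apply]

lemma sq_int (a : HH d) : Integrable (fun x => ‖a x‖ ^ 2) volume :=
  (memLp_two_iff_integrable_sq_norm (Lp.aestronglyMeasurable a)).mp (Lp.memLp a)

end J_L2_transfer

/-- TARGET -/
theorem relation_transfer (d : ℕ) (h Λ : ℝ) (hh : 0 < h) (hΛ : 0 ≤ Λ)
    (U W : EE d → ℝ) (hU : Measurable U) (hU0 : ∀ x, 0 ≤ U x) (hUout : ∀ x, 1 ≤ ‖x‖ → U x = 0)
    (hW : Measurable W)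
    (hW2 : ∀ x, (W x) ^ 2 = U x + {x : EE d | 1 ≤ ‖x‖}.indicator (fun _ => Λ) x)
    (V : EE d → ℂ)
    (hV : ∀ x, V x = (U x : ℂ) + (Metric.ball (0 : EE d) 1).indicator (fun _ => Complex.I) x)
    (P : HH d →L[ℂ] HH d)
    (hPae : ∀ f : HH d, (P f : EE d → ℂ) =ᵐ[volume] {x : EE d | 1 ≤ ‖x‖}.indicator f)
    (u f : HH d) (z : VX d) (hz : InV h W z) (hu : z none = u)
    (hrel : ∀ z' : VX d, InV h W z' →
      ⟪z', z⟫_ℂ - ((Λ : ℂ) + Complex.I) * ⟪P (z' none), P (z none)⟫_ℂ
        - (1 - Complex.I) * ⟪z' none, z none⟫_ℂ = ⟪z' none, f⟫_ℂ) :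
    IsHu h V u f := by
  have hhc : (h : ℂ) ≠ 0 := by exact_mod_cast hh.ne'
  have hVm : Measurable V := by
    have h1 : V = fun x => (U x : ℂ) + (Metric.ball (0 : EE d) 1).indicator (fun _ => Complex.I) x :=
      funext hV
    rw [h1]
    exact (Complex.measurable_ofReal.comp hU).add (measurable_const.indicator Metric.isOpen_ball.measurableSet)
  have hVle : ∀ x, ‖V x‖ ≤ (W x) ^ 2 + 1 := by
    intro x
    rw [hV x, hW2 x]
    have h1 : ‖(U x : ℂ)‖ = U x := by rw [Complex.norm_real, Real.norm_of_nonneg (hU0 x)]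
    have h2 : ‖(Metric.ball (0 : EE d) 1).indicator (fun _ => Complex.I) x‖ ≤ 1 := by
      by_cases hx : x ∈ Metric.ball (0 : EE d) 1
      · rw [indicator_of_mem hx, Complex.norm_I]
      · rw [indicator_of_notMem hx, norm_zero]
        norm_num
    have h3 : 0 ≤ {x : EE d | 1 ≤ ‖x‖}.indicator (fun _ => Λ) x :=
      indicator_nonneg (fun _ _ => hΛ) x
    calc _ ≤ ‖(U x : ℂ)‖ + ‖(Metric.ball (0 : EE d) 1).indicator (fun _ => Complex.I) x‖ := norm_add_le _ _
      _ ≤ _ := by rw [h1]; linarith
  have hUle : ∀ x, U x ≤ ‖V x‖ := by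
    intro x
    have h1 : (V x).re = U x := by
      rw [hV x, Complex.add_re, Complex.ofReal_re]
      by_cases hx : x ∈ Metric.ball (0 : EE d) 1
      · rw [indicator_of_mem hx, Complex.I_re, add_zero]
      · rw [indicator_of_notMem hx, Complex.zero_re, add_zero]
    rw [← h1]
    exact Complex.re_le_norm _
  have hWle : ∀ x, (W x) ^ 2 ≤ ‖V x‖ + Λ := by
    intro x
    rw [hW2 x]
    have h3 : {x : EE d | 1 ≤ ‖x‖}.indicator (fun _ => Λ) x ≤ Λ := by
      rw [indicator_apply]
      split_ifs
      · exact le_refl _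
      · exact hΛ
    have := hUle x
    linarith
  obtain ⟨hz1, hz2⟩ := hz
  rw [hu] at hz1
  have hzs : Integrable (fun x => (W x) ^ 2 * ‖u x‖ ^ 2) volume := by
    refine (J_L2_transfer.sq_int (z (some none))).congr ?_
    filter_upwards [hz1] with x hx
    rw [hx, norm_mul, Complex.norm_real, mul_pow, Real.norm_eq_abs, sq_abs]
  have hFu : FinPot V u := by
    refine Integrable.mono' (hzs.add (J_L2_transfer.sq_int u)) ?_ ?_
    · exact hVm.norm.aestronglyMeasurable.mul ((Lp.aestronglyMeasurable u).norm.pow 2)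
    · refine Eventually.of_forall fun x => ?_
      rw [Real.norm_of_nonneg (by positivity)]
      have := hVle x
      show ‖V x‖ * ‖u x‖ ^ 2 ≤ (W x) ^ 2 * ‖u x‖ ^ 2 + ‖u x‖ ^ 2
      nlinarith [sq_nonneg ‖u x‖]
  refine ⟨hFu, fun i => (h : ℂ)⁻¹ • z (some (some i)), ?_, ?_⟩
  · intro i φ hφ
    have h1 := hz2 i φ hφ
    rw [hu] at h1
    have h2 : ∫ x, ((h : ℂ)⁻¹ • z (some (some i)) : HH d) x * φ x =
        (h : ℂ)⁻¹ * ∫ x, z (some (some i)) x * φ x := by
      rw [← integral_const_mul]
      refine integral_congr_ae ?_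
      filter_upwards [Lp.coeFn_smul ((h : ℂ)⁻¹) (z (some (some i)))] with x hx
      rw [hx, Pi.smul_apply, smul_eq_mul, mul_assoc]
    have h3 : ∫ x, u x * pd i φ x = (h : ℂ)⁻¹ * ((h : ℂ) * ∫ x, u x * pd i φ x) := by
      rw [← mul_assoc, inv_mul_cancel₀ hhc, one_mul]
    rw [h3, h1, h2]
    ring
  · intro v q hFv hq
    have hWv : MemLp (fun x => (W x : ℂ) * v x) 2 volume := by
      rw [memLp_two_iff_integrable_sq_norm]
      · refine Integrable.mono' (g := fun x => ‖V x‖ * ‖v x‖ ^ 2 + Λ * ‖v x‖ ^ 2)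
          (hFv.add ((J_L2_transfer.sq_int v).const_mul Λ)) ?_ ?_
        · exact ((((Complex.measurable_ofReal.comp hW).aestronglyMeasurable).mul
            (Lp.aestronglyMeasurable v)).norm.pow 2)
        · refine Eventually.of_forall fun x => ?_
          rw [Real.norm_of_nonneg (by positivity), norm_mul, Complex.norm_real, mul_pow,
            Real.norm_eq_abs, sq_abs]
          have := hWle x
          nlinarith [sq_nonneg ‖v x‖]
      · exact ((Complex.measurable_ofReal.comp hW).aestronglyMeasurable).mul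
            (Lp.aestronglyMeasurable v)
    set Wv : HH d := hWv.toLp _ with hWvdef
    have hWvae : (Wv : EE d → ℂ) =ᵐ[volume] fun x => (W x : ℂ) * v x := hWv.coeFn_toLp
    set z' : VX d := WithLp.toLp 2 (fun o : Option (Option (Fin d)) =>
      match o with
      | none => v
      | some none => Wv
      | some (some i) => (h : ℂ) • q i) with hz'def
    have e0 : z' none = v := rfl
    have e1 : z' (some none) = Wv := rfl
    have e2 : ∀ i, z' (some (some i)) = (h : ℂ) • q i := fun i => rfl
    have hInV : InV h W z' := by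
      refine ⟨?_, ?_⟩
      · rw [e0, e1]; exact hWvae
      · intro i φ hφ
        rw [e0, e2 i, hq i φ hφ]
        have h2 : ∫ x, ((h : ℂ) • q i : HH d) x * φ x = (h : ℂ) * ∫ x, q i x * φ x := by
          rw [← integral_const_mul]
          refine integral_congr_ae ?_
          filter_upwards [Lp.coeFn_smul (h : ℂ) (q i)] with x hx
          rw [hx, Pi.smul_apply, smul_eq_mul, mul_assoc]
        rw [h2]
        ring
    have key := hrel z' hInV
    rw [PiLp.inner_apply, Fintype.sum_option, Fintype.sum_option, e0, e1, hu] at key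
    -- the parts
    have hP : ⟪P v, P u⟫_ℂ = ∫ x, {x : EE d | 1 ≤ ‖x‖}.indicator
        (fun x => u x * (starRingEnd ℂ) (v x)) x := by
      rw [J_L2_transfer.inner_eq]
      refine integral_congr_ae ?_
      filter_upwards [hPae u, hPae v] with x h1 h2
      rw [h1, h2]
      simp only [indicator_apply]
      split_ifs <;> simp
    have hWW : ⟪Wv, z (some none)⟫_ℂ = ∫ x, ((W x ^ 2 : ℝ) : ℂ) * (u x * (starRingEnd ℂ) (v x)) := by
      rw [J_L2_transfer.inner_eq]
      refine integral_congr_ae ?_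
      filter_upwards [hz1, hWvae] with x h1 h2
      rw [h1, h2, map_mul, Complex.conj_ofReal]
      push_cast
      ring
    have hWWi : Integrable (fun x => ((W x ^ 2 : ℝ) : ℂ) * (u x * (starRingEnd ℂ) (v x))) volume := by
      refine (J_L2_transfer.integrable_mul Wv (z (some none))).congr ?_
      filter_upwards [hz1, hWvae] with x h1 h2
      rw [h1, h2, map_mul, Complex.conj_ofReal]
      push_cast
      ring
    have hsum : ∀ i, ⟪z' (some (some i)), z (some (some i))⟫_ℂ =
        ((h ^ 2 : ℝ) : ℂ) * ∫ x, ((h : ℂ)⁻¹ • z (some (some i)) : HH d) x * (starRingEnd ℂ) (q i x) := by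
      intro i
      rw [e2 i, inner_smul_left, Complex.conj_ofReal, ← J_L2_transfer.inner_eq, inner_smul_right]
      push_cast
      field_simp
    rw [Finset.sum_congr rfl fun i _ => hsum i, ← Finset.mul_sum] at key
    have hgi := J_L2_transfer.integrable_mul v u
    have hOm : MeasurableSet {x : EE d | 1 ≤ ‖x‖} := measurableSet_le measurable_const measurable_norm
    have hgO := hgi.indicator hOm
    have hVg : ∫ x, V x * u x * (starRingEnd ℂ) (v x) =
        (∫ x, ((W x ^ 2 : ℝ) : ℂ) * (u x * (starRingEnd ℂ) (v x)))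
          - ((Λ : ℂ) + Complex.I) * (∫ x, {x : EE d | 1 ≤ ‖x‖}.indicator
            (fun x => u x * (starRingEnd ℂ) (v x)) x)
          + Complex.I * ∫ x, u x * (starRingEnd ℂ) (v x) := by
      have hi1 := hgO.const_mul ((Λ : ℂ) + Complex.I)
      have hi2 := hgi.const_mul Complex.I
      have hi3 : Integrable (fun x => ((W x ^ 2 : ℝ) : ℂ) * (u x * (starRingEnd ℂ) (v x)) -
          ((Λ : ℂ) + Complex.I) * {x : EE d | 1 ≤ ‖x‖}.indicator
            (fun x => u x * (starRingEnd ℂ) (v x)) x) volume := hWWi.sub hi1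
      rw [← integral_const_mul, ← integral_const_mul, ← integral_sub hWWi hi1, ← integral_add hi3 hi2]
      refine integral_congr_ae (Eventually.of_forall fun x => ?_)
      show V x * u x * (starRingEnd ℂ) (v x) = ((W x ^ 2 : ℝ) : ℂ) * (u x * (starRingEnd ℂ) (v x))
          - ((Λ : ℂ) + Complex.I) * {x : EE d | 1 ≤ ‖x‖}.indicator
            (fun x => u x * (starRingEnd ℂ) (v x)) x
          + Complex.I * (u x * (starRingEnd ℂ) (v x))
      rw [hV x, hW2 x]
      by_cases hx : 1 ≤ ‖x‖
      · have hb : x ∉ Metric.ball (0 : EE d) 1 := by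
          rw [mem_ball_zero_iff]; exact not_lt.mpr hx
        rw [indicator_of_notMem hb, indicator_of_mem (show x ∈ {x : EE d | 1 ≤ ‖x‖} from hx),
          indicator_of_mem (show x ∈ {x : EE d | 1 ≤ ‖x‖} from hx)]
        push_cast
        ring
      · have hb : x ∈ Metric.ball (0 : EE d) 1 := by
          rw [mem_ball_zero_iff]; exact not_le.mp hx
        rw [indicator_of_mem hb, indicator_of_notMem (show x ∉ {x : EE d | 1 ≤ ‖x‖} from hx),
          indicator_of_notMem (show x ∉ {x : EE d | 1 ≤ ‖x‖} from hx)]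
        push_cast
        ring
    rw [hP, hWW, J_L2_transfer.inner_eq v u, J_L2_transfer.inner_eq v f] at key
    rw [hVg, ← key]
    ring

end Pool.Agent.Helper31_CP
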