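import Mathlib
import Pool.Agent.Helper31_CP.B2
import Pool.Agent.Helper31_CP.L2_transfer

set_option autoImplicit false

namespace Pool.Agent.Helper31_CP

open MeasureTheory Filter Topology Set
open scoped InnerProductSpace

theorem b_use {d : ℕ} (Λ h : ℝ) (hΛ : 0 ≤ Λ) (W : EE d → ℝ) (z : VX d) (hz : InV h W z)
    (hW : ∀ x ∈ OO d, Λ ≤ (W x) ^ 2) : (Λ + 1) * ‖PP d (z none)‖ ^ 2 ≤ ‖z‖ ^ 2 := by
  have h1 := out_le Λ W (z none) (z (some none)) hz.1 hW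
  have h2 := split_nsq (z none)
  have h3 := norm_VX z
  have h4 : 0 ≤ ∑ i : Fin d, ‖z (some (some i))‖ ^ 2 :=
    Finset.sum_nonneg fun i _ => sq_nonneg _
  have h5 : 0 ≤ ∫ x in Metric.ball (0 : EE d) 1, ‖z none x‖ ^ 2 :=
    integral_nonneg fun x => by positivity
  rw [PP_nsq, h3]
  nlinarith

theorem J_exists {d : ℕ} (S : Submodule ℂ (VX d)) :
    ∃ J : S →L[ℂ] HH d, (∀ z : S, J z = (z : VX d) none) ∧ ∀ z : S, ‖J z‖ ≤ ‖z‖ := by
  refine ⟨(PiLp.proj (𝕜 := ℂ) 2 (fun _ : Option (Option (Fin d)) => HH d) none).comp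
    S.subtypeL, fun z => rfl, fun z => ?_⟩
  have h1 := norm_VX (z : VX d)
  have h2 : 0 ≤ ‖(z : VX d) (some none)‖ ^ 2 + ∑ i : Fin d, ‖(z : VX d) (some (some i))‖ ^ 2 :=
    add_nonneg (sq_nonneg _) (Finset.sum_nonneg fun i _ => sq_nonneg _)
  have h3 : ‖(z : VX d) none‖ ^ 2 ≤ ‖(z : VX d)‖ ^ 2 := by linarith
  exact le_of_sq_le_sq h3 (norm_nonneg _)

/-- The Agmon hypothesis in the form needed. -/
theorem agm_use {d : ℕ} (h lam ca μ : ℝ) (hh : 0 < h) (hμ0 : 0 ≤ μ) (hμ1 : μ ≤ 2 * lam)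
    (W : EE d → ℝ) (z : VX d) (hz : InV h W z)
    (hagm : ∀ (u w : HH d) (p : Fin d → HH d), (∀ i, WD i u (p i)) →
      ((w : EE d → ℂ) =ᵐ[volume] fun x => (W x : ℂ) * u x) →
      (∀ (v w' : HH d) (q : Fin d → HH d), (∀ i, WD i v (q i)) →
        ((w' : EE d → ℂ) =ᵐ[volume] fun x => (W x : ℂ) * v x) →
        ((h ^ 2 : ℝ) : ℂ) * ∑ i, ⟪q i, p i⟫_ℂ + ⟪w', w⟫_ℂ = (μ : ℂ) * ⟪v, u⟫_ℂ) →
      ∫ x in {x : EE d | 1 ≤ ‖x‖}, ‖u x‖ ^ 2 ≤ μ * Real.exp (-(2 * ca / h)) * ‖u‖ ^ 2)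
    (hzμ : ∀ v : VX d, InV h W v →
      ⟪v, z⟫_ℂ = ((1 + μ : ℝ) : ℂ) * ⟪v none, z none⟫_ℂ) :
    ‖PP d (z none)‖ ≤ Real.sqrt (2 * lam) * Real.exp (-(ca / h)) * ‖z none‖ := by
  have key := hagm (z none) (z (some none))
    (fun i => (h : ℂ)⁻¹ • z (some (some i)))
    (fun i => inV_WD h hh.ne' W z hz i) hz.1 (by
      intro v w' q hq hw'
      have hv := mkz_inV h W v w' q hw' hq
      have h2 := hzμ _ hv
      rw [inner_VX, mkz_none, mkz_some] at h2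
      have h3 : ((h ^ 2 : ℝ) : ℂ) * ∑ i, ⟪q i, ((h : ℂ)⁻¹ • z (some (some i)) : HH d)⟫_ℂ =
          ∑ i, ⟪mkz h v w' q (some (some i)), z (some (some i))⟫_ℂ := by
        rw [Finset.mul_sum]
        apply Finset.sum_congr rfl
        intro i _
        rw [mkz_ss, inner_smul_left, inner_smul_right, Complex.conj_ofReal]
        have : (h : ℂ) ≠ 0 := by exact_mod_cast hh.ne'
        push_cast
        field_simp
      rw [h3]
      push_cast at h2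
      linear_combination h2)
  have hlam : 0 ≤ 2 * lam := hμ0.trans hμ1
  have h1 : ‖PP d (z none)‖ ^ 2 ≤
      (Real.sqrt (2 * lam) * Real.exp (-(ca / h)) * ‖z none‖) ^ 2 := by
    rw [PP_nsq, mul_pow, mul_pow, Real.sq_sqrt hlam, ← Real.exp_nat_mul]
    refine le_trans key ?_
    have h2 : ((2 : ℕ) : ℝ) * -(ca / h) = -(2 * ca / h) := by push_cast; ring
    rw [h2]
    have h3 : 0 ≤ Real.exp (-(2 * ca / h)) * ‖z none‖ ^ 2 := by positivity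
    rw [mul_assoc, mul_assoc]
    exact mul_le_mul_of_nonneg_right hμ1 h3
  exact le_of_sq_le_sq h1 (by positivity)

end Pool.Agent.Helper31_CP
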