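import Mathlib
import Pool.Agent.Helper31_CP.Defs

set_option autoImplicit false

namespace Pool.Agent.Helper31_CP

open scoped InnerProductSpace

namespace J_F1_fingen

open scoped InnerProductSpace

theorem exists_max (M : ℕ) : ∀ f : ℕ → ℕ, (∀ k, f k ≤ M) → ∃ k0, ∀ k, f k ≤ f k0 := by
  induction M with
  | zero =>
    intro f h
    exact ⟨0, fun k => (h k).trans (Nat.zero_le _)⟩
  | succ M ih =>
    intro f h
    by_cases hx : ∃ k0, f k0 = M + 1
    · obtain ⟨k0, hk0⟩ := hx
      exact ⟨k0, fun k => by rw [hk0]; exact h k⟩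
    · push Not at hx
      exact ih f (fun k => by
        have h1 := h k
        have h2 := hx k
        omega)

theorem exists_step (P : ℕ → Prop) (h0 : P 0) (M : ℕ) (hM : ∀ l, P l → l ≤ M) : ∃ l, P l ∧ ¬ P (l + 1) := by
  by_contra hcon
  push Not at hcon
  have hall : ∀ l, P l := by
    intro l
    induction l with
    | zero => exact h0
    | succ l ih => exact hcon l ih
  have := hM (M + 1) (hall (M + 1))
  omega

theorem append_orth {H : Type*} [NormedAddCommGroup H] [InnerProductSpace ℂ H] {m l : ℕ} (b : Fin m → H)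
    (c : Fin l → H) (hb : Orthonormal ℂ b) (hc : Orthonormal ℂ c) (hbc : ∀ i j, ⟪b i, c j⟫_ℂ = 0) :
    Orthonormal ℂ (Fin.append b c) := by
  constructor
  · intro i
    refine Fin.addCases (fun i => ?_) (fun i => ?_) i
    · rw [Fin.append_left]; exact hb.1 i
    · rw [Fin.append_right]; exact hc.1 i
  · intro i j
    refine Fin.addCases (fun i => ?_) (fun i => ?_) i
    · refine Fin.addCases (fun j => ?_) (fun j => ?_) j
      · intro hij
        show ⟪Fin.append b c (Fin.castAdd l i), Fin.append b c (Fin.castAdd l j)⟫_ℂ = 0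
        rw [Fin.append_left, Fin.append_left]
        apply hb.2
        intro h
        exact hij (by rw [h])
      · intro hij
        show ⟪Fin.append b c (Fin.castAdd l i), Fin.append b c (Fin.natAdd m j)⟫_ℂ = 0
        rw [Fin.append_left, Fin.append_right]
        exact hbc i j
    · refine Fin.addCases (fun j => ?_) (fun j => ?_) j
      · intro hij
        show ⟪Fin.append b c (Fin.natAdd m i), Fin.append b c (Fin.castAdd l j)⟫_ℂ = 0
        rw [Fin.append_left, Fin.append_right]
        exact inner_eq_zero_symm.mp (hbc j i)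
      · intro hij
        show ⟪Fin.append b c (Fin.natAdd m i), Fin.append b c (Fin.natAdd m j)⟫_ℂ = 0
        rw [Fin.append_right, Fin.append_right]
        apply hc.2
        intro h
        exact hij (by rw [h])

theorem stepQ {H : Type*} [NormedAddCommGroup H] [InnerProductSpace ℂ H]
    (Rel : H → H → Prop) (E : ℂ) (M : ℕ)
    (hM : ∀ (m : ℕ) (w : Fin m → H), Orthonormal ℂ w →
      (∀ i, ∃ f : H, Rel (w i) (E • w i + f) ∧ ⟪w i, f⟫_ℂ = 0) → m ≤ M)
    (P P1 : Submodule ℂ H) (hle : P ≤ P1) (hmem : ∀ u ∈ P1, ∃ f ∈ P, Rel u (E • u + f))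
    (m : ℕ) (b : Fin m → H) (hb : Orthonormal ℂ b) (hspan : Submodule.span ℂ (Set.range b) = P)
    (hprop : ∀ i, ∃ f : H, Rel (b i) (E • b i + f) ∧ ⟪b i, f⟫_ℂ = 0) :
    ∃ (m' : ℕ) (b' : Fin m' → H), Orthonormal ℂ b' ∧ Submodule.span ℂ (Set.range b') = P1 ∧
      ∀ i, ∃ f : H, Rel (b' i) (E • b' i + f) ∧ ⟪b' i, f⟫_ℂ = 0 := by
  have app : ∀ (l : ℕ) (c : Fin l → H), Orthonormal ℂ c → (∀ i, c i ∈ P1) → (∀ i, ∀ g ∈ P, ⟪g, c i⟫_ℂ = 0) →
      Orthonormal ℂ (Fin.append b c) ∧
      ∀ i, ∃ f : H, Rel (Fin.append b c i) (E • Fin.append b c i + f) ∧ ⟪Fin.append b c i, f⟫_ℂ = 0 := by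
    intro l c hc hc1 hc2
    refine ⟨append_orth b c hb hc (fun i j => hc2 j (b i) ?_), fun i => ?_⟩
    · rw [← hspan]
      exact Submodule.subset_span ⟨i, rfl⟩
    · refine Fin.addCases (fun i => ?_) (fun i => ?_) i
      · rw [Fin.append_left]; exact hprop i
      · rw [Fin.append_right]
        obtain ⟨f, hf, hrel⟩ := hmem (c i) (hc1 i)
        exact ⟨f, hrel, inner_eq_zero_symm.mp (hc2 i f hf)⟩
  obtain ⟨l, ⟨c, hc, hc1, hc2⟩, hnot⟩ := exists_step
    (fun l => ∃ c : Fin l → H, Orthonormal ℂ c ∧ (∀ i, c i ∈ P1) ∧ (∀ i, ∀ g ∈ P, ⟪g, c i⟫_ℂ = 0))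
    ⟨Fin.elim0, ⟨fun i => i.elim0, fun i => i.elim0⟩, fun i => i.elim0, fun i => i.elim0⟩ M (by
      rintro l ⟨c, hc, hc1, hc2⟩
      obtain ⟨h1, h2⟩ := app l c hc hc1 hc2
      have := hM (m + l) _ h1 h2
      omega)
  obtain ⟨h1, h2⟩ := app l c hc hc1 hc2
  refine ⟨m + l, Fin.append b c, h1, ?_, h2⟩
  apply le_antisymm
  · rw [Submodule.span_le]
    rintro _ ⟨i, rfl⟩
    refine Fin.addCases (fun i => ?_) (fun i => ?_) i
    · show Fin.append b c (Fin.castAdd l i) ∈ P1
      rw [Fin.append_left]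
      apply hle
      rw [← hspan]
      exact Submodule.subset_span ⟨i, rfl⟩
    · show Fin.append b c (Fin.natAdd m i) ∈ P1
      rw [Fin.append_right]
      exact hc1 i
  · intro u hu
    by_contra hnu
    obtain ⟨S, hS⟩ : ∃ S : Submodule ℂ H, S = Submodule.span ℂ (Set.range (Fin.append b c)) := ⟨_, rfl⟩
    rw [← hS] at hnu
    haveI : FiniteDimensional ℂ S := by
      rw [hS]
      exact FiniteDimensional.span_of_finite ℂ (Set.finite_range _)
    have hSP : S ≤ P1 := by
      rw [hS, Submodule.span_le]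
      rintro _ ⟨i, rfl⟩
      refine Fin.addCases (fun i => ?_) (fun i => ?_) i
      · show Fin.append b c (Fin.castAdd l i) ∈ P1
        rw [Fin.append_left]
        apply hle
        rw [← hspan]
        exact Submodule.subset_span ⟨i, rfl⟩
      · show Fin.append b c (Fin.natAdd m i) ∈ P1
        rw [Fin.append_right]
        exact hc1 i
    have hPS : P ≤ S := by
      rw [← hspan, Submodule.span_le]
      rintro _ ⟨i, rfl⟩
      rw [hS]
      exact Submodule.subset_span ⟨Fin.castAdd l i, Fin.append_left _ _ _⟩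
    have hcS : ∀ i, c i ∈ S := by
      intro i
      rw [hS]
      exact Submodule.subset_span ⟨Fin.natAdd m i, Fin.append_right _ _ _⟩
    obtain ⟨u', hu'⟩ : ∃ u' : H, u' = u - S.starProjection u := ⟨_, rfl⟩
    have hproj : S.starProjection u ∈ S := Submodule.starProjection_apply_mem S u
    have horth : u' ∈ Sᗮ := by
      rw [hu']
      exact Submodule.sub_starProjection_mem_orthogonal u
    have hne : u' ≠ 0 := by
      intro h
      apply hnu
      have h3 : u = S.starProjection u := by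
        rw [hu', sub_eq_zero] at h
        exact h
      rw [h3]
      exact hproj
    have hu1 : u' ∈ P1 := by
      rw [hu']
      exact P1.sub_mem hu (hSP hproj)
    obtain ⟨e, he⟩ : ∃ e : H, e = ((‖u'‖ : ℂ)⁻¹) • u' := ⟨_, rfl⟩
    have he1 : ‖e‖ = 1 := by
      rw [he]
      exact norm_smul_inv_norm hne
    have heP : e ∈ P1 := by
      rw [he]
      exact P1.smul_mem _ hu1
    have heS : ∀ g ∈ S, ⟪g, e⟫_ℂ = 0 := by
      intro g hg
      rw [he, inner_smul_right, (Submodule.mem_orthogonal S u').mp horth g hg, mul_zero]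
    apply hnot
    refine ⟨Fin.append c (fun _ : Fin 1 => e), ?_, ?_, ?_⟩
    · apply append_orth c _ hc
      · constructor
        · intro i; exact he1
        · intro i j hij
          exact absurd (Subsingleton.elim i j) hij
      · intro i j
        exact heS (c i) (hcS i)
    · intro i
      refine Fin.addCases (fun i => ?_) (fun i => ?_) i
      · rw [Fin.append_left]; exact hc1 i
      · rw [Fin.append_right]; exact heP
    · intro i
      refine Fin.addCases (fun i => ?_) (fun i => ?_) i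
      · rw [Fin.append_left]; exact hc2 i
      · rw [Fin.append_right]
        intro g hg
        exact heS g (hPS hg)

end J_F1_fingen

/-- TARGET -/
theorem finite_gen {H : Type*} [NormedAddCommGroup H] [InnerProductSpace ℂ H]
    (Rel : H → H → Prop) (h0 : Rel 0 0)
    (hadd : ∀ a b c d, Rel a b → Rel c d → Rel (a + c) (b + d))
    (hsmul : ∀ (t : ℂ) a b, Rel a b → Rel (t • a) (t • b)) (E : ℂ) (M : ℕ)
    (hM : ∀ (m : ℕ) (w : Fin m → H), Orthonormal ℂ w →
      (∀ i, ∃ f : H, Rel (w i) (E • w i + f) ∧ ⟪w i, f⟫_ℂ = 0) → m ≤ M) :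
    Module.Finite ℂ (gen Rel E) ∧ Module.finrank ℂ (gen Rel E) ≤ M := by
  have hstep : ∀ P : Submodule ℂ H, ∃ P' : Submodule ℂ H, ∀ u, u ∈ P' ↔ ∃ f ∈ P, Rel u (E • u + f) := by
    intro P
    refine ⟨{ carrier := {u | ∃ f ∈ P, Rel u (E • u + f)}, add_mem' := ?_, zero_mem' := ?_, smul_mem' := ?_ },
      fun u => Iff.rfl⟩
    · rintro u v ⟨f, hf, hu⟩ ⟨g, hg, hv⟩
      refine ⟨f + g, P.add_mem hf hg, ?_⟩
      have h1 := hadd _ _ _ _ hu hv
      have h2 : E • (u + v) + (f + g) = E • u + f + (E • v + g) := by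
        rw [smul_add]; abel
      rw [h2]
      exact h1
    · refine ⟨0, P.zero_mem, ?_⟩
      rw [smul_zero, add_zero]
      exact h0
    · rintro t u ⟨f, hf, hu⟩
      refine ⟨t • f, P.smul_mem t hf, ?_⟩
      have h1 := hsmul t _ _ hu
      have h2 : E • t • u + t • f = t • (E • u + f) := by
        rw [smul_add, smul_comm]
      rw [h2]
      exact h1
  choose st hst using hstep
  obtain ⟨G, hG0, hG1⟩ : ∃ G : ℕ → Submodule ℂ H, G 0 = ⊥ ∧ ∀ k, G (k + 1) = st (G k) :=
    ⟨fun k => Nat.rec ⊥ (fun _ P => st P) k, rfl, fun k => rfl⟩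
  have hG : ∀ k u, u ∈ G (k + 1) ↔ ∃ f ∈ G k, Rel u (E • u + f) := by
    intro k u
    rw [hG1 k]
    exact hst (G k) u
  have hmono1 : ∀ k, G k ≤ G (k + 1) := by
    intro k
    induction k with
    | zero => rw [hG0]; exact bot_le
    | succ k ih =>
      intro u hu
      obtain ⟨f, hf, hrel⟩ := (hG k u).mp hu
      exact (hG (k + 1) u).mpr ⟨f, ih hf, hrel⟩
  have hmono : Monotone G := monotone_nat_of_le_succ hmono1
  have hQ : ∀ k, ∃ (m : ℕ) (b : Fin m → H), Orthonormal ℂ b ∧ Submodule.span ℂ (Set.range b) = G k ∧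
      ∀ i, ∃ f : H, Rel (b i) (E • b i + f) ∧ ⟪b i, f⟫_ℂ = 0 := by
    intro k
    induction k with
    | zero =>
      refine ⟨0, Fin.elim0, ⟨fun i => i.elim0, fun i => i.elim0⟩, ?_, fun i => i.elim0⟩
      rw [hG0, Set.range_eq_empty, Submodule.span_empty]
    | succ k ih =>
      obtain ⟨m, b, hb, hspan, hprop⟩ := ih
      exact J_F1_fingen.stepQ Rel E M hM (G k) (G (k + 1)) (hmono1 k) (fun u hu => (hG k u).mp hu) m b hb hspan hprop
  have hfin : ∀ k, Module.Finite ℂ (G k) := by
    intro k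
    obtain ⟨m, b, hb, hspan, hprop⟩ := hQ k
    rw [← hspan]
    exact FiniteDimensional.span_of_finite ℂ (Set.finite_range _)
  have hrank : ∀ k, Module.finrank ℂ (G k) ≤ M := by
    intro k
    obtain ⟨m, b, hb, hspan, hprop⟩ := hQ k
    have h1 := hM m b hb hprop
    have h2 : Module.finrank ℂ (G k) ≤ m := by
      rw [← hspan]
      have := finrank_range_le_card (R := ℂ) b
      simpa [Set.finrank] using this
    omega
  obtain ⟨k0, hk0⟩ := J_F1_fingen.exists_max M (fun k => Module.finrank ℂ (G k)) hrank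
  have hall : ∀ n, G n ≤ G k0 := by
    intro n
    rcases le_total n k0 with h | h
    · exact hmono h
    · haveI := hfin n
      have : G k0 = G n := Submodule.eq_of_le_of_finrank_le (hmono h) (hk0 n)
      rw [this]
  have hgen : gen Rel E ≤ G k0 := by
    unfold gen
    rw [Submodule.span_le]
    rintro v ⟨n, f, hf0, hfn, hf⟩
    have hchain : ∀ j, j ≤ n → f (n - j) ∈ G j := by
      intro j
      induction j with
      | zero =>
        intro _
        rw [Nat.sub_zero, hfn]
        exact (G 0).zero_mem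
      | succ j ih =>
        intro hj
        have h1 := ih (by omega)
        have h2 := hf (n - (j + 1)) (by omega)
        have h3 : n - (j + 1) + 1 = n - j := by omega
        rw [h3] at h2
        exact (hG j _).mpr ⟨_, h1, h2⟩
    have h1 := hchain n le_rfl
    rw [Nat.sub_self, hf0] at h1
    exact hall n h1
  haveI := hfin k0
  exact ⟨Submodule.finiteDimensional_of_le hgen, (Submodule.finrank_mono hgen).trans (hrank k0)⟩

end Pool.Agent.Helper31_CP

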