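import Mathlib
import Pool.Agent.Helper31_CP.Defs
import Pool.Agent.Helper31_CP.A2_greedy

set_option autoImplicit false

namespace Pool.Agent.Helper31_CP

open scoped InnerProductSpace

namespace J_F2_formbound

theorem quad {b q θ : ℝ} (hθ : 0 ≤ θ) (hq : 0 ≤ q) (h : q ^ 2 ≤ b * (θ * q)) (hb : 0 ≤ b) :
    q ≤ θ * b := by
  rcases hq.eq_or_lt with h0 | h0
  · rw [← h0]; positivity
  · have : q * q ≤ (θ * b) * q := by nlinarith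
    exact le_of_mul_le_mul_right this h0

theorem inner_T {H V : Type*} [NormedAddCommGroup H] [InnerProductSpace ℂ H]
    [CompleteSpace H] [NormedAddCommGroup V] [InnerProductSpace ℂ V] [CompleteSpace V]
    (J : V →L[ℂ] H) (x : H) :
    (⟪x, (J ∘L ContinuousLinearMap.adjoint J) x⟫_ℂ).re = ‖ContinuousLinearMap.adjoint J x‖ ^ 2 := by
  rw [ContinuousLinearMap.comp_apply, ← ContinuousLinearMap.adjoint_inner_left]
  exact (inner_self_eq_norm_sq (𝕜 := ℂ) (ContinuousLinearMap.adjoint J x))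

end J_F2_formbound

/-- TARGET -/
theorem form_bound {H V : Type*} [NormedAddCommGroup H] [InnerProductSpace ℂ H]
    [CompleteSpace H] [NormedAddCommGroup V] [InnerProductSpace ℂ V] [CompleteSpace V]
    (J : V →L[ℂ] H) (hJ : ∀ u, ‖J u‖ ≤ ‖u‖) (lam : ℝ) (hlam : 0 < lam)
    (F : Submodule ℂ H) [FiniteDimensional ℂ F]
    (hF : ∀ u : V, (∀ f ∈ F, ⟪f, J u⟫_ℂ = 0) → (1 + 2 * lam) * ‖J u‖ ^ 2 ≤ ‖u‖ ^ 2) :
    ∃ (n : ℕ) (e : Fin n → H), Orthonormal ℂ e ∧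
      ∀ z : V, (1 + 2 * lam) * ‖J z‖ ^ 2 ≤ ‖z‖ ^ 2 + (1 + 2 * lam) * ∑ j, ‖⟪e j, J z⟫_ℂ‖ ^ 2 := by
  classical
  set T : H →L[ℂ] H := J ∘L ContinuousLinearMap.adjoint J with hTdef
  have hTapp : ∀ x, T x = J (ContinuousLinearMap.adjoint J x) := fun x => rfl
  have hTsym : ∀ x y : H, ⟪T x, y⟫_ℂ = ⟪x, T y⟫_ℂ := by
    intro x y
    rw [hTapp, hTapp, ← ContinuousLinearMap.adjoint_inner_right, ContinuousLinearMap.adjoint_inner_left]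
  have hpos : (0 : ℝ) < 1 + 2 * lam := by linarith
  have hθpos : (0 : ℝ) < 1 / (1 + 2 * lam) := by positivity
  have hθ1 : (1 + 2 * lam) * (1 / (1 + 2 * lam)) = 1 := by field_simp
  have key : ∀ x : H, (∀ f ∈ F.map (T : H →ₗ[ℂ] H), ⟪f, x⟫_ℂ = 0) →
      (⟪x, T x⟫_ℂ).re ≤ 1 / (1 + 2 * lam) * ‖x‖ ^ 2 := by
    intro x hx
    have h1 : ∀ f ∈ F, ⟪f, J (ContinuousLinearMap.adjoint J x)⟫_ℂ = 0 := by
      intro f hf
      rw [← hTapp, ← hTsym]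
      exact hx (T f) (Submodule.mem_map_of_mem (f := (T : H →ₗ[ℂ] H)) hf)
    have h2 := hF _ h1
    have h3 := J_F2_formbound.inner_T J x
    rw [← hTdef] at h3
    rw [h3]
    have h4 : ‖ContinuousLinearMap.adjoint J x‖ ^ 2 ≤ ‖x‖ * ‖T x‖ := by
      rw [← h3]
      exact (Complex.re_le_norm _).trans (norm_inner_le_norm x (T x))
    rw [← hTapp] at h2
    have h5 : ‖T x‖ ^ 2 ≤ 1 / (1 + 2 * lam) * ‖ContinuousLinearMap.adjoint J x‖ ^ 2 := by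
      rw [one_div, ← div_eq_inv_mul, le_div_iff₀ hpos]
      linarith
    refine J_F2_formbound.quad hθpos.le (by positivity) ?_ (by positivity)
    calc (‖ContinuousLinearMap.adjoint J x‖ ^ 2) ^ 2 ≤ (‖x‖ * ‖T x‖) ^ 2 :=
          pow_le_pow_left₀ (by positivity) h4 2
      _ = ‖x‖ ^ 2 * ‖T x‖ ^ 2 := by ring
      _ ≤ ‖x‖ ^ 2 * (1 / (1 + 2 * lam) * ‖ContinuousLinearMap.adjoint J x‖ ^ 2) :=
          mul_le_mul_of_nonneg_left h5 (by positivity)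
  obtain ⟨n, e, τ, -, he, heT, hτ, hrest⟩ := greedy T hTsym (F.map (T : H →ₗ[ℂ] H)) (1 / (1 + 2 * lam)) key
  refine ⟨n, e, he, fun z => ?_⟩
  have hτ0 : ∀ j, (τ j : ℂ) ≠ 0 := fun j => by
    have : τ j ≠ 0 := (hθpos.trans (hτ j)).ne'
    exact_mod_cast this
  let u : Fin n → V := fun j => ((τ j : ℂ)⁻¹) • ContinuousLinearMap.adjoint J (e j)
  have hJu : ∀ j, J (u j) = e j := by
    intro j
    show J (((τ j : ℂ)⁻¹) • ContinuousLinearMap.adjoint J (e j)) = e j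
    rw [map_smul, ← hTapp, heT, smul_smul, inv_mul_cancel₀ (hτ0 j), one_smul]
  let w : V := ∑ j, ⟪e j, J z⟫_ℂ • u j
  have hJw : J w = ∑ j, ⟪e j, J z⟫_ℂ • e j := by
    show J (∑ j, ⟪e j, J z⟫_ℂ • u j) = _
    rw [map_sum]
    exact Finset.sum_congr rfl (fun j _ => by rw [map_smul, hJu])
  have hperp : ∀ i, ⟪e i, J (z - w)⟫_ℂ = 0 := by
    intro i
    rw [map_sub, inner_sub_right, hJw, he.inner_right_fintype, sub_self]
  have huz : ∀ j, ⟪u j, z - w⟫_ℂ = 0 := by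
    intro j
    show ⟪((τ j : ℂ)⁻¹) • ContinuousLinearMap.adjoint J (e j), z - w⟫_ℂ = 0
    rw [inner_smul_left, ContinuousLinearMap.adjoint_inner_left, hperp, mul_zero]
  have hwz : ⟪w, z - w⟫_ℂ = 0 := by
    show ⟪∑ j, ⟪e j, J z⟫_ℂ • u j, z - w⟫_ℂ = 0
    rw [sum_inner]
    refine Finset.sum_eq_zero (fun j _ => ?_)
    rw [inner_smul_left, huz, mul_zero]
  have hz : ‖z‖ * ‖z‖ = ‖w‖ * ‖w‖ + ‖z - w‖ * ‖z - w‖ := by
    have h := norm_add_sq_eq_norm_sq_add_norm_sq_of_inner_eq_zero w (z - w) hwz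
    rwa [add_sub_cancel] at h
  have hJz : ‖J z‖ * ‖J z‖ = ‖J w‖ * ‖J w‖ + ‖J (z - w)‖ * ‖J (z - w)‖ := by
    have h0 : ⟪J w, J (z - w)⟫_ℂ = 0 := by
      rw [hJw, sum_inner]
      refine Finset.sum_eq_zero (fun j _ => ?_)
      rw [inner_smul_left, hperp, mul_zero]
    have h := norm_add_sq_eq_norm_sq_add_norm_sq_of_inner_eq_zero (J w) (J (z - w)) h0
    rwa [← map_add, add_sub_cancel] at h
  have hJw2 : ‖J w‖ ^ 2 = ∑ j, ‖⟪e j, J z⟫_ℂ‖ ^ 2 := by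
    rw [hJw]
    have h := he.inner_sum (fun j => ⟪e j, J z⟫_ℂ) (fun j => ⟪e j, J z⟫_ℂ) Finset.univ
    have h1 : ‖∑ j, ⟪e j, J z⟫_ℂ • e j‖ ^ 2 = (⟪∑ j, ⟪e j, J z⟫_ℂ • e j, ∑ j, ⟪e j, J z⟫_ℂ • e j⟫_ℂ).re :=
      (inner_self_eq_norm_sq (𝕜 := ℂ) (∑ j, ⟪e j, J z⟫_ℂ • e j)).symm
    rw [h1, h, Complex.re_sum]
    refine Finset.sum_congr rfl (fun j _ => ?_)
    rw [← Complex.normSq_eq_conj_mul_self, Complex.ofReal_re, Complex.normSq_eq_norm_sq]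
  -- the bound for y
  have hy : ‖J (z - w)‖ ^ 2 ≤ 1 / (1 + 2 * lam) * ‖z - w‖ ^ 2 := by
    have h1 := hrest (J (z - w)) hperp
    rw [hTdef, J_F2_formbound.inner_T J] at h1
    have h2 : ‖J (z - w)‖ ^ 2 ≤ ‖ContinuousLinearMap.adjoint J (J (z - w))‖ * ‖z - w‖ := by
      have h3 : ‖J (z - w)‖ ^ 2 = (⟪J (z - w), J (z - w)⟫_ℂ).re :=
        (inner_self_eq_norm_sq (𝕜 := ℂ) (J (z - w))).symm
      rw [h3, ← ContinuousLinearMap.adjoint_inner_left]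
      exact (Complex.re_le_norm _).trans (norm_inner_le_norm _ _)
    refine J_F2_formbound.quad hθpos.le (by positivity) ?_ (by positivity)
    calc (‖J (z - w)‖ ^ 2) ^ 2 ≤ (‖ContinuousLinearMap.adjoint J (J (z - w))‖ * ‖z - w‖) ^ 2 :=
          pow_le_pow_left₀ (by positivity) h2 2
      _ = ‖z - w‖ ^ 2 * ‖ContinuousLinearMap.adjoint J (J (z - w))‖ ^ 2 := by ring
      _ ≤ ‖z - w‖ ^ 2 * (1 / (1 + 2 * lam) * ‖J (z - w)‖ ^ 2) :=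
          mul_le_mul_of_nonneg_left h1 (by positivity)
  have hzw : ‖z - w‖ ^ 2 ≤ ‖z‖ ^ 2 := by nlinarith [norm_nonneg w]
  have hfin : (1 + 2 * lam) * ‖J (z - w)‖ ^ 2 ≤ ‖z‖ ^ 2 := by
    calc (1 + 2 * lam) * ‖J (z - w)‖ ^ 2 ≤ (1 + 2 * lam) * (1 / (1 + 2 * lam) * ‖z - w‖ ^ 2) :=
          mul_le_mul_of_nonneg_left hy hpos.le
      _ = ‖z - w‖ ^ 2 := by rw [← mul_assoc, hθ1, one_mul]
      _ ≤ ‖z‖ ^ 2 := hzw
  have hJz2 : ‖J z‖ ^ 2 = (∑ j, ‖⟪e j, J z⟫_ℂ‖ ^ 2) + ‖J (z - w)‖ ^ 2 := by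
    rw [← hJw2]; nlinarith [hJz]
  rw [hJz2, mul_add]
  linarith

end Pool.Agent.Helper31_CP
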