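import Mathlib
import Pool.Agent.Helper31_CP.Defs

set_option autoImplicit false

namespace Pool.Agent.Helper31_CP

open MeasureTheory Filter Topology Set
open scoped InnerProductSpace

theorem F3_lin_int {d : ℕ} {f g : EE d → ℂ} (hf : MemLp f 2 volume) (hg : MemLp g 2 volume) :
    Integrable (fun x => f x * g x) volume := hf.integrable_mul hg

theorem F3_lin_conj {d : ℕ} (v : HH d) :
    MemLp (fun x => (starRingEnd ℂ) (v x)) 2 volume :=
  (Lp.memLp v).of_le (Complex.continuous_conj.comp_aestronglyMeasurable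
    (Lp.aestronglyMeasurable v)) (ae_of_all _ fun x => by simp)

theorem F3_lin_pd {d : ℕ} (i : Fin d) {φ : EE d → ℂ} (hφ : IsTest φ) :
    MemLp (pd i φ) 2 volume := by
  have h1 : Continuous (pd i φ) :=
    (hφ.1.continuous_fderiv (by simp)).clm_apply continuous_const
  have h2 : HasCompactSupport (pd i φ) := hφ.2.fderiv_apply ℝ (EuclideanSpace.single i 1)
  exact h1.memLp_of_hasCompactSupport h2

theorem F3_lin_phi {d : ℕ} {φ : EE d → ℂ} (hφ : IsTest φ) : MemLp φ 2 volume :=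
  hφ.1.continuous.memLp_of_hasCompactSupport hφ.2

theorem F3_lin_meas {d : ℕ} (V : EE d → ℂ) (hV : Measurable V) (u : HH d) :
    AEStronglyMeasurable (fun x => ‖V x‖ * ‖u x‖ ^ 2) volume :=
  hV.norm.aestronglyMeasurable.mul ((Lp.aestronglyMeasurable u).norm.pow 2)

theorem F3_lin_pot_add {d : ℕ} {V : EE d → ℂ} (hV : Measurable V) {u u' : HH d}
    (hu : FinPot V u) (hu' : FinPot V u') : FinPot V (u + u') := by
  refine ((hu.add hu').const_mul 2).mono' (F3_lin_meas V hV (u + u')) ?_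
  filter_upwards [Lp.coeFn_add u u'] with x hx
  rw [hx]
  have h0 := norm_nonneg (V x)
  have h1 : ‖(⇑u + ⇑u') x‖ ≤ ‖u x‖ + ‖u' x‖ := norm_add_le _ _
  have h2 := norm_nonneg (u x)
  have h3 := norm_nonneg (u' x)
  have h4 := norm_nonneg ((⇑u + ⇑u') x)
  have h5 : ‖(⇑u + ⇑u') x‖ ^ 2 ≤ 2 * (‖u x‖ ^ 2 + ‖u' x‖ ^ 2) := by
    nlinarith [sq_nonneg (‖u x‖ - ‖u' x‖)]
  rw [Real.norm_of_nonneg (by positivity)]
  calc ‖V x‖ * ‖(⇑u + ⇑u') x‖ ^ 2 ≤ ‖V x‖ * (2 * (‖u x‖ ^ 2 + ‖u' x‖ ^ 2)) :=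
        mul_le_mul_of_nonneg_left h5 h0
    _ = 2 * ((fun x => ‖V x‖ * ‖u x‖ ^ 2) + fun x => ‖V x‖ * ‖u' x‖ ^ 2) x := by
        simp only [Pi.add_apply]
        ring

theorem F3_lin_pot_smul {d : ℕ} {V : EE d → ℂ} (t : ℂ) {u : HH d}
    (hu : FinPot V u) : FinPot V (t • u) := by
  refine (hu.const_mul (‖t‖ ^ 2)).congr ?_
  filter_upwards [Lp.coeFn_smul t u] with x hx
  rw [hx, Pi.smul_apply, norm_smul]
  ring

theorem F3_lin_pot_zero {d : ℕ} (V : EE d → ℂ) : FinPot V (0 : HH d) := by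
  refine (integrable_zero (EE d) ℝ volume).congr ?_
  filter_upwards [Lp.coeFn_zero (E := ℂ) (p := 2) (μ := (volume : Measure (EE d)))] with x hx
  rw [hx]
  simp

theorem F3_lin_pot_int {d : ℕ} {V : EE d → ℂ} (hV : Measurable V) {u v : HH d}
    (hu : FinPot V u) (hv : FinPot V v) :
    Integrable (fun x => V x * u x * (starRingEnd ℂ) (v x)) volume := by
  refine (hu.add hv).mono' ?_ ?_
  · exact (hV.aestronglyMeasurable.mul (Lp.aestronglyMeasurable u)).mul
      (Complex.continuous_conj.comp_aestronglyMeasurable (Lp.aestronglyMeasurable v))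
  · refine ae_of_all _ fun x => ?_
    rw [norm_mul, norm_mul, Complex.norm_conj]
    have h0 := norm_nonneg (V x)
    have h2 := norm_nonneg (u x)
    have h3 := norm_nonneg (v x)
    have h5 : ‖u x‖ * ‖v x‖ ≤ ‖u x‖ ^ 2 + ‖v x‖ ^ 2 := by
      nlinarith [sq_nonneg (‖u x‖ - ‖v x‖), sq_nonneg (‖u x‖), sq_nonneg (‖v x‖)]
    calc ‖V x‖ * ‖u x‖ * ‖v x‖ = ‖V x‖ * (‖u x‖ * ‖v x‖) := by ring
      _ ≤ ‖V x‖ * (‖u x‖ ^ 2 + ‖v x‖ ^ 2) := mul_le_mul_of_nonneg_left h5 h0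
      _ = ((fun x => ‖V x‖ * ‖u x‖ ^ 2) + fun x => ‖V x‖ * ‖v x‖ ^ 2) x := by
          simp only [Pi.add_apply]
          ring

theorem F3_lin_WD_add {d : ℕ} (i : Fin d) {u u' p p' : HH d} (h : WD i u p) (h' : WD i u' p') :
    WD i (⇑(u + u')) (⇑(p + p')) := by
  intro φ hφ
  have e1 : ∫ x, (u + u' : HH d) x * pd i φ x =
      (∫ x, u x * pd i φ x) + ∫ x, u' x * pd i φ x := by
    rw [← integral_add (F3_lin_int (Lp.memLp u) (F3_lin_pd i hφ))
      (F3_lin_int (Lp.memLp u') (F3_lin_pd i hφ))]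
    refine integral_congr_ae ?_
    filter_upwards [Lp.coeFn_add u u'] with x hx
    rw [hx, Pi.add_apply, add_mul]
  have e2 : ∫ x, (p + p' : HH d) x * φ x =
      (∫ x, p x * φ x) + ∫ x, p' x * φ x := by
    rw [← integral_add (F3_lin_int (Lp.memLp p) (F3_lin_phi hφ))
      (F3_lin_int (Lp.memLp p') (F3_lin_phi hφ))]
    refine integral_congr_ae ?_
    filter_upwards [Lp.coeFn_add p p'] with x hx
    rw [hx, Pi.add_apply, add_mul]
  rw [e1, e2, h φ hφ, h' φ hφ]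
  ring

theorem F3_lin_WD_smul {d : ℕ} (i : Fin d) (t : ℂ) {u p : HH d} (h : WD i u p) :
    WD i (⇑(t • u)) (⇑(t • p)) := by
  intro φ hφ
  have e1 : ∫ x, (t • u : HH d) x * pd i φ x = t * ∫ x, u x * pd i φ x := by
    rw [← integral_const_mul]
    refine integral_congr_ae ?_
    filter_upwards [Lp.coeFn_smul t u] with x hx
    rw [hx, Pi.smul_apply, smul_eq_mul, mul_assoc]
  have e2 : ∫ x, (t • p : HH d) x * φ x = t * ∫ x, p x * φ x := by
    rw [← integral_const_mul]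
    refine integral_congr_ae ?_
    filter_upwards [Lp.coeFn_smul t p] with x hx
    rw [hx, Pi.smul_apply, smul_eq_mul, mul_assoc]
  rw [e1, e2, h φ hφ]
  ring

theorem F3_lin_pair_add {d : ℕ} (u u' v : HH d) :
    ∫ x, (u + u' : HH d) x * (starRingEnd ℂ) (v x) =
      (∫ x, u x * (starRingEnd ℂ) (v x)) + ∫ x, u' x * (starRingEnd ℂ) (v x) := by
  rw [← integral_add (F3_lin_int (Lp.memLp u) (F3_lin_conj v))
    (F3_lin_int (Lp.memLp u') (F3_lin_conj v))]
  refine integral_congr_ae ?_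
  filter_upwards [Lp.coeFn_add u u'] with x hx
  rw [hx, Pi.add_apply, add_mul]

theorem F3_lin_pair_smul {d : ℕ} (t : ℂ) (u v : HH d) :
    ∫ x, (t • u : HH d) x * (starRingEnd ℂ) (v x) =
      t * ∫ x, u x * (starRingEnd ℂ) (v x) := by
  rw [← integral_const_mul]
  refine integral_congr_ae ?_
  filter_upwards [Lp.coeFn_smul t u] with x hx
  rw [hx, Pi.smul_apply, smul_eq_mul, mul_assoc]

theorem F3_lin_V_add {d : ℕ} {V : EE d → ℂ} (hV : Measurable V) {u u' v : HH d}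
    (hu : FinPot V u) (hu' : FinPot V u') (hv : FinPot V v) :
    ∫ x, V x * (u + u' : HH d) x * (starRingEnd ℂ) (v x) =
      (∫ x, V x * u x * (starRingEnd ℂ) (v x)) + ∫ x, V x * u' x * (starRingEnd ℂ) (v x) := by
  rw [← integral_add (F3_lin_pot_int hV hu hv) (F3_lin_pot_int hV hu' hv)]
  refine integral_congr_ae ?_
  filter_upwards [Lp.coeFn_add u u'] with x hx
  rw [hx, Pi.add_apply]
  ring

theorem F3_lin_V_smul {d : ℕ} {V : EE d → ℂ} (t : ℂ) (u v : HH d) :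
    ∫ x, V x * (t • u : HH d) x * (starRingEnd ℂ) (v x) =
      t * ∫ x, V x * u x * (starRingEnd ℂ) (v x) := by
  rw [← integral_const_mul]
  refine integral_congr_ae ?_
  filter_upwards [Lp.coeFn_smul t u] with x hx
  rw [hx, Pi.smul_apply, smul_eq_mul]
  ring

/-- TARGET -/
theorem isHu_linear {d : ℕ} (h : ℝ) (V : EE d → ℂ) (hV : Measurable V) :
    IsHu h V 0 0 ∧
    (∀ u f u' f' : HH d, IsHu h V u f → IsHu h V u' f' → IsHu h V (u + u') (f + f')) ∧
    (∀ (t : ℂ) (u f : HH d), IsHu h V u f → IsHu h V (t • u) (t • f)) := by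
  refine ⟨⟨F3_lin_pot_zero V, fun _ => 0, ?_, ?_⟩, ?_, ?_⟩
  · intro i
    have h0 : WD i (⇑((0 : ℂ) • (0 : HH d))) (⇑((0 : ℂ) • (0 : HH d))) := by
      intro φ hφ
      have e1 : ∀ ψ : EE d → ℂ, ∫ x, ((0 : ℂ) • (0 : HH d) : HH d) x * ψ x = 0 := by
        intro ψ
        refine (integral_congr_ae (g := fun _ => (0 : ℂ)) ?_).trans (integral_zero (EE d) ℂ)
        filter_upwards [Lp.coeFn_smul (0 : ℂ) (0 : HH d)] with x hx
        rw [hx, Pi.smul_apply, zero_smul, zero_mul]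
      rw [e1, e1, neg_zero]
    rwa [zero_smul] at h0
  · intro v q _ _
    have e0 : ∀ w : HH d, ∫ x, (0 : HH d) x * (starRingEnd ℂ) (w x) = 0 := by
      intro w
      have := F3_lin_pair_smul (0 : ℂ) (0 : HH d) w
      rwa [zero_smul, zero_mul] at this
    have e1 : ∫ x, V x * (0 : HH d) x * (starRingEnd ℂ) (v x) = 0 := by
      have := F3_lin_V_smul (V := V) (0 : ℂ) (0 : HH d) v
      rwa [zero_smul, zero_mul] at this
    rw [e0, e1]
    simp only [e0, Finset.sum_const_zero, mul_zero, add_zero]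
  · rintro u f u' f' ⟨hu, p, hp, he⟩ ⟨hu', p', hp', he'⟩
    refine ⟨F3_lin_pot_add hV hu hu', fun i => p i + p' i,
      fun i => F3_lin_WD_add i (hp i) (hp' i), ?_⟩
    intro v q hv hq
    have h1 := he v q hv hq
    have h2 := he' v q hv hq
    rw [F3_lin_V_add hV hu hu' hv, F3_lin_pair_add f f' v, ← h1, ← h2]
    simp only [F3_lin_pair_add, Finset.sum_add_distrib]
    ring
  · rintro t u f ⟨hu, p, hp, he⟩
    refine ⟨F3_lin_pot_smul t hu, fun i => t • p i, fun i => F3_lin_WD_smul i t (hp i), ?_⟩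
    intro v q hv hq
    have h1 := he v q hv hq
    rw [F3_lin_V_smul, F3_lin_pair_smul, ← h1]
    simp only [F3_lin_pair_smul, ← Finset.mul_sum]
    ring

end Pool.Agent.Helper31_CP
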