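import Mathlib
import Pool.Agent.Helper31_CP.Defs

set_option autoImplicit false

namespace Pool.Agent.Helper31_CP

open MeasureTheory Filter Topology Set
open scoped InnerProductSpace

namespace J_F4_energy

open MeasureTheory Filter Topology Set
open scoped InnerProductSpace

variable {d : ℕ}

theorem norm_sq_eq (u : HH d) : ‖u‖ ^ 2 = ∫ x, ‖u x‖ ^ 2 := by
  have h1 : ((‖u‖ ^ 2 : ℝ) : ℂ) = ⟪u, u⟫_ℂ := by
    rw [inner_self_eq_norm_sq_to_K]
    push_cast
    rfl
  rw [L2.inner_def] at h1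
  have h2 : ∀ x, ⟪u x, u x⟫_ℂ = ((‖u x‖ ^ 2 : ℝ) : ℂ) := by
    intro x
    rw [inner_self_eq_norm_sq_to_K]
    push_cast
    rfl
  simp_rw [h2] at h1
  rw [integral_complex_ofReal] at h1
  exact_mod_cast h1

theorem int_sq (u : HH d) : Integrable (fun x => ‖u x‖ ^ 2) (volume : Measure (EE d)) :=
  (Lp.memLp u).integrable_norm_pow (by norm_num)

theorem mul_conj (z : ℂ) : z * (starRingEnd ℂ) z = ((‖z‖ ^ 2 : ℝ) : ℂ) := by
  rw [Complex.mul_conj, Complex.normSq_eq_norm_sq]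

theorem int_self (u : HH d) : ∫ x, u x * (starRingEnd ℂ) (u x) = ((‖u‖ ^ 2 : ℝ) : ℂ) := by
  simp_rw [mul_conj]
  rw [integral_complex_ofReal, norm_sq_eq]

theorem re_im {E : ℂ} {a b : ℝ} (h : E = (a : ℂ) + Complex.I * (b : ℂ)) : E.re = a ∧ E.im = b := by
  subst h
  constructor <;> simp

end J_F4_energy

/-- TARGET -/
theorem energy (d : ℕ) (h Λ : ℝ) (hh : 0 < h) (hΛ : 0 ≤ Λ)
    (U W : EE d → ℝ) (hU : Measurable U) (hU0 : ∀ x, 0 ≤ U x) (hW : Measurable W)
    (hW2 : ∀ x, (W x) ^ 2 = U x + {x : EE d | 1 ≤ ‖x‖}.indicator (fun _ => Λ) x)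
    (V : EE d → ℂ)
    (hV : ∀ x, V x = (U x : ℂ) + (Metric.ball (0 : EE d) 1).indicator (fun _ => Complex.I) x)
    (w f : HH d) (E : ℂ) (hw : ‖w‖ = 1) (hrel : IsHu h V w (E • w + f)) (hf : ⟪w, f⟫_ℂ = 0) :
    0 ≤ E.re ∧ 0 ≤ E.im ∧ ∃ z : VX d, InV h W z ∧ z none = w ∧
      ‖z‖ ^ 2 = 1 + E.re + Λ * (1 - E.im) := by
  classical
  obtain ⟨hfin, p, hp, hform⟩ := hrel
  have hsq := J_F4_energy.int_sq w
  have hO : MeasurableSet {x : EE d | 1 ≤ ‖x‖} := measurableSet_le measurable_const measurable_norm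
  have hball : MeasurableSet (Metric.ball (0 : EE d) 1) := measurableSet_ball
  have hn1 : ∫ x, ‖w x‖ ^ 2 = 1 := by
    rw [← J_F4_energy.norm_sq_eq, hw, one_pow]
  -- the real part of the potential
  have hVre : ∀ x, (V x).re = U x := by
    intro x
    rw [hV x]
    by_cases hx : x ∈ Metric.ball (0 : EE d) 1
    · rw [Set.indicator_of_mem hx]; simp
    · rw [Set.indicator_of_notMem hx]; simp
  have hUint : Integrable (fun x => U x * ‖w x‖ ^ 2) (volume : Measure (EE d)) := by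
    refine Integrable.mono' hfin ?_ ?_
    · exact hU.aestronglyMeasurable.mul hsq.aestronglyMeasurable
    · refine Eventually.of_forall fun x => ?_
      rw [Real.norm_eq_abs, abs_of_nonneg (mul_nonneg (hU0 x) (by positivity))]
      apply mul_le_mul_of_nonneg_right _ (by positivity)
      rw [← hVre x]
      exact Complex.re_le_norm _
  obtain ⟨A, hA⟩ : ∃ A : ℝ, A = ∫ x, U x * ‖w x‖ ^ 2 := ⟨_, rfl⟩
  obtain ⟨B, hB⟩ : ∃ B : ℝ, B = ∫ x in Metric.ball (0 : EE d) 1, ‖w x‖ ^ 2 := ⟨_, rfl⟩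
  have hA0 : 0 ≤ A := by
    rw [hA]
    exact integral_nonneg fun x => mul_nonneg (hU0 x) (by positivity)
  have hB0 : 0 ≤ B := by
    rw [hB]
    exact integral_nonneg fun x => by positivity
  have hBO : ∫ x in {x : EE d | 1 ≤ ‖x‖}, ‖w x‖ ^ 2 = 1 - B := by
    have hc : {x : EE d | 1 ≤ ‖x‖} = (Metric.ball (0 : EE d) 1)ᶜ := by
      ext x
      simp
    have := integral_add_compl hball hsq
    rw [hc]
    rw [hn1, ← hB] at this
    linarith
  -- the form tested with the function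
  have hf1 := hform w p hfin hp
  have e1 : ∀ i, ∫ x, p i x * (starRingEnd ℂ) (p i x) = ((‖p i‖ ^ 2 : ℝ) : ℂ) := fun i =>
    J_F4_energy.int_self (p i)
  have e2 : ∫ x, V x * w x * (starRingEnd ℂ) (w x) = (A : ℂ) + Complex.I * (B : ℂ) := by
    have hpt : ∀ x, V x * w x * (starRingEnd ℂ) (w x) = ((U x * ‖w x‖ ^ 2 : ℝ) : ℂ) +
        Complex.I * ((((Metric.ball (0 : EE d) 1).indicator (fun x => ‖w x‖ ^ 2) x : ℝ)) : ℂ) := by
      intro x
      rw [mul_assoc, J_F4_energy.mul_conj, hV x]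
      by_cases hx : x ∈ Metric.ball (0 : EE d) 1
      · rw [Set.indicator_of_mem hx, Set.indicator_of_mem hx]
        push_cast
        ring
      · rw [Set.indicator_of_notMem hx, Set.indicator_of_notMem hx]
        push_cast
        ring
    simp_rw [hpt]
    rw [integral_add hUint.ofReal ((hsq.indicator hball).ofReal.const_mul _), integral_const_mul,
      integral_complex_ofReal, integral_complex_ofReal, integral_indicator hball, ← hA, ← hB]
  have e3 : ∫ x, (E • w + f : HH d) x * (starRingEnd ℂ) (w x) = E := by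
    have h1 : ⟪w, E • w + f⟫_ℂ = E := by
      rw [inner_add_right, inner_smul_right, hf, add_zero, inner_self_eq_norm_sq_to_K, hw]
      simp
    rw [L2.inner_def] at h1
    exact Eq.trans rfl h1
  rw [e2, e3] at hf1
  simp_rw [e1] at hf1
  obtain ⟨G, hG⟩ : ∃ G : ℝ, G = ∑ i, ‖p i‖ ^ 2 := ⟨_, rfl⟩
  have hG0 : 0 ≤ G := by
    rw [hG]
    exact Finset.sum_nonneg fun i _ => by positivity
  have hE : E = ((h ^ 2 * G + A : ℝ) : ℂ) + Complex.I * (B : ℂ) := by
    rw [← hf1, hG]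
    push_cast
    ring
  obtain ⟨hEre, hEim⟩ := J_F4_energy.re_im hE
  refine ⟨by rw [hEre]; positivity, by rw [hEim]; exact hB0, ?_⟩
  -- the class of `W w`
  have hW2int : Integrable (fun x => (W x) ^ 2 * ‖w x‖ ^ 2) (volume : Measure (EE d)) := by
    have h1 : (fun x => (W x) ^ 2 * ‖w x‖ ^ 2) = fun x => U x * ‖w x‖ ^ 2 +
        {x : EE d | 1 ≤ ‖x‖}.indicator (fun x => Λ * ‖w x‖ ^ 2) x := by
      funext x
      rw [hW2 x]
      by_cases hx : x ∈ {x : EE d | 1 ≤ ‖x‖}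
      · rw [Set.indicator_of_mem hx, Set.indicator_of_mem hx]; ring
      · rw [Set.indicator_of_notMem hx, Set.indicator_of_notMem hx]; ring
    rw [h1]
    exact hUint.add ((hsq.const_mul Λ).indicator hO)
  have hW2val : ∫ x, (W x) ^ 2 * ‖w x‖ ^ 2 = A + Λ * (1 - B) := by
    have h1 : (fun x => (W x) ^ 2 * ‖w x‖ ^ 2) = fun x => U x * ‖w x‖ ^ 2 +
        {x : EE d | 1 ≤ ‖x‖}.indicator (fun x => Λ * ‖w x‖ ^ 2) x := by
      funext x
      rw [hW2 x]
      by_cases hx : x ∈ {x : EE d | 1 ≤ ‖x‖}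
      · rw [Set.indicator_of_mem hx, Set.indicator_of_mem hx]; ring
      · rw [Set.indicator_of_notMem hx, Set.indicator_of_notMem hx]; ring
    rw [h1, integral_add hUint ((hsq.const_mul Λ).indicator hO), integral_indicator hO, integral_const_mul, hBO, ← hA]
  have hWmem : MemLp (fun x => (W x : ℂ) * w x) 2 (volume : Measure (EE d)) := by
    have hm : AEStronglyMeasurable (fun x => (W x : ℂ) * w x) (volume : Measure (EE d)) :=
      (Complex.measurable_ofReal.comp hW).aestronglyMeasurable.mul (Lp.aestronglyMeasurable w)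
    rw [memLp_two_iff_integrable_sq_norm hm]
    refine hW2int.congr (Eventually.of_forall fun x => ?_)
    simp only
    rw [norm_mul, mul_pow, Complex.norm_real, Real.norm_eq_abs, sq_abs]
  set Ww : HH d := hWmem.toLp _ with hWw
  have eWw : (Ww : EE d → ℂ) =ᵐ[volume] fun x => (W x : ℂ) * w x := hWmem.coeFn_toLp
  have nWw : ‖Ww‖ ^ 2 = A + Λ * (1 - B) := by
    rw [J_F4_energy.norm_sq_eq, ← hW2val]
    apply integral_congr_ae
    filter_upwards [eWw] with x hx
    rw [hx, norm_mul, mul_pow, Complex.norm_real, Real.norm_eq_abs, sq_abs]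
  refine ⟨WithLp.toLp 2 (fun k : Option (Option (Fin d)) => match k with
    | none => w
    | some none => Ww
    | some (some i) => (h : ℂ) • p i), ⟨?_, ?_⟩, rfl, ?_⟩
  · exact eWw
  · intro i φ hφ
    have h1 := hp i φ hφ
    show (h : ℂ) * ∫ x, w x * pd i φ x = - ∫ x, ((h : ℂ) • p i : HH d) x * φ x
    have h2 : ∫ x, ((h : ℂ) • p i : HH d) x * φ x = ∫ x, (h : ℂ) * (p i x * φ x) := by
      apply integral_congr_ae
      filter_upwards [Lp.coeFn_smul (h : ℂ) (p i)] with x hx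
      rw [hx, Pi.smul_apply, smul_eq_mul, mul_assoc]
    rw [h2, integral_const_mul, h1]
    ring
  · rw [PiLp.norm_sq_eq_of_L2, Fintype.sum_option, Fintype.sum_option]
    show ‖w‖ ^ 2 + (‖Ww‖ ^ 2 + ∑ i, ‖(h : ℂ) • p i‖ ^ 2) = _
    have h3 : ∑ i, ‖(h : ℂ) • p i‖ ^ 2 = h ^ 2 * G := by
      rw [hG, Finset.mul_sum]
      refine Finset.sum_congr rfl fun i _ => ?_
      rw [norm_smul, mul_pow, Complex.norm_real, Real.norm_eq_abs, sq_abs]
    rw [h3, nWw, hw, hEre, hEim]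
    ring


end Pool.Agent.Helper31_CP

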