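import Mathlib
import Pool.Agent.Helper31_CP.Defs

set_option autoImplicit false

namespace Pool.Agent.Helper31_CP

open MeasureTheory Filter Topology Set
open scoped InnerProductSpace

/-- continuity of the directional derivative -/
lemma L1_trial_cont {d : ℕ} {φ : EE d → ℂ} (hφ : IsTest φ) (i : Fin d) : Continuous (pd i φ) := by
  have h1 : Continuous (fderiv ℝ φ) := hφ.1.continuous_fderiv (by simp)
  exact h1.clm_apply continuous_const

lemma L1_trial_supp {d : ℕ} {φ : EE d → ℂ} (hφ : IsTest φ) (i : Fin d) :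
    HasCompactSupport (pd i φ) := by
  have h1 := hφ.2.fderiv_apply (𝕜 := ℝ) (EuclideanSpace.single i 1)
  exact h1

lemma L1_trial_mem {d : ℕ} {φ : EE d → ℂ} (hφ : IsTest φ) :
    MemLp φ 2 (volume : Measure (EE d)) :=
  hφ.1.continuous.memLp_of_hasCompactSupport hφ.2

lemma L1_trial_mem_pd {d : ℕ} {φ : EE d → ℂ} (hφ : IsTest φ) (i : Fin d) :
    MemLp (pd i φ) 2 (volume : Measure (EE d)) :=
  (L1_trial_cont hφ i).memLp_of_hasCompactSupport (L1_trial_supp hφ i)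

lemma L1_trial_mem_W {d : ℕ} {φ : EE d → ℂ} (hφ : IsTest φ) (W : EE d → ℝ)
    (hW : Measurable W) (hW1 : ∀ x : EE d, ‖x‖ ≤ 1 / 2 → (W x) ^ 2 ≤ 1)
    (hs : ∀ x, φ x ≠ 0 → ‖x‖ ≤ 1 / 2) :
    MemLp (fun x => (W x : ℂ) * φ x) 2 (volume : Measure (EE d)) := by
  refine (L1_trial_mem hφ).mono ?_ (Eventually.of_forall fun x => ?_)
  · exact ((Complex.measurable_ofReal.comp hW).aestronglyMeasurable).mul
      hφ.1.continuous.aestronglyMeasurable
  · rw [norm_mul]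
    by_cases hx : φ x = 0
    · rw [hx]; simp
    · have h1 := hW1 x (hs x hx)
      have h2 : |W x| ≤ 1 := by
        rw [← sq_le_one_iff_abs_le_one]; exact h1
      have h3 : ‖(W x : ℂ)‖ ≤ 1 := by
        rw [Complex.norm_real]; exact h2
      calc ‖(W x : ℂ)‖ * ‖φ x‖ ≤ 1 * ‖φ x‖ := by gcongr
        _ = ‖φ x‖ := one_mul _

/-- integration by parts -/
lemma L1_trial_parts {d : ℕ} {φ ψ : EE d → ℂ} (hφ : IsTest φ) (hψ : IsTest ψ) (i : Fin d) :
    ∫ x, φ x * pd i ψ x = - ∫ x, pd i φ x * ψ x := by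
  unfold pd
  refine integral_mul_fderiv_eq_neg_fderiv_mul_of_integrable ?_ ?_ ?_ ?_ ?_
  · exact ((L1_trial_cont hφ i).mul hψ.1.continuous).integrable_of_hasCompactSupport
      (hψ.2.mul_left)
  · exact (hφ.1.continuous.mul (L1_trial_cont hψ i)).integrable_of_hasCompactSupport
      (hφ.2.mul_right)
  · exact (hφ.1.continuous.mul hψ.1.continuous).integrable_of_hasCompactSupport
      (hφ.2.mul_right)
  · exact fun x _ => hφ.1.differentiable (by simp) x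
  · exact fun x _ => hψ.1.differentiable (by simp) x

/-- two smooth functions with product zero have product of derivatives zero -/
lemma L1_trial_pd {d : ℕ} {φ ψ : EE d → ℂ} (hφ : IsTest φ) (hψ : IsTest ψ) (i : Fin d)
    (hd : ∀ x, φ x = 0 ∨ ψ x = 0) (x : EE d) : pd i φ x = 0 ∨ pd i ψ x = 0 := by
  by_contra hcon
  rw [not_or] at hcon
  obtain ⟨h1, h2⟩ := hcon
  have key : ∀ χ : EE d → ℂ, IsTest χ → pd i χ x ≠ 0 →
      ∀ᶠ t : ℝ in 𝓝[≠] 0, χ (x + t • EuclideanSpace.single i 1) ≠ 0 := by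
    intro χ hχ hne
    have h3 : HasFDerivAt χ (fderiv ℝ χ x) x := (hχ.1.differentiable (by simp) x).hasFDerivAt
    have h4 : HasDerivAt (fun t : ℝ => χ (x + t • EuclideanSpace.single i 1)) (pd i χ x) 0 := by
      have h5 := h3.hasLineDerivAt (EuclideanSpace.single i 1)
      exact h5
    exact h4.eventually_ne hne
  have h3 := (key φ hφ h1).and (key ψ hψ h2)
  obtain ⟨t, ht1, ht2⟩ := h3.exists
  rcases hd (x + t • EuclideanSpace.single i 1) with h | h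
  · exact ht1 h
  · exact ht2 h

/-- inner product of classes -/
lemma L1_trial_inner {d : ℕ} {f g : EE d → ℂ} (hf : MemLp f 2 (volume : Measure (EE d)))
    (hg : MemLp g 2 (volume : Measure (EE d))) :
    (inner ℂ (hf.toLp f) (hg.toLp g) : ℂ) = ∫ x, inner ℂ (f x) (g x) := by
  rw [MeasureTheory.L2.inner_def]
  refine integral_congr_ae ?_
  filter_upwards [hf.coeFn_toLp, hg.coeFn_toLp] with x h1 h2
  rw [h1, h2]

lemma L1_trial_inner_zero {d : ℕ} {f g : EE d → ℂ} (hf : MemLp f 2 (volume : Measure (EE d)))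
    (hg : MemLp g 2 (volume : Measure (EE d))) (h : ∀ x, f x = 0 ∨ g x = 0) :
    (inner ℂ (hf.toLp f) (hg.toLp g) : ℂ) = 0 := by
  rw [L1_trial_inner]
  have : ∀ x, (inner ℂ (f x) (g x) : ℂ) = 0 := by
    intro x
    rcases h x with h | h
    · rw [h, inner_zero_left]
    · rw [h, inner_zero_right]
  simp only [this, integral_zero]

lemma L1_trial_norm {d : ℕ} {f : EE d → ℂ} (hf : MemLp f 2 (volume : Measure (EE d))) :
    ‖hf.toLp f‖ ^ 2 = ∫ x, ‖f x‖ ^ 2 := by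
  have h1 : ((‖hf.toLp f‖ ^ 2 : ℝ) : ℂ) = ((∫ x, ‖f x‖ ^ 2 : ℝ) : ℂ) := by
    have h2 := inner_self_eq_norm_sq_to_K (𝕜 := ℂ) (hf.toLp f)
    rw [L1_trial_inner] at h2
    push_cast
    refine Eq.trans h2.symm ?_
    have h4 : ((∫ x, ‖f x‖ ^ 2 : ℝ) : ℂ) = ∫ x, ((‖f x‖ ^ 2 : ℝ) : ℂ) := by
      exact (integral_ofReal (f := fun x => ‖f x‖ ^ 2)).symm
    rw [h4]
    refine integral_congr_ae (Eventually.of_forall fun x => ?_)
    have h3 := inner_self_eq_norm_sq_to_K (𝕜 := ℂ) (f x)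
    simp only
    rw [h3]
    push_cast
    rfl
  exact_mod_cast h1

/-- norm of a linear combination of pairwise orthogonal vectors -/
lemma L1_trial_pyth {H : Type*} [NormedAddCommGroup H] [InnerProductSpace ℂ H] (n : ℕ)
    (v : Fin n → H) (hv : ∀ j k, j ≠ k → (inner ℂ (v j) (v k) : ℂ) = 0) (c : Fin n → ℂ) :
    ‖∑ j, c j • v j‖ ^ 2 = ∑ j, ‖c j‖ ^ 2 * ‖v j‖ ^ 2 := by
  have h1 : ((‖∑ j, c j • v j‖ ^ 2 : ℝ) : ℂ) = ((∑ j, ‖c j‖ ^ 2 * ‖v j‖ ^ 2 : ℝ) : ℂ) := by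
    have h2 := inner_self_eq_norm_sq_to_K (𝕜 := ℂ) (∑ j, c j • v j)
    push_cast
    refine Eq.trans h2.symm ?_
    rw [sum_inner]
    refine Finset.sum_congr rfl fun j _ => ?_
    rw [inner_sum, Finset.sum_eq_single j]
    · rw [inner_smul_left, inner_smul_right, inner_self_eq_norm_sq_to_K]
      rw [← mul_assoc, Complex.conj_mul']
      rfl
    · intro k _ hk
      rw [inner_smul_left, inner_smul_right, hv j k (Ne.symm hk)]
      simp
    · intro h
      exact absurd (Finset.mem_univ j) h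
  exact_mod_cast h1


/-- the vector of the trial function -/
noncomputable def L1_trial_z {d : ℕ} (h : ℝ) (W : EE d → ℝ) (φ : EE d → ℂ) (hφ : IsTest φ)
    (hWφ : MemLp (fun x => (W x : ℂ) * φ x) 2 (volume : Measure (EE d))) : VX d :=
  WithLp.toLp 2 fun o => match o with
    | none => (L1_trial_mem hφ).toLp φ
    | some none => hWφ.toLp _
    | some (some i) => (h : ℂ) • (L1_trial_mem_pd hφ i).toLp (pd i φ)

lemma L1_trial_inV {d : ℕ} (h : ℝ) (W : EE d → ℝ) (φ : EE d → ℂ) (hφ : IsTest φ)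
    (hWφ : MemLp (fun x => (W x : ℂ) * φ x) 2 (volume : Measure (EE d))) :
    InV h W (L1_trial_z h W φ hφ hWφ) := by
  constructor
  · have h1 : (L1_trial_z h W φ hφ hWφ) (some none) = hWφ.toLp _ := rfl
    have h2 : (L1_trial_z h W φ hφ hWφ) none = (L1_trial_mem hφ).toLp φ := rfl
    rw [h1, h2]
    filter_upwards [hWφ.coeFn_toLp, (L1_trial_mem hφ).coeFn_toLp] with x h3 h4
    rw [h3, h4]
  · intro i ψ hψ
    have h1 : (L1_trial_z h W φ hφ hWφ) (some (some i)) =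
      (h : ℂ) • (L1_trial_mem_pd hφ i).toLp (pd i φ) := rfl
    have h2 : (L1_trial_z h W φ hφ hWφ) none = (L1_trial_mem hφ).toLp φ := rfl
    rw [h1, h2]
    have e1 : ∫ x, ((L1_trial_mem hφ).toLp φ : EE d → ℂ) x * pd i ψ x = ∫ x, φ x * pd i ψ x := by
      refine integral_congr_ae ?_
      filter_upwards [(L1_trial_mem hφ).coeFn_toLp] with x h4
      rw [h4]
    have e2 : ∫ x, (((h : ℂ) • (L1_trial_mem_pd hφ i).toLp (pd i φ) : HH d) : EE d → ℂ) x * ψ x =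
        (h : ℂ) * ∫ x, pd i φ x * ψ x := by
      rw [← integral_const_mul]
      refine integral_congr_ae ?_
      filter_upwards [(L1_trial_mem_pd hφ i).coeFn_toLp,
        Lp.coeFn_smul (h : ℂ) ((L1_trial_mem_pd hφ i).toLp (pd i φ))] with x h4 h5
      rw [h5, Pi.smul_apply, h4, smul_eq_mul, mul_assoc]
    rw [e1, e2, L1_trial_parts hφ hψ i]
    ring

/-- TARGET -/
theorem trial_space (d : ℕ) (h lam : ℝ) (hh : 0 < h) (hlam : 2 ≤ lam) (W : EE d → ℝ)
    (hW : Measurable W) (hW1 : ∀ x : EE d, ‖x‖ ≤ 1 / 2 → (W x) ^ 2 ≤ 1)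
    (n : ℕ) (φ : Fin n → EE d → ℂ) (hφ : ∀ j, IsTest (φ j))
    (hsupp : ∀ j x, φ j x ≠ 0 → ‖x‖ ≤ 1 / 2)
    (hdisj : ∀ j k, j ≠ k → ∀ x, φ j x = 0 ∨ φ k x = 0)
    (hnorm : ∀ j, ∫ x, ‖φ j x‖ ^ 2 = 1)
    (hen : ∀ j, ∑ i, ∫ x, ‖pd i (φ j) x‖ ^ 2 ≤ (Real.sqrt lam / h) ^ 2 / 2)
    (S : Submodule ℂ (VX d)) (hS : ∀ z, z ∈ S ↔ InV h W z) :
    ∃ G : Submodule ℂ S, FiniteDimensional ℂ G ∧ Module.finrank ℂ G = n ∧
      ∀ z ∈ G, ‖z‖ ^ 2 ≤ (1 + lam) * ‖(z : VX d) none‖ ^ 2 := by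
  classical
  have hWm : ∀ j, MemLp (fun x => (W x : ℂ) * φ j x) 2 (volume : Measure (EE d)) := fun j =>
    L1_trial_mem_W (hφ j) W hW hW1 (hsupp j)
  set Z : Fin n → VX d := fun j => L1_trial_z h W (φ j) (hφ j) (hWm j) with hZ
  have hZS : ∀ j, Z j ∈ S := fun j => (hS _).2 (L1_trial_inV h W (φ j) (hφ j) (hWm j))
  have hort : ∀ j k, j ≠ k → ∀ o, (inner ℂ (Z j o) (Z k o) : ℂ) = 0 := by
    intro j k hjk o
    rcases o with _ | _ | i
    · exact L1_trial_inner_zero (L1_trial_mem (hφ j)) (L1_trial_mem (hφ k)) (hdisj j k hjk)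
    · refine L1_trial_inner_zero (hWm j) (hWm k) fun x => ?_
      rcases hdisj j k hjk x with h1 | h1
      · left; rw [h1, mul_zero]
      · right; rw [h1, mul_zero]
    · show (inner ℂ ((h : ℂ) • (L1_trial_mem_pd (hφ j) i).toLp (pd i (φ j)))
        ((h : ℂ) • (L1_trial_mem_pd (hφ k) i).toLp (pd i (φ k))) : ℂ) = 0
      rw [inner_smul_left, inner_smul_right,
        L1_trial_inner_zero _ _ (L1_trial_pd (hφ j) (hφ k) i (hdisj j k hjk)), mul_zero, mul_zero]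
  have hone : ∀ j, ‖Z j none‖ ^ 2 = 1 := by
    intro j
    have h1 := L1_trial_norm (L1_trial_mem (hφ j))
    rw [hnorm j] at h1
    exact h1
  have hWn : ∀ j, ‖Z j (some none)‖ ^ 2 ≤ 1 := by
    intro j
    have h1 := L1_trial_norm (hWm j)
    have h2 : ‖Z j (some none)‖ ^ 2 = ∫ x, ‖(W x : ℂ) * φ j x‖ ^ 2 := h1
    rw [h2, ← hnorm j]
    refine integral_mono_of_nonneg (Eventually.of_forall fun x => by positivity) ?_
      (Eventually.of_forall fun x => ?_)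
    · exact (L1_trial_mem (hφ j)).integrable_norm_pow (by norm_num)
    · show ‖(W x : ℂ) * φ j x‖ ^ 2 ≤ ‖φ j x‖ ^ 2
      rw [norm_mul, mul_pow]
      by_cases hx : φ j x = 0
      · rw [hx]; simp
      · have h3 := hW1 x (hsupp j x hx)
        have h4 : ‖(W x : ℂ)‖ ^ 2 ≤ 1 := by
          rw [Complex.norm_real, Real.norm_eq_abs, sq_abs]; exact h3
        calc ‖(W x : ℂ)‖ ^ 2 * ‖φ j x‖ ^ 2 ≤ 1 * ‖φ j x‖ ^ 2 := by gcongr
          _ = ‖φ j x‖ ^ 2 := one_mul _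
  have hpn : ∀ j i, ‖Z j (some (some i))‖ ^ 2 = h ^ 2 * ∫ x, ‖pd i (φ j) x‖ ^ 2 := by
    intro j i
    have h1 := L1_trial_norm (L1_trial_mem_pd (hφ j) i)
    show ‖(h : ℂ) • (L1_trial_mem_pd (hφ j) i).toLp (pd i (φ j))‖ ^ 2 = _
    rw [norm_smul, mul_pow, h1, Complex.norm_real, Real.norm_eq_abs, sq_abs]
  have hlam0 : 0 ≤ lam := by linarith
  have hgrad : ∀ j, ∑ i, ‖Z j (some (some i))‖ ^ 2 ≤ lam / 2 := by
    intro j
    simp only [hpn]
    rw [← Finset.mul_sum]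
    have h1 := hen j
    have h2 : h ^ 2 * ∑ i, ∫ x, ‖pd i (φ j) x‖ ^ 2 ≤ h ^ 2 * ((Real.sqrt lam / h) ^ 2 / 2) :=
      mul_le_mul_of_nonneg_left h1 (sq_nonneg h)
    refine h2.trans (le_of_eq ?_)
    rw [div_pow, Real.sq_sqrt hlam0]
    field_simp
  have hnn : ∀ z : VX d, ‖z‖ ^ 2 = ‖z none‖ ^ 2 + (‖z (some none)‖ ^ 2 +
      ∑ i, ‖z (some (some i))‖ ^ 2) := by
    intro z
    rw [PiLp.norm_sq_eq_of_L2, Fintype.sum_option, Fintype.sum_option]
  have hZn : ∀ j, ‖Z j‖ ^ 2 ≤ 1 + lam := by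
    intro j
    rw [hnn, hone j]
    have h1 := hWn j
    have h2 := hgrad j
    linarith
  have hcomp : ∀ (c : Fin n → ℂ) (o : Option (Option (Fin d))),
      ‖(∑ j, c j • Z j : VX d) o‖ ^ 2 = ∑ j, ‖c j‖ ^ 2 * ‖Z j o‖ ^ 2 := by
    intro c o
    have h1 : (∑ j, c j • Z j : VX d) o = ∑ j, c j • Z j o := by
      rw [WithLp.ofLp_sum, Finset.sum_apply]
      rfl
    rw [h1]
    exact L1_trial_pyth n (fun j => Z j o) (fun j k hjk => hort j k hjk o) c
  have hsum : ∀ c : Fin n → ℂ, ‖(∑ j, c j • Z j : VX d)‖ ^ 2 ≤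
      (1 + lam) * ‖(∑ j, c j • Z j : VX d) none‖ ^ 2 := by
    intro c
    have h1 : ‖(∑ j, c j • Z j : VX d)‖ ^ 2 = ∑ j, ‖c j‖ ^ 2 * ‖Z j‖ ^ 2 := by
      rw [hnn]
      simp only [hcomp]
      rw [Finset.sum_comm, ← Finset.sum_add_distrib, ← Finset.sum_add_distrib]
      refine Finset.sum_congr rfl fun j _ => ?_
      rw [hnn (Z j), ← Finset.mul_sum]
      ring
    rw [h1, hcomp, Finset.mul_sum]
    refine Finset.sum_le_sum fun j _ => ?_
    rw [hone j, mul_one, mul_comm]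
    exact mul_le_mul_of_nonneg_right (hZn j) (sq_nonneg _)
  have hinj : ∀ c : Fin n → ℂ, (∑ j, c j • Z j : VX d) = 0 → ∀ j, c j = 0 := by
    intro c hc j
    have h1 := hcomp c none
    rw [hc] at h1
    simp only [hone, mul_one] at h1
    have h2 : ∑ j, ‖c j‖ ^ 2 = 0 := by
      rw [← h1]
      simp
    have h3 := (Finset.sum_eq_zero_iff_of_nonneg (fun j _ => sq_nonneg ‖c j‖)).1 h2 j
      (Finset.mem_univ j)
    simpa using h3
  set ZS : Fin n → S := fun j => ⟨Z j, hZS j⟩ with hZSd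
  have hcoe : ∀ c : Fin n → ℂ, ((∑ j, c j • ZS j : S) : VX d) = ∑ j, c j • Z j := by
    intro c
    rw [Submodule.coe_sum]
    rfl
  have hli : LinearIndependent ℂ ZS := by
    rw [Fintype.linearIndependent_iff]
    intro c hc j
    refine hinj c ?_ j
    rw [← hcoe, hc]
    rfl
  refine ⟨Submodule.span ℂ (Set.range ZS), FiniteDimensional.span_of_finite ℂ (Set.finite_range ZS),
    ?_, ?_⟩
  · rw [finrank_span_eq_card hli, Fintype.card_fin]
  · intro z hz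
    obtain ⟨c, hc⟩ := (Submodule.mem_span_range_iff_exists_fun ℂ).1 hz
    have h1 : (z : VX d) = ∑ j, c j • Z j := by
      rw [← hc, hcoe]
    have h2 : ‖z‖ = ‖(z : VX d)‖ := rfl
    rw [h2, h1]
    exact hsum c

end Pool.Agent.Helper31_CP
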