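import Mathlib
import Pool.Agent.Helper31_CP.Defs

set_option autoImplicit false

namespace Pool.Agent.Helper31_CP

open scoped ENNReal

/-- TARGET -/
theorem small_eventually (d : ℕ) (A B c : ℝ) (hA : 0 < A) (hB : 0 < B) (hc : 0 < c) :
    ∃ h₀ : ℝ, 0 < h₀ ∧ ∀ h : ℝ, 0 < h → h < h₀ → ∀ N : ℕ, (N : ℝ) ≤ (B / h) ^ d →
      A * (N + 1) ^ 2 * Real.exp (-(c / h)) ≤ 1 := by
  obtain ⟨K, hK⟩ : ∃ K : ℝ, K = 4 * A * (B / c) ^ (2 * d) := ⟨_, rfl⟩
  have hK0 : 0 < K := by rw [hK]; positivity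
  have ht := Real.tendsto_pow_mul_exp_neg_atTop_nhds_zero (2 * d)
  have hev : ∀ᶠ y : ℝ in Filter.atTop, y ^ (2 * d) * Real.exp (-y) < 1 / K :=
    ht.eventually (gt_mem_nhds (by positivity))
  obtain ⟨Y, hY⟩ := Filter.eventually_atTop.1 hev
  have hY1 : (0 : ℝ) < max Y 1 := lt_of_lt_of_le one_pos (le_max_right _ _)
  refine ⟨min B (c / max Y 1), lt_min hB (div_pos hc hY1), fun h hh hlt N hN => ?_⟩
  have hhB : h ≤ B := (hlt.trans_le (min_le_left _ _)).le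
  have hhc : h < c / max Y 1 := hlt.trans_le (min_le_right _ _)
  have hy : Y ≤ c / h := by
    rw [lt_div_iff₀ hY1] at hhc
    rw [le_div_iff₀ hh]
    have h1 : Y * h ≤ max Y 1 * h := mul_le_mul_of_nonneg_right (le_max_left _ _) hh.le
    linarith
  have h2 := hY (c / h) hy
  have hBh : 1 ≤ B / h := by rw [le_div_iff₀ hh]; linarith
  have h3 : (N : ℝ) + 1 ≤ 2 * (B / h) ^ d := by
    have := one_le_pow₀ hBh (n := d)
    linarith
  have h4 : ((N : ℝ) + 1) ^ 2 ≤ (2 * (B / h) ^ d) ^ 2 := pow_le_pow_left₀ (by positivity) h3 2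
  have h5 : (B / h) = (B / c) * (c / h) := by field_simp
  have he : 0 < Real.exp (-(c / h)) := Real.exp_pos _
  calc A * ((N : ℝ) + 1) ^ 2 * Real.exp (-(c / h)) ≤ A * (2 * (B / h) ^ d) ^ 2 * Real.exp (-(c / h)) := by
        gcongr
    _ = K * ((c / h) ^ (2 * d) * Real.exp (-(c / h))) := by
        rw [hK, h5, mul_pow]
        ring
    _ ≤ K * (1 / K) := by gcongr
    _ = 1 := by field_simp

end Pool.Agent.Helper31_CP
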