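import Mathlib
import Pool.Agent.Helper31_CP.Defs

set_option autoImplicit false

namespace Pool.Agent.Helper31_CP

open MeasureTheory Filter Topology Set
open scoped InnerProductSpace

namespace J_P1a_translation

/-- the size of a function in `L²` -/
noncomputable def nn {d : ℕ} (g : EE d → ℂ) : ℝ := (eLpNorm g 2 (volume : Measure (EE d))).toReal

theorem pd_shift {d : ℕ} (i : Fin d) (φ : EE d → ℂ) (a x : EE d) :
    pd i (fun t => φ (t - a)) x = pd i φ (x - a) := by
  unfold pd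
  rw [fderiv_comp_sub]

theorem test_shift {d : ℕ} {φ : EE d → ℂ} (hφ : IsTest φ) (a : EE d) :
    IsTest (fun t => φ (t - a)) := by
  refine ⟨hφ.1.comp (contDiff_id.sub contDiff_const), ?_⟩
  exact hφ.2.comp_homeomorph (Homeomorph.subRight a)

theorem test_memLp {d : ℕ} {φ : EE d → ℂ} (hφ : IsTest φ) : MemLp φ 2 (volume : Measure (EE d)) :=
  hφ.1.continuous.memLp_of_hasCompactSupport hφ.2

theorem nn_shift {d : ℕ} {φ : EE d → ℂ} (hφ : IsTest φ) (a : EE d) :
    nn (fun t => φ (t - a)) = nn φ := by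
  unfold nn
  congr 1
  exact eLpNorm_comp_measurePreserving (g := φ) hφ.1.continuous.aestronglyMeasurable
    (measurePreserving_sub_right (volume : Measure (EE d)) a)

theorem pairing {d : ℕ} (f : HH d) {g : EE d → ℂ} (hg : MemLp g 2 (volume : Measure (EE d))) :
    ‖∫ x, f x * g x‖ ≤ ‖f‖ * nn g := by
  have hs : MemLp (star g) 2 (volume : Measure (EE d)) := hg.star
  have h1 : ∫ x, f x * g x = ⟪hs.toLp (star g), f⟫_ℂ := by
    rw [L2.inner_def]
    refine integral_congr_ae ?_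
    filter_upwards [hs.coeFn_toLp] with x hx
    rw [hx]
    simp [mul_comm]
  rw [h1]
  refine (norm_inner_le_norm _ _).trans ?_
  have h2 : ‖hs.toLp (star g)‖ = nn g := by
    rw [Lp.norm_toLp, eLpNorm_star]
    rfl
  rw [h2, mul_comm]

/-- the correlation of `u` with a test function -/
noncomputable def GG {d : ℕ} (u : HH d) (φ : EE d → ℂ) (x : EE d) : ℂ := ∫ t, u t * φ (t - x)

open scoped Convolution in
theorem GG_deriv {d : ℕ} (u : HH d) {φ : EE d → ℂ} (hφ : IsTest φ) (x : EE d) :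
    ∃ L : EE d →L[ℝ] ℂ, HasFDerivAt (GG u φ) L x ∧
      ∀ v : EE d, L v = - ∫ t, u t * fderiv ℝ φ (t - x) v := by
  have hu : LocallyIntegrable (fun t => u t) (volume : Measure (EE d)) :=
    (Lp.memLp u).locallyIntegrable (by norm_num)
  have hψ1 : ContDiff ℝ (⊤ : ℕ∞) (fun y : EE d => φ (-y)) := hφ.1.comp contDiff_neg
  have hψ2 : HasCompactSupport (fun y : EE d => φ (-y)) :=
    hφ.2.comp_homeomorph (Homeomorph.neg (EE d))
  have hψ3 : ContDiff ℝ 1 (fun y : EE d => φ (-y)) := hψ1.of_le (by exact_mod_cast le_top)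
  have h1 := hψ2.hasFDerivAt_convolution_right (ContinuousLinearMap.mul ℝ ℂ) hu hψ3 x
  have h2 : (fun t => u t) ⋆[ContinuousLinearMap.mul ℝ ℂ, volume] (fun y : EE d => φ (-y)) =
      GG u φ := by
    funext z
    unfold GG convolution
    refine integral_congr_ae (Eventually.of_forall fun t => ?_)
    simp only [ContinuousLinearMap.mul_apply', neg_sub]
  rw [h2] at h1
  refine ⟨_, h1, fun v => ?_⟩
  rw [convolution_precompR_apply _ hu (hψ2.fderiv ℝ) (hψ3.continuous_fderiv one_ne_zero),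
    ← integral_neg]
  unfold convolution
  refine integral_congr_ae (Eventually.of_forall fun t => ?_)
  have h3 : fderiv ℝ (fun y : EE d => φ (-y)) (x - t) = -(fderiv ℝ φ (t - x)) := by
    have hd : HasFDerivAt φ (fderiv ℝ φ (t - x)) (-(x - t)) := by
      rw [neg_sub]
      exact (hφ.1.differentiable (by norm_num)).differentiableAt.hasFDerivAt
    have hn : HasFDerivAt (fun y : EE d => -y) (-(ContinuousLinearMap.id ℝ (EE d))) (x - t) :=
      (hasFDerivAt_id (x - t)).neg
    have hc := (HasFDerivAt.comp (x - t) hd hn).fderiv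
    have : (φ ∘ fun y : EE d => -y) = fun y : EE d => φ (-y) := rfl
    rw [this] at hc
    rw [hc]
    ext w
    simp
  simp only [ContinuousLinearMap.mul_apply']
  rw [h3]
  simp

theorem fderiv_expand {d : ℕ} (φ : EE d → ℂ) (y v : EE d) :
    fderiv ℝ φ y v = ∑ i, ((v i : ℝ) : ℂ) * pd i φ y := by
  unfold pd
  have h1 : v = ∑ i, (v i) • (EuclideanSpace.single i (1 : ℝ) : EE d) := by
    ext j
    simp [Finset.sum_apply, Pi.single_apply]
  conv_lhs => rw [h1]
  rw [map_sum]
  refine Finset.sum_congr rfl fun i _ => ?_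
  rw [map_smul, Complex.real_smul]

theorem cs {d : ℕ} (v : EE d) (q : Fin d → ℝ) :
    ∑ i, |v i| * q i ≤ ‖v‖ * Real.sqrt (∑ i, q i ^ 2) := by
  have h := Real.sum_mul_le_sqrt_mul_sqrt Finset.univ (fun i => |v i|) q
  refine h.trans ?_
  rw [EuclideanSpace.norm_eq]
  simp only [sq_abs, Real.norm_eq_abs]
  exact le_rfl

theorem GG_bound {d : ℕ} (u : HH d) (p : Fin d → HH d) (hp : ∀ i, WD i u (p i)) {φ : EE d → ℂ}
    (hφ : IsTest φ) (x : EE d) (v : EE d) :
    ‖∫ t, u t * fderiv ℝ φ (t - x) v‖ ≤ Real.sqrt (∑ i, ‖p i‖ ^ 2) * nn φ * ‖v‖ := by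
  have hts := test_shift hφ x
  have hint : ∀ i, Integrable (fun t => u t * pd i (fun t => φ (t - x)) t)
      (volume : Measure (EE d)) := by
    intro i
    have hc : Continuous (pd i (fun t => φ (t - x))) := by
      unfold pd
      exact (hts.1.continuous_fderiv (by norm_num)).clm_apply continuous_const
    have hs : HasCompactSupport (pd i (fun t => φ (t - x))) := by
      unfold pd
      exact (hts.2.fderiv ℝ).mono (fun y hy => by
        intro h0
        apply hy
        simp [h0])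
    have hm : MemLp (pd i (fun t => φ (t - x))) 2 (volume : Measure (EE d)) :=
      hc.memLp_of_hasCompactSupport hs
    exact (Lp.memLp u).integrable_mul hm
  have h1 : ∫ t, u t * fderiv ℝ φ (t - x) v =
      ∑ i, ((v i : ℝ) : ℂ) * -(∫ t, p i t * φ (t - x)) := by
    have h2 : ∀ t, u t * fderiv ℝ φ (t - x) v =
        ∑ i, ((v i : ℝ) : ℂ) * (u t * pd i (fun t => φ (t - x)) t) := by
      intro t
      rw [fderiv_expand, Finset.mul_sum]
      refine Finset.sum_congr rfl fun i _ => ?_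
      rw [pd_shift]
      ring
    simp only [h2]
    rw [integral_finsetSum _ fun i _ => (hint i).const_mul _]
    refine Finset.sum_congr rfl fun i _ => ?_
    rw [integral_const_mul, hp i _ hts]
  rw [h1]
  refine (norm_sum_le _ _).trans ?_
  have h3 : ∀ i, ‖((v i : ℝ) : ℂ) * -(∫ t, p i t * φ (t - x))‖ ≤ |v i| * (‖p i‖ * nn φ) := by
    intro i
    rw [norm_mul, norm_neg, Complex.norm_real, Real.norm_eq_abs]
    refine mul_le_mul_of_nonneg_left ?_ (abs_nonneg _)
    have := pairing (p i) (test_memLp hts)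
    rwa [nn_shift hφ] at this
  refine (Finset.sum_le_sum fun i _ => h3 i).trans ?_
  have h4 := cs v (fun i => ‖p i‖)
  have h5 : 0 ≤ nn φ := ENNReal.toReal_nonneg
  calc ∑ i, |v i| * (‖p i‖ * nn φ) = (∑ i, |v i| * ‖p i‖) * nn φ := by
        rw [Finset.sum_mul]
        exact Finset.sum_congr rfl fun i _ => by ring
    _ ≤ (‖v‖ * Real.sqrt (∑ i, ‖p i‖ ^ 2)) * nn φ := mul_le_mul_of_nonneg_right h4 h5
    _ = _ := by ring

theorem lip_abs {d : ℕ} (F : EE d → ℂ) (K : ℝ) (hK : 0 ≤ K) (M : EE d → EE d → ℂ)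
    (h1 : ∀ x, ∃ L : EE d →L[ℝ] ℂ, HasFDerivAt F L x ∧ ∀ v : EE d, L v = M x v)
    (h2 : ∀ x v, ‖M x v‖ ≤ K * ‖v‖) (h : EE d) : ‖F h - F 0‖ ≤ K * ‖h‖ := by
  choose L hL1 hL2 using h1
  have hb : ∀ x, ‖L x‖ ≤ K := by
    intro x
    refine ContinuousLinearMap.opNorm_le_bound _ hK fun v => ?_
    rw [hL2]
    exact h2 x v
  have := Convex.norm_image_sub_le_of_norm_hasFDerivWithin_le (𝕜 := ℝ) (f := F) (f' := L)
    (s := univ) (x := 0) (y := h) (C := K)
    (fun x _ => (hL1 x).hasFDerivWithinAt) (fun x _ => hb x) convex_univ (mem_univ _) (mem_univ _)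
  rwa [sub_zero] at this

theorem fin_ineq (n P H : ℝ) (hn : 0 ≤ n) (hP : 0 ≤ P) (hH : 0 ≤ H)
    (hstep : ∀ ε : ℝ, 0 < ε → n ^ 2 ≤ P * (n + ε) * H + n * ε) : n ≤ P * H := by
  have hfin : n ^ 2 ≤ P * n * H := by
    refine le_of_forall_pos_le_add fun δ hδ => ?_
    have hc : 0 < P * H + n + 1 := by positivity
    have h1 := hstep (δ / (P * H + n + 1)) (div_pos hδ hc)
    have h2 : (P * H + n) * (δ / (P * H + n + 1)) ≤ δ := by
      rw [mul_div_assoc', div_le_iff₀ hc]
      nlinarith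
    nlinarith
  by_contra hlt
  push Not at hlt
  have hpos : 0 < n := lt_of_le_of_lt (mul_nonneg hP hH) hlt
  nlinarith

theorem GG_lip {d : ℕ} (u : HH d) (p : Fin d → HH d) (hp : ∀ i, WD i u (p i)) {φ : EE d → ℂ}
    (hφ : IsTest φ) (h : EE d) :
    ‖GG u φ h - GG u φ 0‖ ≤ Real.sqrt (∑ i, ‖p i‖ ^ 2) * nn φ * ‖h‖ := by
  have hbd := GG_bound u p hp hφ
  have hdv := GG_deriv u hφ
  have h5 : 0 ≤ nn φ := ENNReal.toReal_nonneg
  have h6 : 0 ≤ Real.sqrt (∑ i, ‖p i‖ ^ 2) * nn φ := mul_nonneg (Real.sqrt_nonneg _) h5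
  generalize Real.sqrt (∑ i, ‖p i‖ ^ 2) * nn φ = K at *
  generalize GG u φ = F at *
  exact lip_abs F K h6 (fun x v => - ∫ t, u t * fderiv ℝ φ (t - x) v) hdv
    (fun x v => by rw [norm_neg]; exact hbd x v) h

theorem memLp_shift {d : ℕ} (u : HH d) (h : EE d) :
    MemLp (fun x => u (x + h)) 2 (volume : Measure (EE d)) :=
  (Lp.memLp u).comp_measurePreserving (measurePreserving_add_right (volume : Measure (EE d)) h)

theorem diff_pair {d : ℕ} (u : HH d) {φ : EE d → ℂ} (hφ : IsTest φ) (h : EE d) :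
    ∫ x, (u (x + h) - u x) * φ x = GG u φ h - GG u φ 0 := by
  have h1 : Integrable (fun x => u (x + h) * φ x) (volume : Measure (EE d)) :=
    (memLp_shift u h).integrable_mul (test_memLp hφ)
  have h2 : Integrable (fun x => u x * φ x) (volume : Measure (EE d)) :=
    (Lp.memLp u).integrable_mul (test_memLp hφ)
  have h3 : ∫ x, (u (x + h) - u x) * φ x = (∫ x, u (x + h) * φ x) - ∫ x, u x * φ x := by
    rw [← integral_sub h1 h2]
    refine integral_congr_ae (Eventually.of_forall fun x => ?_)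
    simp only
    ring
  rw [h3]
  unfold GG
  congr 1
  · have := integral_add_right_eq_self (μ := (volume : Measure (EE d)))
      (fun y => u y * φ (y - h)) h
    rw [← this]
    refine integral_congr_ae (Eventually.of_forall fun x => ?_)
    simp only [add_sub_cancel_right]
  · refine integral_congr_ae (Eventually.of_forall fun x => ?_)
    simp only [sub_zero]

end J_P1a_translation

open J_P1a_translation in
/-- TARGET -/
theorem translation {d : ℕ} (u : HH d) (p : Fin d → HH d) (hp : ∀ i, WD i u (p i)) (h : EE d) :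
    ∫ x, ‖u (x + h) - u x‖ ^ 2 ≤ ‖h‖ ^ 2 * ∑ i, ‖p i‖ ^ 2 := by
  have hD : MemLp (fun x => u (x + h) - u x) 2 (volume : Measure (EE d)) :=
    (memLp_shift u h).sub (Lp.memLp u)
  set D : HH d := hD.toLp _ with hDdef
  have hDae : D =ᵐ[volume] fun x => u (x + h) - u x := hD.coeFn_toLp
  set P : ℝ := Real.sqrt (∑ i, ‖p i‖ ^ 2) with hP
  have hP0 : 0 ≤ P := Real.sqrt_nonneg _
  have hP2 : P ^ 2 = ∑ i, ‖p i‖ ^ 2 := Real.sq_sqrt (Finset.sum_nonneg fun i _ => by positivity)
  -- the norm of `D`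
  have hself : ⟪D, D⟫_ℂ = ((∫ x, ‖D x‖ ^ 2 : ℝ) : ℂ) := by
    rw [L2.inner_def, ← integral_complex_ofReal]
    refine integral_congr_ae (Eventually.of_forall fun x => ?_)
    simp only
    rw [inner_self_eq_norm_sq_to_K]
    push_cast
    rfl
  have hnorm : ∫ x, ‖D x‖ ^ 2 = ‖D‖ ^ 2 := by
    have h1 : ((∫ x, ‖D x‖ ^ 2 : ℝ) : ℂ) = ((‖D‖ ^ 2 : ℝ) : ℂ) := by
      rw [← hself, inner_self_eq_norm_sq_to_K]
      push_cast
      rfl
    exact_mod_cast h1
  have hgoal : ∫ x, ‖u (x + h) - u x‖ ^ 2 = ‖D‖ ^ 2 := by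
    rw [← hnorm]
    refine integral_congr_ae ?_
    filter_upwards [hDae] with x hx
    rw [hx]
  have hmain : ∀ φ : EE d → ℂ, IsTest φ → ‖∫ x, D x * φ x‖ ≤ P * nn φ * ‖h‖ := by
    intro φ hφ
    have h1 : ∫ x, D x * φ x = ∫ x, (u (x + h) - u x) * φ x := by
      refine integral_congr_ae ?_
      filter_upwards [hDae] with x hx
      rw [hx]
    rw [h1, diff_pair u hφ h]
    exact GG_lip u p hp hφ h
  have hDm : MemLp (fun x => D x) 2 (volume : Measure (EE d)) := Lp.memLp D
  have hsm : MemLp (star (fun x => D x)) 2 (volume : Measure (EE d)) := hDm.star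
  have hnD : nn (star (fun x => D x)) = ‖D‖ := by
    unfold nn
    rw [eLpNorm_star]
    rfl
  have hstep : ∀ ε : ℝ, 0 < ε → ‖D‖ ^ 2 ≤ P * (‖D‖ + ε) * ‖h‖ + ‖D‖ * ε := by
    intro ε hε
    obtain ⟨g, hg1, hg2, hg3⟩ := hsm.exist_eLpNorm_sub_le (by norm_num) (by norm_num) hε
    have hgt : IsTest g := ⟨hg2, hg1⟩
    have hgm := test_memLp hgt
    have hsub : MemLp (star (fun x => D x) - g) 2 (volume : Measure (EE d)) := hsm.sub hgm
    have hsubn : nn (star (fun x => D x) - g) ≤ ε := by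
      unfold nn
      exact ENNReal.toReal_le_of_le_ofReal hε.le hg3
    have hgn : nn g ≤ ‖D‖ + ε := by
      have e1 : g = star (fun x => D x) - (star (fun x => D x) - g) := by simp
      have e2 : eLpNorm g 2 volume ≤ eLpNorm (star (fun x => D x)) 2 volume +
          eLpNorm (star (fun x => D x) - g) 2 volume := by
        conv_lhs => rw [e1]
        exact eLpNorm_sub_le hsm.1 hsub.1 (by norm_num)
      have e3 := ENNReal.toReal_mono (ENNReal.add_ne_top.mpr ⟨hsm.2.ne, hsub.2.ne⟩) e2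
      rw [ENNReal.toReal_add hsm.2.ne hsub.2.ne] at e3
      have e4 : (eLpNorm (star (fun x => D x)) 2 volume).toReal = ‖D‖ := hnD
      rw [e4] at e3
      have e5 : (eLpNorm (star (fun x => D x) - g) 2 volume).toReal ≤ ε := hsubn
      have e6 : nn g = (eLpNorm g 2 volume).toReal := rfl
      rw [e6]
      linarith
    have h1 : ((‖D‖ ^ 2 : ℝ) : ℂ) = (∫ x, D x * g x) +
        ∫ x, D x * (star (fun x => D x) - g) x := by
      have i1 : Integrable (fun x => D x * g x) (volume : Measure (EE d)) :=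
        hDm.integrable_mul hgm
      have i2 : Integrable (fun x => D x * (star (fun x => D x) - g) x)
          (volume : Measure (EE d)) := hDm.integrable_mul hsub
      rw [← integral_add i1 i2, ← hnorm, ← integral_complex_ofReal]
      refine integral_congr_ae (Eventually.of_forall fun x => ?_)
      simp only [Pi.sub_apply, Pi.star_apply]
      have e : D x * g x + D x * (star (D x) - g x) = D x * star (D x) := by ring
      rw [e]
      have := Complex.mul_conj (D x)
      rw [Complex.normSq_eq_norm_sq] at this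
      exact this.symm
    have h2 : ‖D‖ ^ 2 = ‖((‖D‖ ^ 2 : ℝ) : ℂ)‖ := by
      rw [Complex.norm_real, Real.norm_of_nonneg (by positivity)]
    rw [h2, h1]
    refine (norm_add_le _ _).trans (add_le_add ?_ ?_)
    · refine (hmain g hgt).trans ?_
      exact mul_le_mul_of_nonneg_right (mul_le_mul_of_nonneg_left hgn hP0) (norm_nonneg _)
    · exact (pairing D hsub).trans (mul_le_mul_of_nonneg_left hsubn (norm_nonneg _))
  rw [hgoal]
  have hle : ‖D‖ ≤ P * ‖h‖ := fin_ineq ‖D‖ P ‖h‖ (norm_nonneg _) hP0 (norm_nonneg _) hstep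
  calc ‖D‖ ^ 2 ≤ (P * ‖h‖) ^ 2 := pow_le_pow_left₀ (norm_nonneg _) hle 2
    _ = ‖h‖ ^ 2 * ∑ i, ‖p i‖ ^ 2 := by rw [mul_pow, hP2]; ring

end Pool.Agent.Helper31_CP
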