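import Mathlib
import Pool.Agent.Helper31_CP.Defs
import Pool.Agent.Helper31_CP.P1a_translation

set_option autoImplicit false

namespace Pool.Agent.Helper31_CP

open MeasureTheory Filter Topology Set
open scoped InnerProductSpace

theorem P1b_codim_box_eq (d : ℕ) (a : Fin d → ℝ) (s : ℝ) :
    {x : EE d | ∀ i, a i ≤ x i ∧ x i < a i + s} =
      (WithLp.ofLp : EE d → (Fin d → ℝ)) ⁻¹' (Set.pi univ fun i => Ico (a i) (a i + s)) := by
  ext x
  simp [Set.mem_pi]

theorem P1b_codim_box_meas (d : ℕ) (a : Fin d → ℝ) (s : ℝ) :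
    MeasurableSet {x : EE d | ∀ i, a i ≤ x i ∧ x i < a i + s} := by
  rw [P1b_codim_box_eq]
  exact (PiLp.volume_preserving_ofLp (Fin d)).measurable
    (MeasurableSet.univ_pi fun i => measurableSet_Ico)

theorem P1b_codim_box_vol (d : ℕ) (a : Fin d → ℝ) (s : ℝ) :
    volume {x : EE d | ∀ i, a i ≤ x i ∧ x i < a i + s} = ENNReal.ofReal s ^ d := by
  rw [P1b_codim_box_eq, (PiLp.volume_preserving_ofLp (Fin d)).measure_preimage
    (MeasurableSet.univ_pi fun i => measurableSet_Ico).nullMeasurableSet, volume_pi_pi]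
  simp [Real.volume_Ico]

theorem P1b_codim_enorm {α : Type} [MeasurableSpace α] {μ : Measure α} {f : α → ℂ}
    (hf : Integrable (fun x => ‖f x‖ ^ 2) μ) :
    ∫⁻ y, ‖f y‖ₑ ^ 2 ∂μ = ENNReal.ofReal (∫ y, ‖f y‖ ^ 2 ∂μ) := by
  rw [ofReal_integral_eq_lintegral_ofReal hf (ae_of_all _ fun x => by positivity)]
  refine lintegral_congr fun x => ?_
  rw [ENNReal.ofReal_pow (norm_nonneg _), ofReal_norm]

theorem P1b_codim_mean {d : ℕ} (u : HH d) {Q : Set (EE d)} (hQ : volume Q ≠ ⊤)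
    (h0 : ∫ x in Q, u x = 0) (a : ℂ) :
    volume Q * ‖a‖ₑ ^ 2 ≤ ∫⁻ y in Q, ‖u y - a‖ₑ ^ 2 := by
  have hfin : IsFiniteMeasure (volume.restrict Q) := ⟨by
    rw [Measure.restrict_apply_univ]; exact hQ.lt_top⟩
  have hu1 : IntegrableOn (fun x => u x) Q volume :=
    integrableOn_Lp_of_measure_ne_top u fact_one_le_two_ennreal.elim hQ
  have hm : MemLp (fun x => u x - a) 2 (volume.restrict Q) :=
    ((Lp.memLp u).restrict Q).sub (memLp_const a)
  have hu2 : Integrable (fun x => ‖u x - a‖ ^ 2) (volume.restrict Q) := hm.integrable_norm_pow (by norm_num)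
  rw [P1b_codim_enorm hu2]
  have hi : Integrable (fun x => ⟪a, u x⟫_ℂ) (volume.restrict Q) := Integrable.const_inner a hu1
  have hre : Integrable (fun x => (⟪a, u x⟫_ℂ).re) (volume.restrict Q) := hi.re
  have h1 : Integrable (fun x => ‖a‖ ^ 2 - 2 * (⟪a, u x⟫_ℂ).re) (volume.restrict Q) :=
    (integrable_const _).sub (hre.const_mul 2)
  have h2 : ∫ x in Q, (‖a‖ ^ 2 - 2 * (⟪a, u x⟫_ℂ).re) ≤ ∫ x in Q, ‖u x - a‖ ^ 2 := by
    refine integral_mono h1 hu2 fun x => ?_
    have h3 : ‖a - u x‖ ^ 2 = ‖a‖ ^ 2 - 2 * (⟪a, u x⟫_ℂ).re + ‖u x‖ ^ 2 := by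
      have := @norm_sub_sq ℂ ℂ _ _ _ a (u x)
      simpa using this
    simp only
    rw [norm_sub_rev (u x) a, h3]
    nlinarith [sq_nonneg ‖u x‖]
  have h4 : ∫ x in Q, (‖a‖ ^ 2 - 2 * (⟪a, u x⟫_ℂ).re) = volume.real Q * ‖a‖ ^ 2 := by
    rw [integral_sub (integrable_const _) (hre.const_mul 2), integral_const,
      integral_const_mul]
    have h5 : ∫ x in Q, (⟪a, u x⟫_ℂ).re = 0 := by
      have h6 := integral_re hi
      have h7 : ∫ x in Q, ⟪a, u x⟫_ℂ = ⟪a, ∫ x in Q, u x⟫_ℂ := integral_inner hu1 a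
      rw [h7, h0, inner_zero_right] at h6
      simpa using h6
    rw [h5]
    simp [Measure.real]
  rw [h4] at h2
  calc volume Q * ‖a‖ₑ ^ 2 = ENNReal.ofReal (volume.real Q * ‖a‖ ^ 2) := by
        rw [ENNReal.ofReal_mul measureReal_nonneg, ENNReal.ofReal_pow (norm_nonneg _),
          ofReal_norm, Measure.real, ENNReal.ofReal_toReal hQ]
    _ ≤ _ := ENNReal.ofReal_le_ofReal h2

theorem P1b_codim_trans {d : ℕ} (u : HH d) (p : Fin d → HH d) (hp : ∀ i, WD i u (p i)) (h : EE d) :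
    ∫⁻ x, ‖u (x + h) - u x‖ₑ ^ 2 ≤ ENNReal.ofReal (‖h‖ ^ 2 * ∑ i, ‖p i‖ ^ 2) := by
  have hm : MemLp (fun x => u (x + h) - u x) 2 volume := by
    refine MemLp.sub ?_ (Lp.memLp u)
    exact (Lp.memLp u).comp_measurePreserving (measurePreserving_add_right volume h)
  have hu2 : Integrable (fun x => ‖u (x + h) - u x‖ ^ 2) volume := hm.integrable_norm_pow (by norm_num)
  rw [P1b_codim_enorm hu2]
  exact ENNReal.ofReal_le_ofReal (translation u p hp h)

theorem P1b_codim_point {d : ℕ} (u : HH d) (a : Fin d → ℝ) (s : ℝ) 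
    (h0 : ∫ x in {x : EE d | ∀ i, a i ≤ x i ∧ x i < a i + s}, u x = 0) (x : EE d)
    (hx : ∀ i, a i ≤ x i ∧ x i < a i + s) :
    ENNReal.ofReal s ^ d * ‖u x‖ₑ ^ 2 ≤
      ∫⁻ h in {x : EE d | ∀ i, -s ≤ x i ∧ x i < -s + 2 * s}, ‖u (x + h) - u x‖ₑ ^ 2 := by
  have hQ : volume {x : EE d | ∀ i, a i ≤ x i ∧ x i < a i + s} ≠ ⊤ := by
    rw [P1b_codim_box_vol]
    exact ENNReal.pow_ne_top ENNReal.ofReal_ne_top
  have h1 := P1b_codim_mean u hQ h0 (u x)
  rw [P1b_codim_box_vol] at h1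
  refine h1.trans ?_
  rw [← lintegral_indicator (P1b_codim_box_meas d a s),
    ← lintegral_indicator (P1b_codim_box_meas d (fun _ => -s) (2 * s)),
    ← lintegral_add_left_eq_self _ x]
  refine lintegral_mono fun h => ?_
  simp only [Set.indicator]
  split_ifs with g1 g2
  · exact le_rfl
  · exact absurd (fun i => by
      have := g1 i
      have := hx i
      simp only [PiLp.add_apply] at *
      constructor <;> linarith) g2
  · exact zero_le
  · exact zero_le

theorem P1b_codim_int {d : ℕ} (u : HH d) (p : Fin d → HH d) (hp : ∀ i, WD i u (p i)) {s : ℝ}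
    (hs : 0 < s)
    (hcov : ∀ x ∈ Metric.ball (0 : EE d) 1, ∃ a : Fin d → ℝ, (∀ i, a i ≤ x i ∧ x i < a i + s) ∧
      ∫ x in {x : EE d | ∀ i, a i ≤ x i ∧ x i < a i + s}, u x = 0) :
    ∫ x in Metric.ball (0 : EE d) 1, ‖u x‖ ^ 2 ≤ 2 ^ d * d * s ^ 2 * ∑ i, ‖p i‖ ^ 2 := by
  have hS : 0 ≤ ∑ i, ‖p i‖ ^ 2 := Finset.sum_nonneg fun i _ => by positivity
  have hu2 : Integrable (fun x => ‖u x‖ ^ 2) (volume.restrict (Metric.ball (0 : EE d) 1)) :=
    ((Lp.memLp u).restrict _).integrable_norm_pow (by norm_num)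
  have hum : Measurable (fun x => u x) := (Lp.stronglyMeasurable u).measurable
  have h1 : ENNReal.ofReal s ^ d * ∫⁻ x in Metric.ball (0 : EE d) 1, ‖u x‖ₑ ^ 2 ≤
      ENNReal.ofReal (d * s ^ 2 * ∑ i, ‖p i‖ ^ 2) * ENNReal.ofReal (2 * s) ^ d := by
    calc ENNReal.ofReal s ^ d * ∫⁻ x in Metric.ball (0 : EE d) 1, ‖u x‖ₑ ^ 2
        = ∫⁻ x in Metric.ball (0 : EE d) 1, ENNReal.ofReal s ^ d * ‖u x‖ₑ ^ 2 := by
          rw [lintegral_const_mul _ (by fun_prop)]
      _ ≤ ∫⁻ x in Metric.ball (0 : EE d) 1,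
          ∫⁻ h in {x : EE d | ∀ i, -s ≤ x i ∧ x i < -s + 2 * s}, ‖u (x + h) - u x‖ₑ ^ 2 := by
          refine setLIntegral_mono' Metric.isOpen_ball.measurableSet fun x hx => ?_
          obtain ⟨a, ha, h0⟩ := hcov x hx
          exact P1b_codim_point u a s h0 x ha
      _ ≤ ∫⁻ x, ∫⁻ h in {x : EE d | ∀ i, -s ≤ x i ∧ x i < -s + 2 * s}, ‖u (x + h) - u x‖ₑ ^ 2 :=
          setLIntegral_le_lintegral _ _
      _ = ∫⁻ h in {x : EE d | ∀ i, -s ≤ x i ∧ x i < -s + 2 * s}, ∫⁻ x, ‖u (x + h) - u x‖ₑ ^ 2 := by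
          refine lintegral_lintegral_swap (Measurable.aemeasurable ?_)
          have e1 : Measurable fun z : EE d × EE d => u (z.1 + z.2) :=
            hum.comp (measurable_fst.add measurable_snd)
          have e2 : Measurable fun z : EE d × EE d => u z.1 := hum.comp measurable_fst
          exact ((e1.sub e2).enorm).pow_const 2
      _ ≤ ∫⁻ h in {x : EE d | ∀ i, -s ≤ x i ∧ x i < -s + 2 * s},
          ENNReal.ofReal (d * s ^ 2 * ∑ i, ‖p i‖ ^ 2) := by
          refine setLIntegral_mono' (P1b_codim_box_meas d (fun _ => -s) (2 * s)) fun h hh => ?_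
          refine (P1b_codim_trans u p hp h).trans (ENNReal.ofReal_le_ofReal ?_)
          refine mul_le_mul_of_nonneg_right ?_ hS
          rw [EuclideanSpace.norm_sq_eq]
          calc ∑ i, ‖h i‖ ^ 2 ≤ ∑ i : Fin d, s ^ 2 := by
                refine Finset.sum_le_sum fun i _ => ?_
                have h2 := hh i
                rw [Real.norm_eq_abs, sq_abs]
                nlinarith [h2.1, h2.2]
            _ = d * s ^ 2 := by simp
      _ = _ := by
          rw [setLIntegral_const, P1b_codim_box_vol d (fun _ => -s) (2 * s)]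
  rw [P1b_codim_enorm hu2, ← ENNReal.ofReal_pow hs.le, ← ENNReal.ofReal_pow (by positivity),
    ← ENNReal.ofReal_mul (by positivity), ← ENNReal.ofReal_mul (by positivity),
    ENNReal.ofReal_le_ofReal_iff (by positivity)] at h1
  have h3 : 0 < s ^ d := by positivity
  refine le_of_mul_le_mul_left (h1.trans (le_of_eq ?_)) h3
  rw [mul_pow]
  ring

/-- TARGET -/
theorem finite_codim (d : ℕ) (hd : 1 ≤ d) : ∃ C : ℝ, 1 ≤ C ∧ ∀ s : ℝ, 0 < s → s ≤ 1 →
    ∃ F : Submodule ℂ (HH d), FiniteDimensional ℂ F ∧ (Module.finrank ℂ F : ℝ) ≤ (C / s) ^ d ∧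
      ∀ (u : HH d) (p : Fin d → HH d), (∀ i, WD i u (p i)) → (∀ f ∈ F, ⟪f, u⟫_ℂ = 0) →
        ∫ x in Metric.ball (0 : EE d) 1, ‖u x‖ ^ 2 ≤ C * s ^ 2 * ∑ i, ‖p i‖ ^ 2 := by
  refine ⟨4 + 2 ^ d * d, by have : (0 : ℝ) ≤ 2 ^ d * d := by positivity
                            linarith, fun s hs hs1 => ?_⟩
  obtain ⟨m, hm⟩ : ∃ m : ℕ, m = ⌈1 / s⌉₊ := ⟨_, rfl⟩
  have hm1 : 1 / s ≤ m := hm ▸ Nat.le_ceil _
  have hm2 : (m : ℝ) < 1 / s + 1 := hm ▸ Nat.ceil_lt_add_one (by positivity)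
  have hs2 : 1 ≤ 1 / s := by rw [le_div_iff₀ hs]; linarith
  have hfin : ∀ k : Fin d → Fin (2 * m), volume {x : EE d | ∀ i, ((k i : ℝ) - m) * s ≤ x i ∧
      x i < ((k i : ℝ) - m) * s + s} ≠ ⊤ := fun k => by
    rw [P1b_codim_box_vol d (fun i => ((k i : ℝ) - m) * s) s]
    exact ENNReal.pow_ne_top ENNReal.ofReal_ne_top
  let v : (Fin d → Fin (2 * m)) → HH d := fun k =>
    indicatorConstLp 2 (P1b_codim_box_meas d (fun i => ((k i : ℝ) - m) * s) s) (hfin k) (1 : ℂ)
  refine ⟨Submodule.span ℂ (Set.range v), FiniteDimensional.span_of_finite ℂ (Set.finite_range v),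
    ?_, fun u p hp hF => ?_⟩
  · have h1 : Module.finrank ℂ (Submodule.span ℂ (Set.range v)) ≤ (2 * m) ^ d := by
      refine (finrank_range_le_card v).trans (le_of_eq ?_)
      simp
    calc (Module.finrank ℂ (Submodule.span ℂ (Set.range v)) : ℝ) ≤ ((2 * m) ^ d : ℕ) := by
          exact_mod_cast h1
      _ = (2 * m : ℝ) ^ d := by push_cast; ring
      _ ≤ ((4 + 2 ^ d * d) / s) ^ d := by
          refine pow_le_pow_left₀ (by positivity) ?_ d
          have h2 : (2 * m : ℝ) ≤ 4 * (1 / s) := by linarith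
          refine h2.trans ?_
          rw [mul_one_div]
          refine div_le_div_of_nonneg_right ?_ hs.le
          have : (0 : ℝ) ≤ 2 ^ d * d := by positivity
          linarith
  · refine (P1b_codim_int u p hp hs fun x hx => ?_).trans ?_
    · have hxi : ∀ i, |x i| < 1 := fun i => by
        have h1 : ‖x‖ < 1 := by simpa using hx
        have h2 : ‖x i‖ ≤ ‖x‖ := PiLp.norm_apply_le x i
        rw [Real.norm_eq_abs] at h2
        linarith
      have hk : ∀ i, ∃ k : Fin (2 * m), ((k : ℝ) - m) * s ≤ x i ∧ x i < ((k : ℝ) - m) * s + s := by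
        intro i
        have h1 := abs_lt.1 (hxi i)
        have h2 : 0 ≤ x i / s + m := by
          have : -(1 / s) ≤ x i / s := by
            rw [← neg_div]
            exact div_le_div_of_nonneg_right h1.1.le hs.le
          linarith
        have h3 : x i / s + m < 2 * m := by
          have : x i / s < 1 / s := div_lt_div_of_pos_right h1.2 hs
          linarith
        have h4 := Nat.floor_le h2
        have h5 := Nat.lt_floor_add_one (x i / s + m)
        have h6 : ⌊x i / s + m⌋₊ < 2 * m := by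
          rw [Nat.floor_lt h2]
          push_cast
          exact h3
        refine ⟨⟨⌊x i / s + m⌋₊, h6⟩, ?_, ?_⟩
        · have : (⌊x i / s + m⌋₊ : ℝ) - m ≤ x i / s := by linarith
          calc ((⌊x i / s + m⌋₊ : ℝ) - m) * s ≤ x i / s * s := mul_le_mul_of_nonneg_right this hs.le
            _ = x i := by field_simp
        · have : x i / s < (⌊x i / s + m⌋₊ : ℝ) - m + 1 := by linarith
          calc x i = x i / s * s := by field_simp
            _ < ((⌊x i / s + m⌋₊ : ℝ) - m + 1) * s := mul_lt_mul_of_pos_right this hs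
            _ = _ := by ring
      choose k hk using hk
      refine ⟨fun i => ((k i : ℝ) - m) * s, hk, ?_⟩
      have h1 := hF (v k) (Submodule.subset_span ⟨k, rfl⟩)
      rw [← h1]
      exact (L2.inner_indicatorConstLp_one (𝕜 := ℂ) _ (hfin k) u).symm
    · have hS : 0 ≤ ∑ i, ‖p i‖ ^ 2 := Finset.sum_nonneg fun i _ => by positivity
      refine mul_le_mul_of_nonneg_right ?_ hS
      refine mul_le_mul_of_nonneg_right ?_ (by positivity)
      linarith

end Pool.Agent.Helper31_CP
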