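import Mathlib
import Pool.Agent.Helper31_CP.Defs

set_option autoImplicit false

namespace Pool.Agent.Helper31_CP

open MeasureTheory Filter Topology Set
open scoped InnerProductSpace

namespace J_P2_bumps

/-- scaled and translated copy of `g` -/
noncomputable def cp {d : ℕ} (g : EE d → ℂ) (C s : ℝ) (y : EE d) (x : EE d) : ℂ :=
  (C : ℂ) * g (s⁻¹ • (x - y))

lemma change {d : ℕ} (h : EE d → ℝ) (s : ℝ) (hs : 0 < s) (y : EE d) :
    ∫ x, h (s⁻¹ • (x - y)) = s ^ d * ∫ x, h x := by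
  have h1 : ∫ x, h (s⁻¹ • (x - y)) = ∫ x, h (s⁻¹ • x) :=
    integral_sub_right_eq_self (μ := (volume : Measure (EE d))) (fun x => h (s⁻¹ • x)) y
  rw [h1, Measure.integral_comp_inv_smul]
  rw [finrank_euclideanSpace_fin, abs_of_pos (pow_pos hs d), smul_eq_mul]

lemma pd_cp {d : ℕ} (g : EE d → ℂ) (hg : Differentiable ℝ g) (C s : ℝ) (y : EE d) (i : Fin d)
    (x : EE d) : pd i (cp g C s y) x = (C : ℂ) * (((s⁻¹ : ℝ) : ℂ) * pd i g (s⁻¹ • (x - y))) := by
  have h1 : HasFDerivAt (fun x : EE d => s⁻¹ • (x - y)) (s⁻¹ • ContinuousLinearMap.id ℝ (EE d)) x :=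
    ((hasFDerivAt_id x).sub_const y).const_smul s⁻¹
  have h2 : HasFDerivAt (fun x : EE d => g (s⁻¹ • (x - y)))
      ((fderiv ℝ g (s⁻¹ • (x - y))).comp (s⁻¹ • ContinuousLinearMap.id ℝ (EE d))) x :=
    (hg (s⁻¹ • (x - y))).hasFDerivAt.comp x h1
  have h3 := h2.const_mul (C : ℂ)
  have h4 : fderiv ℝ (cp g C s y) x = (C : ℂ) •
      ((fderiv ℝ g (s⁻¹ • (x - y))).comp (s⁻¹ • ContinuousLinearMap.id ℝ (EE d))) := h3.fderiv
  unfold pd
  rw [h4]
  simp

end J_P2_bumps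

/-- TARGET -/
theorem bumps (d : ℕ) (hd : 1 ≤ d) : ∃ c L₀ : ℝ, 0 < c ∧ 0 < L₀ ∧ ∀ L : ℝ, L₀ ≤ L →
    ∃ (n : ℕ) (φ : Fin n → EE d → ℂ), c * L ^ d ≤ n ∧ (∀ j, IsTest (φ j)) ∧
      (∀ j x, φ j x ≠ 0 → ‖x‖ ≤ 1 / 2) ∧ (∀ j k, j ≠ k → ∀ x, φ j x = 0 ∨ φ k x = 0) ∧
      (∀ j, ∫ x, ‖φ j x‖ ^ 2 = 1) ∧ ∀ j, ∑ i, ∫ x, ‖pd i (φ j) x‖ ^ 2 ≤ L ^ 2 / 2 := by
  classical
  let f : ContDiffBump (0 : EE d) := ⟨1 / 4, 1 / 2, by norm_num, by norm_num⟩
  have hfr : f.rOut = 1 / 2 := rfl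
  let g : EE d → ℂ := fun x => ((f x : ℝ) : ℂ)
  have hgsm : ContDiff ℝ (⊤ : ℕ∞) g := by
    have h1 : ContDiff ℝ (⊤ : ℕ∞) (fun x => f x) := f.contDiff
    exact Complex.ofRealCLM.contDiff.comp h1
  have hgd : Differentiable ℝ g := hgsm.differentiable (by simp)
  have hg0 : ∀ x, g x ≠ 0 → ‖x‖ < 1 / 2 := by
    intro x hx
    have h1 : f x ≠ 0 := by
      intro h
      apply hx
      simp [g, h]
    have h2 : x ∈ Function.support f := h1
    rw [f.support_eq, hfr] at h2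
    simpa using h2
  let a : ℝ := ∫ x, ‖g x‖ ^ 2
  have ha : 0 < a := by
    have hc : Continuous (fun x : EE d => ‖g x‖ ^ 2) := (hgsm.continuous.norm).pow 2
    apply hc.integral_pos_of_hasCompactSupport_nonneg_nonzero (x := 0)
    · apply HasCompactSupport.of_support_subset_isCompact (isCompact_closedBall (0 : EE d) (1 / 2))
      intro x hx
      have h1 : g x ≠ 0 := by
        intro h
        apply hx
        simp [h]
      have := hg0 x h1
      simp only [Metric.mem_closedBall, dist_zero_right]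
      exact this.le
    · intro x
      exact sq_nonneg _
    · have h1 : f 0 = 1 := f.one_of_mem_closedBall (by simp [f.rIn_pos.le])
      simp [g, h1]
  let K : ℝ := (∑ i, ∫ x, ‖pd i g x‖ ^ 2) / a
  have hK : 0 ≤ K := by
    apply div_nonneg _ ha.le
    apply Finset.sum_nonneg
    intro i _
    exact integral_nonneg (fun x => sq_nonneg _)
  let q : ℝ := Real.sqrt (2 * K + 2)
  have hq : 0 < q := Real.sqrt_pos.mpr (by linarith)
  have hq2 : q ^ 2 = 2 * K + 2 := Real.sq_sqrt (by linarith)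
  have hdr : (0 : ℝ) < Real.sqrt d := Real.sqrt_pos.mpr (by exact_mod_cast (by omega : 0 < d))
  have hd2 : Real.sqrt d ^ 2 = d := Real.sq_sqrt (Nat.cast_nonneg d)
  refine ⟨(1 / (4 * Real.sqrt d * q)) ^ d, 2 * q, by positivity, by positivity, ?_⟩
  intro L hL
  have hLp : 0 < L := by linarith
  let s : ℝ := q / L
  have hs : 0 < s := div_pos hq hLp
  have hs2 : s ≤ 1 / 2 := by
    rw [div_le_iff₀ hLp]
    linarith
  let m : ℕ := ⌊1 / (4 * Real.sqrt d * s)⌋₊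
  have hm : (m : ℝ) ≤ 1 / (4 * Real.sqrt d * s) := Nat.floor_le (by positivity)
  have hm1 : 1 / (4 * Real.sqrt d * s) ≤ (m : ℝ) + 1 := (Nat.lt_floor_add_one _).le
  let C : ℝ := (Real.sqrt (a * s ^ d))⁻¹
  have has : 0 < a * s ^ d := by positivity
  have hC2 : C ^ 2 = (a * s ^ d)⁻¹ := by
    rw [inv_pow, Real.sq_sqrt has.le]
  let ι := Fin d → Fin (m + 1)
  let Y : ι → EE d := fun k => s • (WithLp.toLp 2 (fun i => ((k i : ℕ) : ℝ)))
  have hYi : ∀ k i, Y k i = s * ((k i : ℕ) : ℝ) := by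
    intro k i
    simp [Y]
  have hYn : ∀ k, ‖Y k‖ ≤ 1 / 4 := by
    intro k
    rw [EuclideanSpace.norm_eq]
    apply Real.sqrt_le_iff.mpr
    refine ⟨by norm_num, ?_⟩
    have h1 : ∀ i, ‖Y k i‖ ^ 2 ≤ s ^ 2 * (1 / (4 * Real.sqrt d * s)) ^ 2 := by
      intro i
      rw [hYi, Real.norm_eq_abs, sq_abs, mul_pow]
      apply mul_le_mul_of_nonneg_left _ (sq_nonneg s)
      apply pow_le_pow_left₀ (Nat.cast_nonneg _)
      have h2 : ((k i : ℕ) : ℝ) ≤ m := by
        exact_mod_cast Nat.lt_succ_iff.mp (k i).2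
      linarith
    have h3 : ∑ i : Fin d, ‖Y k i‖ ^ 2 ≤ ∑ i : Fin d, s ^ 2 * (1 / (4 * Real.sqrt d * s)) ^ 2 :=
      Finset.sum_le_sum (fun i _ => h1 i)
    refine h3.trans ?_
    rw [Finset.sum_const, Finset.card_univ, Fintype.card_fin, nsmul_eq_mul]
    have h4 : (d : ℝ) * (s ^ 2 * (1 / (4 * Real.sqrt d * s)) ^ 2) = (1 / 4) ^ 2 := by
      rw [← hd2]
      field_simp
      norm_num
    exact h4.le
  have hYd : ∀ k k', k ≠ k' → s ≤ ‖Y k - Y k'‖ := by
    intro k k' hkk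
    obtain ⟨i, hi⟩ := Function.ne_iff.mp hkk
    have h1 : ‖(Y k - Y k') i‖ ≤ ‖Y k - Y k'‖ := PiLp.norm_apply_le _ i
    refine le_trans ?_ h1
    have h2 : (Y k - Y k') i = s * (((k i : ℕ) : ℝ) - ((k' i : ℕ) : ℝ)) := by
      rw [PiLp.sub_apply, hYi, hYi]
      ring
    rw [h2, Real.norm_eq_abs, abs_mul, abs_of_pos hs]
    have h3 : (1 : ℝ) ≤ |((k i : ℕ) : ℝ) - ((k' i : ℕ) : ℝ)| := by
      have h4 : ((k i : ℕ) : ℤ) - ((k' i : ℕ) : ℤ) ≠ 0 := by
        intro h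
        apply hi
        apply Fin.ext
        omega
      have h5 : (1 : ℤ) ≤ |((k i : ℕ) : ℤ) - ((k' i : ℕ) : ℤ)| := Int.one_le_abs h4
      exact_mod_cast h5
    nlinarith
  have hsup : ∀ k x, J_P2_bumps.cp g C s (Y k) x ≠ 0 → ‖x - Y k‖ < s / 2 := by
    intro k x hx
    have h1 : g (s⁻¹ • (x - Y k)) ≠ 0 := by
      intro h
      apply hx
      simp [J_P2_bumps.cp, h]
    have h2 := hg0 _ h1
    rw [norm_smul, norm_inv, Real.norm_eq_abs, abs_of_pos hs, inv_mul_lt_iff₀ hs] at h2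
    linarith
  have hball : ∀ k x, J_P2_bumps.cp g C s (Y k) x ≠ 0 → ‖x‖ ≤ 1 / 2 := by
    intro k x hx
    have h1 := hsup k x hx
    have h2 : ‖x‖ ≤ ‖x - Y k‖ + ‖Y k‖ := by
      have := norm_add_le (x - Y k) (Y k)
      simpa using this
    have h3 := hYn k
    linarith
  let e : Fin (Fintype.card ι) ≃ ι := (Fintype.equivFin ι).symm
  refine ⟨Fintype.card ι, fun j => J_P2_bumps.cp g C s (Y (e j)), ?_, ?_, ?_, ?_, ?_, ?_⟩
  · have h1 : ((Fintype.card ι : ℕ) : ℝ) = ((m : ℝ) + 1) ^ d := by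
      simp [ι]
    rw [h1, ← mul_pow]
    apply pow_le_pow_left₀ (by positivity)
    refine le_trans (le_of_eq ?_) hm1
    simp only [s]
    field_simp
  · intro j
    constructor
    · have h1 : ContDiff ℝ (⊤ : ℕ∞) (fun x : EE d => s⁻¹ • (x - Y (e j))) :=
        (contDiff_id.sub contDiff_const).const_smul s⁻¹
      have h2 : ContDiff ℝ (⊤ : ℕ∞) (fun x : EE d => g (s⁻¹ • (x - Y (e j)))) := hgsm.comp h1
      exact contDiff_const.mul h2
    · apply HasCompactSupport.of_support_subset_isCompact (isCompact_closedBall (0 : EE d) (1 / 2))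
      intro x hx
      have := hball (e j) x hx
      simpa using this
  · intro j x hx
    exact hball (e j) x hx
  · intro j k hjk x
    by_contra hcon
    push Not at hcon
    have h1 := hsup _ _ hcon.1
    have h2 := hsup _ _ hcon.2
    have h3 := hYd (e j) (e k) (fun h => hjk (e.injective h))
    have h4 : ‖Y (e j) - Y (e k)‖ ≤ ‖x - Y (e k)‖ + ‖x - Y (e j)‖ := by
      have h5 : Y (e j) - Y (e k) = (x - Y (e k)) - (x - Y (e j)) := by abel
      rw [h5]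
      exact norm_sub_le _ _
    linarith
  · intro j
    have h1 : ∀ x, ‖J_P2_bumps.cp g C s (Y (e j)) x‖ ^ 2
        = C ^ 2 * ‖g (s⁻¹ • (x - Y (e j)))‖ ^ 2 := by
      intro x
      simp only [J_P2_bumps.cp]
      rw [norm_mul, mul_pow, Complex.norm_real, Real.norm_eq_abs, sq_abs]
    simp_rw [h1]
    rw [integral_const_mul, J_P2_bumps.change (fun x => ‖g x‖ ^ 2) s hs, hC2]
    change (a * s ^ d)⁻¹ * (s ^ d * a) = 1
    field_simp
  · intro j
    have h1 : ∀ i, ∫ x, ‖pd i (J_P2_bumps.cp g C s (Y (e j))) x‖ ^ 2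
        = (s ^ 2)⁻¹ * (∫ x, ‖pd i g x‖ ^ 2) / a := by
      intro i
      have h2 : ∀ x, ‖pd i (J_P2_bumps.cp g C s (Y (e j))) x‖ ^ 2
          = (C ^ 2 * (s ^ 2)⁻¹) * ‖pd i g (s⁻¹ • (x - Y (e j)))‖ ^ 2 := by
        intro x
        rw [J_P2_bumps.pd_cp g hgd, norm_mul, norm_mul, mul_pow, mul_pow, Complex.norm_real,
          Complex.norm_real, Real.norm_eq_abs, Real.norm_eq_abs, sq_abs, sq_abs, inv_pow]
        ring
      simp_rw [h2]
      rw [integral_const_mul, J_P2_bumps.change (fun x => ‖pd i g x‖ ^ 2) s hs, hC2]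
      field_simp
    simp_rw [h1]
    have h3 : ∑ i, (s ^ 2)⁻¹ * (∫ x, ‖pd i g x‖ ^ 2) / a = (s ^ 2)⁻¹ * K := by
      simp only [K]
      rw [Finset.sum_div, Finset.mul_sum]
      apply Finset.sum_congr rfl
      intro i _
      ring
    rw [h3]
    have h4 : (s ^ 2)⁻¹ = L ^ 2 / (2 * K + 2) := by
      rw [← hq2]
      simp only [s]
      field_simp
    rw [h4, div_mul_eq_mul_div, div_le_div_iff₀ (by linarith) (by norm_num)]
    nlinarith [sq_nonneg L, mul_nonneg (sq_nonneg L) hK]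

end Pool.Agent.Helper31_CP
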