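import Mathlib
import Pool.Agent.Helper31_CP.Defs

set_option autoImplicit false

namespace Pool.Agent.Helper31_CP

open MeasureTheory Filter Topology Set
open scoped InnerProductSpace

namespace J_P3_agmon

open MeasureTheory Filter Topology Set
open scoped InnerProductSpace

variable {d : ℕ}

/-- products of an element of `L²` with a bounded continuous real function -/
theorem memLp_mul (u : HH d) (ψ : EE d → ℝ) (hψ : Continuous ψ) (B : ℝ) (hB : ∀ x, |ψ x| ≤ B) :
    MemLp (fun x => (ψ x : ℂ) * u x) 2 (volume : Measure (EE d)) := by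
  refine MemLp.of_le_mul (c := B) (Lp.memLp u) ?_ ?_
  · exact (Complex.continuous_ofReal.comp hψ).aestronglyMeasurable.mul (Lp.aestronglyMeasurable u)
  · refine Eventually.of_forall fun x => ?_
    rw [norm_mul, Complex.norm_real]
    exact mul_le_mul_of_nonneg_right (hB x) (norm_nonneg _)

/-- products of an element of `L²` with a continuous function of compact support are integrable -/
theorem int_mul (u : HH d) (g : EE d → ℂ) (hg : Continuous g) (hc : HasCompactSupport g) :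
    Integrable (fun x => u x * g x) (volume : Measure (EE d)) := by
  have h1 : MemLp g 2 (volume : Measure (EE d)) := hg.memLp_of_hasCompactSupport hc
  exact (Lp.memLp u).integrable_mul h1

theorem pd_cont {φ : EE d → ℂ} (hφ : IsTest φ) (i : Fin d) : Continuous (pd i φ) ∧ HasCompactSupport (pd i φ) := by
  constructor
  · have h1 : Continuous (fderiv ℝ φ) := hφ.1.continuous_fderiv (by simp)
    exact h1.clm_apply continuous_const
  · have h1 := hφ.2.fderiv (𝕜 := ℝ)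
    exact h1.comp_left (g := fun L : EE d →L[ℝ] ℂ => L (EuclideanSpace.single i 1)) rfl

/-- the weak product rule -/
theorem wd_mul (i : Fin d) (u p v q : HH d) (hu : WD i u p) (ψ : EE d → ℝ) (hψ : ContDiff ℝ (⊤ : ℕ∞) ψ)
    (hv : (v : EE d → ℂ) =ᵐ[volume] fun x => (ψ x : ℂ) * u x)
    (hq : (q : EE d → ℂ) =ᵐ[volume] fun x => (ψ x : ℂ) * p x +
      ((fderiv ℝ ψ x (EuclideanSpace.single i 1) : ℝ) : ℂ) * u x) : WD i v q := by
  intro φ hφ
  have hψc : Continuous ψ := hψ.continuous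
  have hψd : Continuous (fun x => fderiv ℝ ψ x (EuclideanSpace.single i 1)) :=
    (hψ.continuous_fderiv (by simp)).clm_apply continuous_const
  have hC : ContDiff ℝ (⊤ : ℕ∞) (fun x => (ψ x : ℂ)) := Complex.ofRealCLM.contDiff.comp hψ
  have hφ' : IsTest (fun x => (ψ x : ℂ) * φ x) := by
    constructor
    · exact hC.mul hφ.1
    · exact hφ.2.mul_left
  have hpd : ∀ x, pd i (fun x => (ψ x : ℂ) * φ x) x =
      ((fderiv ℝ ψ x (EuclideanSpace.single i 1) : ℝ) : ℂ) * φ x + (ψ x : ℂ) * pd i φ x := by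
    intro x
    unfold pd
    have h1 : DifferentiableAt ℝ (fun x => (ψ x : ℂ)) x := (hC.differentiable (by simp)) x
    have h2 : DifferentiableAt ℝ φ x := (hφ.1.differentiable (by simp)) x
    rw [fderiv_fun_mul h1 h2]
    have h3 : fderiv ℝ (fun x => (ψ x : ℂ)) x = Complex.ofRealCLM.comp (fderiv ℝ ψ x) := by
      have h4 : HasFDerivAt (fun x => (ψ x : ℂ)) (Complex.ofRealCLM.comp (fderiv ℝ ψ x)) x :=
        Complex.ofRealCLM.hasFDerivAt.comp x ((hψ.differentiable (by simp)) x).hasFDerivAt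
      exact h4.fderiv
    rw [h3]
    simp [smul_eq_mul]
    ring
  have i1 : Integrable (fun x => u x * pd i (fun x => (ψ x : ℂ) * φ x) x) (volume : Measure (EE d)) :=
    int_mul u _ (pd_cont hφ' i).1 (pd_cont hφ' i).2
  have hcc : HasCompactSupport (fun x => ((fderiv ℝ ψ x (EuclideanSpace.single i 1) : ℝ) : ℂ) * φ x) :=
    hφ.2.mul_left
  have i2 : Integrable (fun x => u x * (((fderiv ℝ ψ x (EuclideanSpace.single i 1) : ℝ) : ℂ) * φ x))
      (volume : Measure (EE d)) :=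
    int_mul u _ ((Complex.continuous_ofReal.comp hψd).mul hφ.1.continuous) hcc
  have i3 : Integrable (fun x => p x * ((ψ x : ℂ) * φ x)) (volume : Measure (EE d)) :=
    int_mul p _ hφ'.1.continuous hφ'.2
  have e1 : ∫ x, v x * pd i φ x = ∫ x, (u x * pd i (fun x => (ψ x : ℂ) * φ x) x -
      u x * (((fderiv ℝ ψ x (EuclideanSpace.single i 1) : ℝ) : ℂ) * φ x)) := by
    apply integral_congr_ae
    filter_upwards [hv] with x hx
    rw [hx, hpd]
    ring
  have e2 : ∫ x, q x * φ x = ∫ x, (p x * ((ψ x : ℂ) * φ x) +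
      u x * (((fderiv ℝ ψ x (EuclideanSpace.single i 1) : ℝ) : ℂ) * φ x)) := by
    apply integral_congr_ae
    filter_upwards [hq] with x hx
    rw [hx]
    ring
  rw [e1, e2, integral_sub i1 i2, integral_add i3 i2, hu _ hφ']
  ring

theorem norm_sq_eq (u : HH d) : ‖u‖ ^ 2 = ∫ x, ‖u x‖ ^ 2 := by
  have h1 : ((‖u‖ ^ 2 : ℝ) : ℂ) = ⟪u, u⟫_ℂ := by
    rw [inner_self_eq_norm_sq_to_K]
    push_cast
    rfl
  rw [L2.inner_def] at h1
  have h2 : ∀ x, ⟪u x, u x⟫_ℂ = ((‖u x‖ ^ 2 : ℝ) : ℂ) := by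
    intro x
    rw [inner_self_eq_norm_sq_to_K]
    push_cast
    rfl
  simp_rw [h2] at h1
  rw [integral_complex_ofReal] at h1
  exact_mod_cast h1

theorem int_sq (u : HH d) : Integrable (fun x => ‖u x‖ ^ 2) (volume : Measure (EE d)) :=
  (Lp.memLp u).integrable_norm_pow (by norm_num)

/-- the pointwise inequality -/
theorem pointwise (n : ℕ) (h c μ ψ W2 : ℝ) (hh : 0 < h) (u w : ℂ) (p : Fin n → ℂ) (a : Fin n → ℝ) (hψ : 0 < ψ)
    (hw : ‖w‖ ^ 2 = W2 * ‖u‖ ^ 2) :
    ψ * (W2 - μ - c ^ 2 * ∑ i, a i ^ 2) * ‖u‖ ^ 2 ≤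
      h ^ 2 * ∑ i, (((ψ : ℂ) * p i + ((-(2 * c / h) * a i * ψ : ℝ) : ℂ) * u) * (starRingEnd ℂ) (p i)).re +
        ψ * ‖w‖ ^ 2 - μ * (ψ * ‖u‖ ^ 2) := by
  have h1 : ∀ i, -(c / h) ^ 2 * a i ^ 2 * ψ * ‖u‖ ^ 2 ≤
      (((ψ : ℂ) * p i + ((-(2 * c / h) * a i * ψ : ℝ) : ℂ) * u) * (starRingEnd ℂ) (p i)).re := by
    intro i
    have h2 : (((ψ : ℂ) * p i + ((-(2 * c / h) * a i * ψ : ℝ) : ℂ) * u) * (starRingEnd ℂ) (p i)).re =
        ψ * (((p i).re - (c / h) * a i * u.re) ^ 2 + ((p i).im - (c / h) * a i * u.im) ^ 2) -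
        (c / h) ^ 2 * a i ^ 2 * ψ * (u.re ^ 2 + u.im ^ 2) := by
      simp only [Complex.mul_re, Complex.add_re, Complex.add_im, Complex.mul_im, Complex.ofReal_re,
        Complex.ofReal_im, Complex.conj_re, Complex.conj_im]
      ring
    have h3 : ‖u‖ ^ 2 = u.re ^ 2 + u.im ^ 2 := by
      rw [← Complex.normSq_eq_norm_sq, Complex.normSq_apply]
      ring
    rw [h2, h3]
    have h4 : 0 ≤ ψ * (((p i).re - (c / h) * a i * u.re) ^ 2 + ((p i).im - (c / h) * a i * u.im) ^ 2) := by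
      positivity
    linarith
  have h5 : -(c ^ 2) * (∑ i, a i ^ 2) * ψ * ‖u‖ ^ 2 ≤
      h ^ 2 * ∑ i, (((ψ : ℂ) * p i + ((-(2 * c / h) * a i * ψ : ℝ) : ℂ) * u) * (starRingEnd ℂ) (p i)).re := by
    calc -(c ^ 2) * (∑ i, a i ^ 2) * ψ * ‖u‖ ^ 2 = h ^ 2 * ∑ i, (-(c / h) ^ 2 * a i ^ 2 * ψ * ‖u‖ ^ 2) := by
          rw [← Finset.sum_mul, ← Finset.sum_mul, ← Finset.mul_sum]
          field_simp
      _ ≤ _ := mul_le_mul_of_nonneg_left (Finset.sum_le_sum fun i _ => h1 i) (by positivity)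
  rw [hw]
  nlinarith

end J_P3_agmon

/-- TARGET -/
theorem agmon (d : ℕ) (r : ℝ) (hr : 0 < r) (hr1 : r < 1) : ∃ c : ℝ, 0 < c ∧
    ∀ (h : ℝ) (_ : 0 < h) (W : EE d → ℝ) (_ : Measurable W) (u w : HH d) (p : Fin d → HH d)
      (μ : ℝ) (_ : 0 ≤ μ) (_ : ∀ i, WD i u (p i))
      (_ : (w : EE d → ℂ) =ᵐ[volume] fun x => (W x : ℂ) * u x)
      (_ : ∀ x : EE d, r ≤ ‖x‖ → μ + 2 ≤ (W x) ^ 2)
      (_ : ∀ (v w' : HH d) (q : Fin d → HH d), (∀ i, WD i v (q i)) →
        ((w' : EE d → ℂ) =ᵐ[volume] fun x => (W x : ℂ) * v x) →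
        ((h ^ 2 : ℝ) : ℂ) * ∑ i, ⟪q i, p i⟫_ℂ + ⟪w', w⟫_ℂ = (μ : ℂ) * ⟪v, u⟫_ℂ),
      ∫ x in {x : EE d | 1 ≤ ‖x‖}, ‖u x‖ ^ 2 ≤ μ * Real.exp (-(2 * c / h)) * ‖u‖ ^ 2 := by
  classical
  -- the cut-off
  let f : ContDiffBump (0 : EE d) := ⟨r, 1, hr, hr1⟩
  have hfs : ContDiff ℝ (⊤ : ℕ∞) (f : EE d → ℝ) := f.contDiff
  have hfd : Continuous (fun x : EE d => ∑ i : Fin d, (fderiv ℝ (f : EE d → ℝ) x (EuclideanSpace.single i 1)) ^ 2) := by
    refine continuous_finsetSum _ fun i _ => ?_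
    exact ((hfs.continuous_fderiv (by simp)).clm_apply continuous_const).pow 2
  have hfdc : HasCompactSupport (fun x : EE d =>
      ∑ i : Fin d, (fderiv ℝ (f : EE d → ℝ) x (EuclideanSpace.single i 1)) ^ 2) := by
    have h1 := f.hasCompactSupport.fderiv (𝕜 := ℝ)
    refine h1.comp_left (g := fun L : EE d →L[ℝ] ℝ => ∑ i : Fin d, (L (EuclideanSpace.single i 1)) ^ 2) ?_
    simp
  obtain ⟨K0, hK0⟩ := hfdc.exists_bound_of_continuous hfd
  set K : ℝ := max K0 0 with hK
  have hK1 : 0 ≤ K := le_max_right _ _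
  have hKb : ∀ x : EE d, ∑ i : Fin d, (fderiv ℝ (f : EE d → ℝ) x (EuclideanSpace.single i 1)) ^ 2 ≤ K := by
    intro x
    have h1 := hK0 x
    rw [Real.norm_eq_abs] at h1
    exact ((le_abs_self _).trans h1).trans (le_max_left _ _)
  set c : ℝ := 1 / (K + 1) with hc
  have hc0 : 0 < c := by positivity
  have hcK : c ^ 2 * K ≤ 1 := by
    rw [hc, div_pow, one_pow, one_div, inv_mul_le_iff₀ (by positivity)]
    nlinarith
  refine ⟨c, hc0, ?_⟩
  intro h hh W hW u w p μ hμ hu hw hWr heq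
  -- the weight
  set ψ : EE d → ℝ := fun x => Real.exp (2 * c / h * (1 - f x)) with hψdef
  have hψs : ContDiff ℝ (⊤ : ℕ∞) ψ := by
    rw [hψdef]
    exact Real.contDiff_exp.comp (contDiff_const.mul (contDiff_const.sub hfs))
  have hψc : Continuous ψ := hψs.continuous
  have hψ0 : ∀ x, 0 < ψ x := fun x => Real.exp_pos _
  have hch : 0 < 2 * c / h := by positivity
  have hψB : ∀ x, ψ x ≤ Real.exp (2 * c / h) := by
    intro x
    apply Real.exp_le_exp.2
    have h1 : 0 ≤ f x := f.nonneg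
    nlinarith
  have hψd : ∀ x (i : Fin d), fderiv ℝ ψ x (EuclideanSpace.single i 1) =
      -(2 * c / h) * (fderiv ℝ (f : EE d → ℝ) x (EuclideanSpace.single i 1)) * ψ x := by
    intro x i
    have h1 : HasFDerivAt (f : EE d → ℝ) (fderiv ℝ (f : EE d → ℝ) x) x :=
      ((hfs.differentiable (by simp)) x).hasFDerivAt
    have h2 := ((h1.const_sub 1).const_mul (2 * c / h)).exp
    have h3 : HasFDerivAt ψ (Real.exp (2 * c / h * (1 - f x)) •
      ((2 * c / h) • (-fderiv ℝ (f : EE d → ℝ) x))) x := h2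
    rw [h3.fderiv]
    simp only [smul_apply, neg_apply, smul_eq_mul, hψdef]
    ring
  have hψdc : ∀ i : Fin d, Continuous (fun x => fderiv ℝ ψ x (EuclideanSpace.single i 1)) := fun i =>
    (hψs.continuous_fderiv (by simp)).clm_apply continuous_const
  have hfdi : ∀ x (i : Fin d), |fderiv ℝ (f : EE d → ℝ) x (EuclideanSpace.single i 1)| ≤ K + 1 := by
    intro x i
    have h1 := hKb x
    have h2 : (fderiv ℝ (f : EE d → ℝ) x (EuclideanSpace.single i 1)) ^ 2 ≤ K :=
      (Finset.single_le_sum (f := fun i : Fin d => (fderiv ℝ (f : EE d → ℝ) x (EuclideanSpace.single i 1)) ^ 2)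
        (fun j _ => sq_nonneg _) (Finset.mem_univ i)).trans h1
    apply abs_le_of_sq_le_sq _ (by positivity)
    nlinarith
  have hψdB : ∀ x (i : Fin d), |fderiv ℝ ψ x (EuclideanSpace.single i 1)| ≤
      (2 * c / h) * (K + 1) * Real.exp (2 * c / h) := by
    intro x i
    rw [hψd, abs_mul, abs_mul, abs_neg, abs_of_pos hch, abs_of_pos (hψ0 x)]
    exact mul_le_mul (mul_le_mul_of_nonneg_left (hfdi x i) hch.le) (hψB x) (hψ0 x).le (by positivity)
  have hψBa : ∀ x, |ψ x| ≤ Real.exp (2 * c / h) := fun x => by rw [abs_of_pos (hψ0 x)]; exact hψB x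
  -- the test functions
  have mv := J_P3_agmon.memLp_mul u ψ hψc _ hψBa
  have mw := J_P3_agmon.memLp_mul w ψ hψc _ hψBa
  have mq : ∀ i, MemLp (fun x => (ψ x : ℂ) * p i x +
      ((fderiv ℝ ψ x (EuclideanSpace.single i 1) : ℝ) : ℂ) * u x) 2 (volume : Measure (EE d)) := fun i =>
    (J_P3_agmon.memLp_mul (p i) ψ hψc _ hψBa).add (J_P3_agmon.memLp_mul u _ (hψdc i) _ (fun x => hψdB x i))
  set v : HH d := mv.toLp _ with hv
  set w' : HH d := mw.toLp _ with hw'
  set q : Fin d → HH d := fun i => (mq i).toLp _ with hq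
  have ev : (v : EE d → ℂ) =ᵐ[volume] fun x => (ψ x : ℂ) * u x := mv.coeFn_toLp
  have ew : (w' : EE d → ℂ) =ᵐ[volume] fun x => (ψ x : ℂ) * w x := mw.coeFn_toLp
  have eq : ∀ i, (q i : EE d → ℂ) =ᵐ[volume] fun x => (ψ x : ℂ) * p i x +
      ((fderiv ℝ ψ x (EuclideanSpace.single i 1) : ℝ) : ℂ) * u x := fun i => (mq i).coeFn_toLp
  have key := heq v w' q (fun i => J_P3_agmon.wd_mul i u (p i) v (q i) (hu i) ψ hψs ev (eq i)) (by
    filter_upwards [ev, ew, hw] with x h1 h2 h3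
    rw [h2, h3, h1]
    ring)
  -- real parts
  have hre : ∀ a b : HH d, (⟪a, b⟫_ℂ).re = ∫ x, (⟪a x, b x⟫_ℂ).re := by
    intro a b
    rw [L2.inner_def]
    exact (integral_re (𝕜 := ℂ) (L2.integrable_inner (𝕜 := ℂ) a b)).symm
  have hint : ∀ a b : HH d, Integrable (fun x => (⟪a x, b x⟫_ℂ).re) (volume : Measure (EE d)) := by
    intro a b
    exact (L2.integrable_inner (𝕜 := ℂ) a b).re
  have key2 := congrArg Complex.re key
  have hR : ∫ x, (h ^ 2 * ∑ i, (⟪q i x, p i x⟫_ℂ).re + (⟪w' x, w x⟫_ℂ).re - μ * (⟪v x, u x⟫_ℂ).re) = 0 := by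
    rw [integral_sub, integral_add, integral_const_mul, integral_finsetSum, integral_const_mul]
    · rw [Complex.add_re, Complex.re_ofReal_mul, Complex.re_ofReal_mul, Complex.re_sum] at key2
      simp only [hre] at key2
      linarith
    · intro i _
      exact hint _ _
    · exact (integrable_finsetSum _ fun i _ => hint _ _).const_mul _
    · exact hint _ _
    · exact ((integrable_finsetSum _ fun i _ => hint _ _).const_mul _).add (hint _ _)
    · exact (hint _ _).const_mul _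
  have hRi : Integrable (fun x => h ^ 2 * ∑ i, (⟪q i x, p i x⟫_ℂ).re + (⟪w' x, w x⟫_ℂ).re - μ * (⟪v x, u x⟫_ℂ).re)
      (volume : Measure (EE d)) :=
    (((integrable_finsetSum _ fun i _ => hint _ _).const_mul _).add (hint _ _)).sub ((hint _ _).const_mul _)
  have hS : MeasurableSet {x : EE d | 1 ≤ ‖x‖} := measurableSet_le measurable_const measurable_norm
  have hsq := J_P3_agmon.int_sq u
  -- the pointwise inequality
  have hle : ∫ x, (({x : EE d | 1 ≤ ‖x‖}.indicator (fun x => Real.exp (2 * c / h) * ‖u x‖ ^ 2) x) - μ * ‖u x‖ ^ 2) ≤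
      ∫ x, (h ^ 2 * ∑ i, (⟪q i x, p i x⟫_ℂ).re + (⟪w' x, w x⟫_ℂ).re - μ * (⟪v x, u x⟫_ℂ).re) := by
    apply integral_mono_ae _ hRi
    · have hall : ∀ᵐ x : EE d, ∀ i, q i x = (ψ x : ℂ) * p i x +
          ((fderiv ℝ ψ x (EuclideanSpace.single i 1) : ℝ) : ℂ) * u x := ae_all_iff.2 eq
      filter_upwards [ev, ew, hall, hw] with x h1 h2 h3 h4
      have hw2 : ‖w x‖ ^ 2 = (W x) ^ 2 * ‖u x‖ ^ 2 := by
        rw [h4, norm_mul, mul_pow, Complex.norm_real, Real.norm_eq_abs, sq_abs]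
      have hpt := J_P3_agmon.pointwise d h c μ (ψ x) ((W x) ^ 2) hh (u x) (w x) (fun i => p i x)
        (fun i => fderiv ℝ (f : EE d → ℝ) x (EuclideanSpace.single i 1)) (hψ0 x) hw2
      have g1 : ∀ i, (⟪q i x, p i x⟫_ℂ).re = (((ψ x : ℂ) * p i x +
          ((-(2 * c / h) * fderiv ℝ (f : EE d → ℝ) x (EuclideanSpace.single i 1) * ψ x : ℝ) : ℂ) * u x) *
          (starRingEnd ℂ) (p i x)).re := by
        intro i
        rw [h3 i, hψd]
        simp only [RCLike.inner_apply, Complex.mul_re, Complex.conj_re, Complex.conj_im]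
        ring
      have g2 : (⟪w' x, w x⟫_ℂ).re = ψ x * ‖w x‖ ^ 2 := by
        rw [h2, ← Complex.normSq_eq_norm_sq, Complex.normSq_apply]
        simp only [RCLike.inner_apply, Complex.mul_re, Complex.mul_im, Complex.conj_re, Complex.conj_im,
          Complex.ofReal_re, Complex.ofReal_im]
        ring
      have g3 : (⟪v x, u x⟫_ℂ).re = ψ x * ‖u x‖ ^ 2 := by
        rw [h1, ← Complex.normSq_eq_norm_sq, Complex.normSq_apply]
        simp only [RCLike.inner_apply, Complex.mul_re, Complex.mul_im, Complex.conj_re, Complex.conj_im,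
          Complex.ofReal_re, Complex.ofReal_im]
        ring
      simp only [g1, g2, g3]
      refine le_trans ?_ hpt
      have hu0 : 0 ≤ ‖u x‖ ^ 2 := by positivity
      have hKx := hKb x
      have hS0 : 0 ≤ ∑ i : Fin d, (fderiv ℝ (f : EE d → ℝ) x (EuclideanSpace.single i 1)) ^ 2 :=
        Finset.sum_nonneg fun i _ => sq_nonneg _
      have hcS : c ^ 2 * ∑ i : Fin d, (fderiv ℝ (f : EE d → ℝ) x (EuclideanSpace.single i 1)) ^ 2 ≤ 1 :=
        (mul_le_mul_of_nonneg_left hKx (by positivity)).trans hcK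
      by_cases hxr : r ≤ ‖x‖
      · have hWx := hWr x hxr
        have hfac : 1 ≤ (W x) ^ 2 - μ - c ^ 2 * ∑ i : Fin d,
            (fderiv ℝ (f : EE d → ℝ) x (EuclideanSpace.single i 1)) ^ 2 := by linarith
        have hbig : ψ x * ‖u x‖ ^ 2 ≤ ψ x * ((W x) ^ 2 - μ - c ^ 2 * ∑ i : Fin d,
            (fderiv ℝ (f : EE d → ℝ) x (EuclideanSpace.single i 1)) ^ 2) * ‖u x‖ ^ 2 := by
          apply mul_le_mul_of_nonneg_right _ hu0
          nlinarith [hψ0 x]
        refine le_trans ?_ hbig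
        by_cases hx1 : 1 ≤ ‖x‖
        · rw [Set.indicator_of_mem (show x ∈ {x : EE d | 1 ≤ ‖x‖} from hx1)]
          have hf0 : f x = 0 := f.zero_of_le_dist (by rw [dist_zero_right]; exact hx1)
          have hψx : ψ x = Real.exp (2 * c / h) := by
            rw [hψdef]
            simp [hf0]
          rw [hψx]
          have : 0 ≤ μ * ‖u x‖ ^ 2 := by positivity
          linarith
        · rw [Set.indicator_of_notMem (show x ∉ {x : EE d | 1 ≤ ‖x‖} from hx1)]
          have h5 : 0 ≤ μ * ‖u x‖ ^ 2 := by positivity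
          have h6 : 0 ≤ ψ x * ‖u x‖ ^ 2 := mul_nonneg (hψ0 x).le hu0
          linarith
      · rw [not_le] at hxr
        have hx1 : ¬ 1 ≤ ‖x‖ := by linarith
        rw [Set.indicator_of_notMem (show x ∉ {x : EE d | 1 ≤ ‖x‖} from hx1)]
        have hf1 : f x = 1 := f.one_of_mem_closedBall (by rw [mem_closedBall_zero_iff]; exact hxr.le)
        have hψx : ψ x = 1 := by
          rw [hψdef]
          simp [hf1]
        have hfd0 : fderiv ℝ (f : EE d → ℝ) x = 0 := by
          have h5 : (f : EE d → ℝ) =ᶠ[𝓝 x] fun _ => (1 : ℝ) := by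
            filter_upwards [Metric.isOpen_ball.mem_nhds (show x ∈ Metric.ball (0 : EE d) r by
              rw [mem_ball_zero_iff]; exact hxr)] with y hy
            exact f.one_of_mem_closedBall (Metric.ball_subset_closedBall hy)
          rw [h5.fderiv_eq]
          simp
        rw [hψx, hfd0]
        simp only [zero_apply]
        have h5 : 0 ≤ (W x) ^ 2 * ‖u x‖ ^ 2 := by positivity
        simp
        nlinarith
    · exact ((hsq.const_mul _).indicator hS).sub (hsq.const_mul _)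
  rw [hR, integral_sub ((hsq.const_mul _).indicator hS) (hsq.const_mul _), integral_indicator hS,
    integral_const_mul, integral_const_mul, ← J_P3_agmon.norm_sq_eq] at hle
  have hexp : Real.exp (-(2 * c / h)) * Real.exp (2 * c / h) = 1 := by
    rw [← Real.exp_add]
    simp
  calc ∫ x in {x : EE d | 1 ≤ ‖x‖}, ‖u x‖ ^ 2
      = Real.exp (-(2 * c / h)) * (Real.exp (2 * c / h) * ∫ x in {x : EE d | 1 ≤ ‖x‖}, ‖u x‖ ^ 2) := by
        rw [← mul_assoc, hexp, one_mul]
    _ ≤ Real.exp (-(2 * c / h)) * (μ * ‖u‖ ^ 2) :=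
        mul_le_mul_of_nonneg_left (by linarith) (Real.exp_pos _).le
    _ = μ * Real.exp (-(2 * c / h)) * ‖u‖ ^ 2 := by ring


end Pool.Agent.Helper31_CP

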