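import Mathlib
import Pool.Agent.Helper31_CP.Defs

set_option autoImplicit false

namespace Pool.Agent.Helper31_CP

open MeasureTheory Filter Topology Set
open scoped InnerProductSpace

namespace J_P5_space

/-- the bilinear pairing with an `L²` function as a continuous functional -/
theorem pairing {d : ℕ} {g : EE d → ℂ} (hg : MemLp g 2 volume) :
    ∃ L : HH d →L[ℂ] ℂ, ∀ f : HH d, L f = ∫ x, f x * g x := by
  refine ⟨innerSL ℂ (hg.star.toLp (star g)), fun f => ?_⟩
  rw [innerSL_apply_apply, L2.inner_def]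
  refine integral_congr_ae ?_
  filter_upwards [hg.star.coeFn_toLp] with x hx
  rw [hx, RCLike.inner_apply, Pi.star_apply]
  simp

theorem of_functionals {d : ℕ} (T : Set (VX d →L[ℂ] ℂ)) :
    ∃ S : Submodule ℂ (VX d), IsClosed (S : Set (VX d)) ∧ ∀ z, z ∈ S ↔ ∀ t ∈ T, t z = 0 := by
  refine ⟨⨅ t ∈ T, LinearMap.ker (t : VX d →ₗ[ℂ] ℂ), ?_, ?_⟩
  · simp only [Submodule.coe_iInf]
    refine isClosed_iInter fun t => isClosed_iInter fun _ => ?_
    exact t.isClosed_ker
  · intro z
    simp only [Submodule.mem_iInf, LinearMap.mem_ker, ContinuousLinearMap.coe_coe]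

theorem func2 {d : ℕ} (c : ℂ) (a b : Option (Option (Fin d))) {g k : EE d → ℂ}
    (hg : MemLp g 2 volume) (hk : MemLp k 2 volume) :
    ∃ t : VX d →L[ℂ] ℂ, ∀ z, t z = c * (∫ x, z a x * g x) + ∫ x, z b x * k x := by
  obtain ⟨L, hL⟩ := pairing hg
  obtain ⟨M, hM⟩ := pairing hk
  refine ⟨c • (L.comp (PiLp.proj (𝕜 := ℂ) 2 (fun _ : Option (Option (Fin d)) => HH d) a)) +
    M.comp (PiLp.proj (𝕜 := ℂ) 2 (fun _ : Option (Option (Fin d)) => HH d) b), fun z => ?_⟩
  show c • L (z a) + M (z b) = _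
  rw [hL, hM, smul_eq_mul]

theorem memLp_test {d : ℕ} {φ : EE d → ℂ} (h : IsTest φ) : MemLp φ 2 volume :=
  h.1.continuous.memLp_of_hasCompactSupport h.2

theorem memLp_pd {d : ℕ} {φ : EE d → ℂ} (h : IsTest φ) (i : Fin d) :
    MemLp (pd i φ) 2 volume := by
  refine Continuous.memLp_of_hasCompactSupport ?_ ?_
  · exact (h.1.continuous_fderiv (by simp)).clm_apply continuous_const
  · exact h.2.fderiv_apply (𝕜 := ℝ) _

theorem memLp_W {d : ℕ} {W : EE d → ℝ} (hW : Measurable W) {g : EE d → ℂ}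
    (hg : MemLp g 2 volume) (k : ℕ) :
    MemLp ({x | |W x| ≤ k}.indicator (fun x => (W x : ℂ) * g x)) 2 volume := by
  have hms : MeasurableSet {x | |W x| ≤ k} := measurableSet_le hW.abs measurable_const
  refine hg.of_le_mul (c := k) ?_ ?_
  · exact (((Complex.measurable_ofReal.comp hW).aestronglyMeasurable).mul
      hg.aestronglyMeasurable).indicator hms
  · refine Filter.Eventually.of_forall fun x => ?_
    by_cases hx : x ∈ {x | |W x| ≤ k}
    · rw [Set.indicator_of_mem hx, norm_mul, Complex.norm_real, Real.norm_eq_abs]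
      exact mul_le_mul_of_nonneg_right hx (norm_nonneg _)
    · rw [Set.indicator_of_notMem hx, norm_zero]
      positivity

theorem cond1 {d : ℕ} {W : EE d → ℝ} (hW : Measurable W) (u v : HH d)
    (h : ∀ (k : ℕ) (g : EE d → ℂ), MemLp g 2 volume →
      (∫ x, u x * {x | |W x| ≤ k}.indicator g x) -
        ∫ x, v x * {x | |W x| ≤ k}.indicator (fun x => (W x : ℂ) * g x) x = 0) :
    (u : EE d → ℂ) =ᵐ[volume] fun x => (W x : ℂ) * v x := by
  have hms : ∀ k : ℕ, MeasurableSet {x | |W x| ≤ k} := fun k =>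
    measurableSet_le hW.abs measurable_const
  have hu : MemLp (u : EE d → ℂ) 2 volume := Lp.memLp u
  have hv : MemLp (v : EE d → ℂ) 2 volume := Lp.memLp v
  have key : ∀ k : ℕ, ∀ᵐ x ∂(volume : Measure (EE d)), |W x| ≤ k → u x = (W x : ℂ) * v x := by
    intro k
    set F : EE d → ℂ := fun x => {x | |W x| ≤ k}.indicator (u : EE d → ℂ) x -
      {x | |W x| ≤ k}.indicator (fun x => (W x : ℂ) * v x) x with hF
    have hFm : MemLp F 2 volume := (hu.indicator (hms k)).sub (memLp_W hW hv k)
    have h1 := h k (star F) hFm.star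
    have hi1 : Integrable (fun x => u x * {x | |W x| ≤ k}.indicator (star F) x) volume :=
      hu.integrable_mul (hFm.star.indicator (hms k))
    have hi2 : Integrable (fun x => v x * {x | |W x| ≤ k}.indicator
        (fun x => (W x : ℂ) * (star F) x) x) volume :=
      hv.integrable_mul (memLp_W hW hFm.star k)
    rw [← integral_sub hi1 hi2] at h1
    have h2 : ∀ x, u x * {x | |W x| ≤ k}.indicator (star F) x -
        v x * {x | |W x| ≤ k}.indicator (fun x => (W x : ℂ) * (star F) x) x =
        ((‖F x‖ ^ 2 : ℝ) : ℂ) := by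
      intro x
      by_cases hx : x ∈ {x | |W x| ≤ k}
      · have h3 : F x = u x - (W x : ℂ) * v x := by
          rw [hF]
          simp only [Set.indicator_of_mem hx]
        have h5 : ((‖F x‖ ^ 2 : ℝ) : ℂ) = F x * star (F x) := by
          rw [Complex.ofReal_pow]
          exact (Complex.mul_conj' _).symm
        rw [Set.indicator_of_mem hx, Set.indicator_of_mem hx, Pi.star_apply, h5]
        nth_rewrite 3 [h3]
        ring
      · have h3 : F x = 0 := by
          rw [hF]
          simp only [Set.indicator_of_notMem hx, sub_self]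
        rw [Set.indicator_of_notMem hx, Set.indicator_of_notMem hx, h3]
        simp
    rw [integral_congr_ae (Filter.Eventually.of_forall h2), integral_complex_ofReal,
      Complex.ofReal_eq_zero, integral_eq_zero_iff_of_nonneg (fun x => by positivity)
      (hFm.integrable_norm_pow (by norm_num))] at h1
    filter_upwards [h1] with x hx hk
    have h4 : F x = 0 := by
      have : ‖F x‖ ^ 2 = 0 := hx
      exact norm_eq_zero.1 (pow_eq_zero_iff (two_ne_zero) |>.1 this)
    have hx' : x ∈ {x | |W x| ≤ k} := hk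
    have h3 : F x = u x - (W x : ℂ) * v x := by
      rw [hF]
      simp only [Set.indicator_of_mem hx']
    rw [h3] at h4
    exact sub_eq_zero.1 h4
  have := ae_all_iff.2 key
  filter_upwards [this] with x hx
  obtain ⟨k, hk⟩ := exists_nat_ge |W x|
  exact hx k hk

theorem cond1' {d : ℕ} {W : EE d → ℝ} (u v : HH d)
    (h : (u : EE d → ℂ) =ᵐ[volume] fun x => (W x : ℂ) * v x) (k : ℕ) (g : EE d → ℂ) :
    (∫ x, u x * {x | |W x| ≤ k}.indicator g x) -
        ∫ x, v x * {x | |W x| ≤ k}.indicator (fun x => (W x : ℂ) * g x) x = 0 := by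
  rw [sub_eq_zero]
  refine integral_congr_ae ?_
  filter_upwards [h] with x hx
  by_cases hx' : x ∈ {x | |W x| ≤ k}
  · rw [Set.indicator_of_mem hx', Set.indicator_of_mem hx', hx]
    ring
  · rw [Set.indicator_of_notMem hx', Set.indicator_of_notMem hx']
    simp

end J_P5_space

open J_P5_space in
/-- TARGET -/
theorem space_exists (d : ℕ) (h : ℝ) (W : EE d → ℝ) (hW : Measurable W) :
    ∃ S : Submodule ℂ (VX d), IsClosed (S : Set (VX d)) ∧ ∀ z, z ∈ S ↔ InV h W z := by
  obtain ⟨S, hS, hm⟩ := of_functionals (d := d)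
    ({t | ∃ (i : Fin d) (φ : EE d → ℂ), IsTest φ ∧ ∀ z : VX d, t z =
        (h : ℂ) * (∫ x, z none x * pd i φ x) + ∫ x, z (some (some i)) x * φ x} ∪
      {t | ∃ (k : ℕ) (g : EE d → ℂ), MemLp g 2 volume ∧ ∀ z : VX d, t z =
        (∫ x, z (some none) x * {x | |W x| ≤ k}.indicator g x) -
        ∫ x, z none x * {x | |W x| ≤ k}.indicator (fun x => (W x : ℂ) * g x) x})
  refine ⟨S, hS, fun z => ?_⟩
  rw [hm]
  constructor
  · intro hz
    refine ⟨cond1 hW _ _ fun k g hg => ?_, fun i φ hφ => ?_⟩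
    · obtain ⟨t, ht⟩ := func2 (-1) none (some none) (memLp_W hW hg k)
        (hg.indicator (s := {x | |W x| ≤ k}) (measurableSet_le hW.abs measurable_const))
      have ht' : ∀ z : VX d, t z =
        (∫ x, z (some none) x * {x | |W x| ≤ k}.indicator g x) -
        ∫ x, z none x * {x | |W x| ≤ k}.indicator (fun x => (W x : ℂ) * g x) x := by
        intro z
        rw [ht]
        ring
      rw [← ht' z]
      exact hz t (Or.inr ⟨k, g, hg, ht'⟩)
    · obtain ⟨t, ht⟩ := func2 (h : ℂ) none (some (some i)) (memLp_pd hφ i) (memLp_test hφ)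
      have := hz t (Or.inl ⟨i, φ, hφ, ht⟩)
      rw [ht] at this
      exact eq_neg_of_add_eq_zero_left this
  · rintro ⟨h1, h2⟩ t (⟨i, φ, hφ, ht⟩ | ⟨k, g, hg, ht⟩)
    · rw [ht, h2 i φ hφ]
      ring
    · rw [ht]
      exact cond1' _ _ h1 k g

end Pool.Agent.Helper31_CP
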