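import Mathlib
import Pool.Agent.Helper31_CP.B3
import Pool.Agent.Helper31_CP.A6a_spectral
import Pool.Agent.Helper31_CP.A6c_invariant
import Pool.Agent.Helper31_CP.P1b_codim
import Pool.Agent.Helper31_CP.P2_bumps
import Pool.Agent.Helper31_CP.P3_agmon
import Pool.Agent.Helper31_CP.P5_space
import Pool.Agent.Helper31_CP.M3_small
import Pool.Agent.Helper31_CP.L1_trial

set_option autoImplicit false

namespace Pool.Agent.Helper31_CP

open MeasureTheory Filter Topology Set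
open scoped InnerProductSpace

/-- The construction at one value of `h` and one energy level. -/
theorem level_core {d : ℕ} (h lam ca Λ s C : ℝ) (hh : 0 < h) (hlam : 2 ≤ lam)
    (hΛ : Λ = 2 * lam + 2) (hC0 : 0 < C)
    (hs : s = h / Real.sqrt (2 * lam * C)) (W : EE d → ℝ) (hWm : Measurable W)
    (hUm : Measurable (Ulog : EE d → ℝ)) (hU0 : ∀ x : EE d, 0 ≤ Ulog x)
    (hU1 : ∀ x : EE d, ‖x‖ ≤ 1 / 2 → Ulog x ≤ 1)
    (hW2 : ∀ x : EE d, (W x) ^ 2 = Ulog x + (OO d).indicator (fun _ => Λ) x)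
    (F : Submodule ℂ (HH d)) [FiniteDimensional ℂ F] (N : ℕ) (hN : Module.finrank ℂ F ≤ N)
    (hFuse : ∀ (u : HH d) (p : Fin d → HH d), (∀ i, WD i u (p i)) → (∀ f ∈ F, ⟪f, u⟫_ℂ = 0) →
        ∫ x in Metric.ball (0 : EE d) 1, ‖u x‖ ^ 2 ≤ C * s ^ 2 * ∑ i, ‖p i‖ ^ 2)
    (hsmall : 48 * (N + 1) ^ 2 * (Λ + 1) ^ 3 * (1 + 2 * lam) ^ 2 *
      (Real.sqrt (2 * lam) * Real.exp (-(ca / h))) ≤ 1)
    (n₀ : ℕ) (φ : Fin n₀ → EE d → ℂ) (hφt : ∀ j, IsTest (φ j))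
    (hφs : ∀ j x, φ j x ≠ 0 → ‖x‖ ≤ 1 / 2)
    (hφd : ∀ j k, j ≠ k → ∀ x, φ j x = 0 ∨ φ k x = 0)
    (hφn : ∀ j, ∫ x, ‖φ j x‖ ^ 2 = 1)
    (hφe : ∀ j, ∑ i, ∫ x, ‖pd i (φ j) x‖ ^ 2 ≤ (Real.sqrt lam / h) ^ 2 / 2)
    (hagm : ∀ μ : ℝ, 0 ≤ μ → μ ≤ 2 * lam →
      ∀ (u w : HH d) (p : Fin d → HH d), (∀ i, WD i u (p i)) →
      ((w : EE d → ℂ) =ᵐ[volume] fun x => (W x : ℂ) * u x) →
      (∀ (v w' : HH d) (q : Fin d → HH d), (∀ i, WD i v (q i)) →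
        ((w' : EE d → ℂ) =ᵐ[volume] fun x => (W x : ℂ) * v x) →
        ((h ^ 2 : ℝ) : ℂ) * ∑ i, ⟪q i, p i⟫_ℂ + ⟪w', w⟫_ℂ = (μ : ℂ) * ⟪v, u⟫_ℂ) →
      ∫ x in {x : EE d | 1 ≤ ‖x‖}, ‖u x‖ ^ 2 ≤ μ * Real.exp (-(2 * ca / h)) * ‖u‖ ^ 2) :
    ∃ (n : ℕ) (w : Fin n → HH d) (A : Matrix (Fin n) (Fin n) ℂ),
      n₀ ≤ n ∧ LinearIndependent ℂ w ∧
      (∀ j, IsHu h Vpot (w j) (∑ k, A k j • w k)) ∧
      ∀ E : ℂ, A.charpoly.IsRoot E → 1 / 2 ≤ E.im ∧ ‖E‖ ≤ 2 * lam + 3 := by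
  have hlam0 : 0 < lam := by linarith
  have hΛ0 : 0 ≤ Λ := by rw [hΛ]; linarith
  have hWO : ∀ x ∈ OO d, Λ ≤ (W x) ^ 2 := by
    intro x hx
    rw [hW2, indicator_of_mem hx]
    linarith [hU0 x]
  have hWO2 : ∀ x ∈ OO d, 2 * lam ≤ (W x) ^ 2 := fun x hx => by
    have := hWO x hx
    linarith
  obtain ⟨S, hScl, hS⟩ := space_exists d h W hWm
  haveI : CompleteSpace S := hScl.completeSpace_coe
  obtain ⟨J, hJa, hJ⟩ := J_exists S
  obtain ⟨G, hGfin, hGrank, hGle⟩ := trial_space d h lam hh hlam W hWm (by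
      intro x hx
      rw [hW2, indicator_of_notMem (by simp only [OO, mem_setOf_eq, not_le]; linarith), add_zero]
      exact hU1 x hx) n₀ φ hφt hφs hφd hφn hφe S hS
  haveI := hGfin
  obtain ⟨t, g, n, e, τ, hg, ht, hn, he, hT, hτ, hperp, hGn, hPe⟩ :=
    spectral_part J hJ (PP d) lam (by linarith) F N hN
      (fun z hzF => by
        rw [hJa]
        refine codim_use C s h lam hh hlam0 hC0 hs W (z : VX d) ((hS z).1 z.2) hWO2
          (fun p hp => hFuse _ p hp ?_)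
        intro f hf
        have := hzF f hf
        rwa [hJa] at this)
      G (fun z hz => by rw [hJa]; exact hGle z hz)
      (Real.sqrt (2 * lam) * Real.exp (-(ca / h)))
      (fun z μ hμ0 hμ1 hzμ => by
        rw [hJa]
        refine agm_use h lam ca μ hh hμ0 hμ1 W (z : VX d) ((hS z).1 z.2) (hagm μ hμ0 hμ1) ?_
        intro v hv
        have := hzμ ⟨v, (hS v).2 hv⟩
        rw [hJa, hJa] at this
        exact this)
  obtain ⟨u, A, hli, hrel, hroot⟩ := invariant_part J hJ (PP d) PP_sym PP_idem Λ hΛ0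
    (fun z => by rw [hJa]; exact b_use Λ h hΛ0 W (z : VX d) ((hS z).1 z.2) hWO) lam
    (by linarith) N _ (by positivity) hsmall t g n e τ hg ht hn he hT hτ hperp hPe
  refine ⟨n, fun j => J (u j), A, ?_, hli, ?_, hroot⟩
  · rw [hGrank] at hGn
    exact hGn
  · intro j
    refine relation_transfer d h Λ hh hΛ0 Ulog W hUm hU0 ?_ hWm hW2 Vpot (fun x => rfl)
      (PP d) PP_ae (J (u j)) _ (u j : VX d) ((hS _).1 (u j).2) (hJa _).symm ?_
    · intro x hx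
      unfold Ulog
      rw [if_neg (by linarith)]
    · intro z' hz'
      have := hrel j ⟨z', (hS _).2 hz'⟩
      rw [hJa, hJa] at this
      exact this

end Pool.Agent.Helper31_CP
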