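import Mathlib
import Pool.Agent.Helper31_CP.Main

set_option autoImplicit false

namespace Pool.Agent.Helper31_CP

open MeasureTheory Filter Topology Set
open scoped InnerProductSpace

theorem level (d : ℕ) (hd : 1 ≤ d) : ∃ c₀ : ℝ, 0 < c₀ ∧ ∀ lam : ℝ, 2 ≤ lam →
    ∃ h₀ : ℝ, 0 < h₀ ∧ ∀ h : ℝ, 0 < h → h < h₀ →
      ∃ (n : ℕ) (w : Fin n → HH d) (A : Matrix (Fin n) (Fin n) ℂ),
        c₀ * (Real.sqrt lam / h) ^ d ≤ n ∧ LinearIndependent ℂ w ∧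
        (∀ j, IsHu h Vpot (w j) (∑ k, A k j • w k)) ∧
        ∀ E : ℂ, A.charpoly.IsRoot E → 1 / 2 ≤ E.im ∧ ‖E‖ ≤ 2 * lam + 3 := by
  obtain ⟨cb, L₀, hcb, hL₀, hbumps⟩ := bumps d hd
  obtain ⟨hUm, hU0, hU1, hUM, -⟩ := Ulog_props d hd
  obtain ⟨C, hC1, hcod⟩ := finite_codim d hd
  refine ⟨cb, hcb, fun lam hlam => ?_⟩
  have hlam0 : 0 < lam := by linarith
  obtain ⟨r, hr0, hr1, hrU⟩ := hUM (2 * lam + 2)
  obtain ⟨ca, hca, hagm⟩ := agmon d r hr0 hr1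
  obtain ⟨Λ, hΛ⟩ : ∃ Λ : ℝ, Λ = 2 * lam + 2 := ⟨_, rfl⟩
  have hΛ0 : 0 ≤ Λ := by rw [hΛ]; linarith
  have hWm : Measurable (Wf Λ : EE d → ℝ) := Wf_meas Λ hUm
  have hW2 : ∀ x : EE d, (Wf Λ x) ^ 2 = Ulog x + (OO d).indicator (fun _ => Λ) x :=
    Wf_sq Λ hΛ0 hU0
  have hWr : ∀ x : EE d, r ≤ ‖x‖ → 2 * lam + 2 ≤ (Wf Λ x) ^ 2 := by
    intro x hx
    rw [hW2]
    by_cases hx1 : ‖x‖ < 1
    · have h1 : x ∉ OO d := by
        intro h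
        have : 1 ≤ ‖x‖ := h
        linarith
      rw [indicator_of_notMem h1, add_zero]
      exact hrU x hx hx1
    · have h1 : x ∈ OO d := not_lt.1 hx1
      rw [indicator_of_mem h1]
      linarith [hU0 x]
  have hC0 : 0 < C := by linarith
  obtain ⟨B, hB⟩ : ∃ B : ℝ, B = C * Real.sqrt (2 * lam * C) := ⟨_, rfl⟩
  have hsq0 : 0 < Real.sqrt (2 * lam * C) := Real.sqrt_pos.2 (by positivity)
  have hB0 : 0 < B := by rw [hB]; positivity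
  obtain ⟨Ac, hAc⟩ : ∃ Ac : ℝ, Ac = 48 * (Λ + 1) ^ 3 * (1 + 2 * lam) ^ 2 * Real.sqrt (2 * lam) :=
    ⟨_, rfl⟩
  have hAc0 : 0 < Ac := by
    have : 0 < Real.sqrt (2 * lam) := Real.sqrt_pos.2 (by positivity)
    rw [hAc]
    positivity
  obtain ⟨h₁, hh₁, hsm⟩ := small_eventually d Ac B ca hAc0 hB0 hca
  have hls : 0 < Real.sqrt lam := Real.sqrt_pos.2 hlam0
  refine ⟨min h₁ (min (Real.sqrt (2 * lam * C)) (Real.sqrt lam / L₀)), by positivity, ?_⟩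
  intro h hh hlt
  have hlt1 : h < h₁ := lt_of_lt_of_le hlt (min_le_left _ _)
  have hlt2 : h < Real.sqrt (2 * lam * C) :=
    lt_of_lt_of_le hlt ((min_le_right _ _).trans (min_le_left _ _))
  have hlt3 : h < Real.sqrt lam / L₀ :=
    lt_of_lt_of_le hlt ((min_le_right _ _).trans (min_le_right _ _))
  obtain ⟨s, hs⟩ : ∃ s : ℝ, s = h / Real.sqrt (2 * lam * C) := ⟨_, rfl⟩
  have hs0 : 0 < s := by rw [hs]; positivity
  have hs1 : s ≤ 1 := by rw [hs, div_le_one hsq0]; exact hlt2.le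
  obtain ⟨F, hFfin, hFrank, hFuse⟩ := hcod s hs0 hs1
  have hCs : C / s = B / h := by
    rw [hs, hB]; field_simp
  have hNB : ((Module.finrank ℂ F : ℕ) : ℝ) ≤ (B / h) ^ d := by rw [← hCs]; exact hFrank
  have hsmall := hsm h hh hlt1 _ hNB
  have hL : L₀ ≤ Real.sqrt lam / h := by
    rw [le_div_iff₀ hh]
    rw [lt_div_iff₀ hL₀] at hlt3
    linarith [mul_comm h L₀]
  obtain ⟨n₀, φ, hn₀, hφt, hφs, hφd, hφn, hφe⟩ := hbumps _ hL
  obtain ⟨n, w, A, hn, hli, hrel, hroot⟩ := level_core h lam ca Λ s C hh hlam hΛ hC0 hs (Wf Λ) hWm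
    hUm hU0 hU1 hW2 F (Module.finrank ℂ F) le_rfl hFuse (by
      refine le_trans (le_of_eq ?_) hsmall
      rw [hAc]; ring) n₀ φ hφt hφs hφd hφn hφe
    (fun μ hμ0 hμ1 u w p hp hw heq => hagm h hh (Wf Λ) hWm u w p μ hμ0 hp hw
      (fun x hx => by have := hWr x hx; linarith) heq)
  refine ⟨n, w, A, hn₀.trans (by exact_mod_cast hn), hli, hrel, hroot⟩

end Pool.Agent.Helper31_CP
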