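import Mathlib
import Pool.Agent.Helper31_CP.Defs

set_option autoImplicit false

namespace Pool.Agent.Helper31_CP

open scoped ENNReal

theorem M1_count_sum {X : Type*} [AddCommGroup X] [Module ℂ X] (Rel : X → X → Prop)
    (h0 : Rel 0 0) (hadd : ∀ a b c d, Rel a b → Rel c d → Rel (a + c) (b + d))
    (hsmul : ∀ (t : ℂ) a b, Rel a b → Rel (t • a) (t • b))
    {n : ℕ} (w u : Fin n → X) (hA : ∀ j, Rel (w j) (u j)) (c : Fin n → ℂ) (s : Finset (Fin n)) :
    Rel (∑ j ∈ s, c j • w j) (∑ j ∈ s, c j • u j) := by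
  classical
  induction s using Finset.induction_on with
  | empty => simpa using h0
  | insert a s ha ih =>
    rw [Finset.sum_insert ha, Finset.sum_insert ha]
    exact hadd _ _ _ _ (hsmul _ _ _ (hA a)) ih

theorem M1_count_finrank {V : Type} [AddCommGroup V] [Module ℂ V] [FiniteDimensional ℂ V]
    (K : ℂ → Submodule ℂ V) (s : Finset ℂ) :
    Module.finrank ℂ (s.sup K : Submodule ℂ V) ≤ ∑ E ∈ s, Module.finrank ℂ (K E) := by
  classical
  induction s using Finset.induction_on with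
  | empty => simp
  | insert a s ha ih =>
    rw [Finset.sup_insert, Finset.sum_insert ha]
    exact (Submodule.finrank_add_le_finrank_add_finrank _ _).trans (Nat.add_le_add_left ih _)

theorem M1_count_gen {X : Type*} [AddCommGroup X] [Module ℂ X] (Rel : X → X → Prop)
    {n : ℕ} (M : Module.End ℂ (Fin n → ℂ)) (ι : (Fin n → ℂ) →ₗ[ℂ] X)
    (hR : ∀ c, Rel (ι c) (ι (M c))) (E : ℂ) (c : Fin n → ℂ) (hc : c ∈ M.maxGenEigenspace E) :
    ι c ∈ gen Rel E := by
  obtain ⟨k, hk⟩ := (Module.End.mem_maxGenEigenspace M E c).mp hc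
  refine Submodule.subset_span ⟨k, fun i => ι (((M - E • (1 : Module.End ℂ (Fin n → ℂ))) ^ i) c), ?_, ?_, ?_⟩
  · simp
  · show ι (((M - E • (1 : Module.End ℂ (Fin n → ℂ))) ^ k) c) = 0
    rw [hk, map_zero]
  · intro j _
    have h1 := hR (((M - E • (1 : Module.End ℂ (Fin n → ℂ))) ^ j) c)
    have h2 : ι (M (((M - E • (1 : Module.End ℂ (Fin n → ℂ))) ^ j) c)) =
        E • ι (((M - E • (1 : Module.End ℂ (Fin n → ℂ))) ^ j) c) +
          ι (((M - E • (1 : Module.End ℂ (Fin n → ℂ))) ^ (j + 1)) c) := by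
      rw [pow_succ', Module.End.mul_apply, ← map_smul, ← map_add]
      congr 1
      rw [LinearMap.sub_apply, LinearMap.smul_apply, Module.End.one_apply]
      abel
    rw [h2] at h1
    exact h1

theorem M1_count_mult {X : Type*} [AddCommGroup X] [Module ℂ X] (Rel : X → X → Prop)
    {n : ℕ} (M : Module.End ℂ (Fin n → ℂ)) (ι : (Fin n → ℂ) →ₗ[ℂ] X) (hι : Function.Injective ι)
    (hR : ∀ c, Rel (ι c) (ι (M c))) (E : ℂ) :
    ((Module.finrank ℂ (M.maxGenEigenspace E) : ℕ) : ℕ∞) ≤ mult Rel E := by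
  have h1 : Function.Injective (ι.restrict (M1_count_gen Rel M ι hR E)) := by
    intro x y h
    apply Subtype.ext
    apply hι
    exact congrArg Subtype.val h
  have h2 := LinearMap.lift_rank_le_of_injective _ h1
  have h3 := Cardinal.toENat.monotone' h2
  have h4 : Cardinal.toENat (Module.rank ℂ (M.maxGenEigenspace E)) =
      ((Module.finrank ℂ (M.maxGenEigenspace E) : ℕ) : ℕ∞) := by
    rw [← Module.finrank_eq_rank, Cardinal.toENat_nat]
  unfold mult
  rw [← h4, ← Cardinal.toENat_lift, ← Cardinal.toENat_lift (c := Module.rank ℂ (gen Rel E))]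
  exact h3

/-- TARGET -/
theorem mult_count {X : Type*} [AddCommGroup X] [Module ℂ X] (Rel : X → X → Prop)
    (h0 : Rel 0 0) (hadd : ∀ a b c d, Rel a b → Rel c d → Rel (a + c) (b + d))
    (hsmul : ∀ (t : ℂ) a b, Rel a b → Rel (t • a) (t • b))
    {n : ℕ} (w : Fin n → X) (hw : LinearIndependent ℂ w) (A : Matrix (Fin n) (Fin n) ℂ)
    (hA : ∀ j, Rel (w j) (∑ k, A k j • w k)) (Ω : Set ℂ)
    (hΩ : ∀ E : ℂ, A.charpoly.IsRoot E → E ∈ Ω) :
    (n : ℝ≥0∞) ≤ ∑' E : ℂ, Ω.indicator (fun E => ((mult Rel E : ℕ∞) : ℝ≥0∞)) E := by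
  classical
  set M : Module.End ℂ (Fin n → ℂ) := Matrix.toLin' A with hM
  set ι : (Fin n → ℂ) →ₗ[ℂ] X := Fintype.linearCombination ℂ w with hιdef
  have hι : Function.Injective ι := LinearIndependent.fintypeLinearCombination_injective hw
  have hR : ∀ c, Rel (ι c) (ι (M c)) := by
    intro c
    have h1 := M1_count_sum Rel h0 hadd hsmul w _ hA c Finset.univ
    have h2 : ι (M c) = ∑ j, c j • ∑ k, A k j • w k := by
      rw [hιdef, Fintype.linearCombination_apply, hM]
      simp only [Matrix.toLin'_apply, Matrix.mulVec, dotProduct, Finset.sum_smul, Finset.smul_sum]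
      rw [Finset.sum_comm]
      refine Finset.sum_congr rfl fun j _ => Finset.sum_congr rfl fun k _ => ?_
      rw [smul_smul, mul_comm]
    rw [h2]
    exact h1
  set S : Finset ℂ := A.charpoly.roots.toFinset with hS
  have hA0 : A.charpoly ≠ 0 := (Matrix.charpoly_monic A).ne_zero
  have hbot : ∀ E : ℂ, E ∉ S → M.maxGenEigenspace E = ⊥ := by
    intro E hE
    by_contra hne
    apply hE
    have h1 : M.HasUnifEigenvalue E ⊤ := hne
    have h2 : M.HasEigenvalue E := h1.lt zero_lt_one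
    have h3 := (Module.End.hasEigenvalue_iff_isRoot_charpoly M E).mp h2
    rw [hM, Matrix.charpoly_toLin'] at h3
    rw [hS, Multiset.mem_toFinset]
    exact (Polynomial.mem_roots hA0).mpr h3
  have htop : S.sup M.maxGenEigenspace = ⊤ := by
    rw [eq_top_iff, ← Module.End.iSup_maxGenEigenspace_eq_top M]
    refine iSup_le fun E => ?_
    by_cases hE : E ∈ S
    · exact Finset.le_sup (f := M.maxGenEigenspace) hE
    · rw [hbot E hE]
      exact bot_le
  have hn : n ≤ ∑ E ∈ S, Module.finrank ℂ (M.maxGenEigenspace E) := by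
    have h1 := M1_count_finrank M.maxGenEigenspace S
    rw [htop, finrank_top, Module.finrank_fin_fun] at h1
    exact h1
  calc (n : ℝ≥0∞) ≤ ((∑ E ∈ S, Module.finrank ℂ (M.maxGenEigenspace E) : ℕ) : ℝ≥0∞) := by
        exact_mod_cast hn
    _ = ∑ E ∈ S, ((Module.finrank ℂ (M.maxGenEigenspace E) : ℕ) : ℝ≥0∞) := by
        push_cast
        rfl
    _ ≤ ∑ E ∈ S, Ω.indicator (fun E => ((mult Rel E : ℕ∞) : ℝ≥0∞)) E := by
        refine Finset.sum_le_sum fun E hE => ?_
        have hEΩ : E ∈ Ω := hΩ E ((Polynomial.mem_roots hA0).mp (Multiset.mem_toFinset.mp hE))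
        rw [Set.indicator_of_mem hEΩ]
        have h1 := M1_count_mult Rel M ι hι hR E
        have h2 := ENat.toENNReal_le.mpr h1
        rwa [ENat.toENNReal_coe] at h2
    _ ≤ _ := ENNReal.sum_le_tsum S

end Pool.Agent.Helper31_CP
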