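import Mathlib
import Pool.Agent.Helper31_CP.Defs

set_option autoImplicit false

namespace Pool.Agent.Helper31_CP

open scoped ENNReal

theorem M2_sum_geo (d : ℕ) (hd : 1 ≤ d) (c : ℝ) (hc : 0 < c) (j K : ℕ) :
    ∑ k ∈ Finset.Ico j (K + 1), c / 2 ^ (k * d) ≤ 2 * c / 2 ^ (j * d) := by
  rw [Finset.sum_Ico_eq_sum_range]
  have h1 : ∀ i ∈ Finset.range (K + 1 - j), c / (2 : ℝ) ^ ((j + i) * d) ≤
      c / 2 ^ (j * d) * (1 / 2 : ℝ) ^ i := by
    intro i _
    rw [one_div, inv_pow, ← div_eq_mul_inv, div_div, ← pow_add]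
    apply div_le_div_of_nonneg_left hc.le (by positivity)
    apply pow_le_pow_right₀ (by norm_num)
    rw [add_mul]
    have : i * 1 ≤ i * d := Nat.mul_le_mul_left i hd
    omega
  calc _ ≤ ∑ i ∈ Finset.range (K + 1 - j), c / 2 ^ (j * d) * (1 / 2 : ℝ) ^ i :=
        Finset.sum_le_sum h1
    _ = c / 2 ^ (j * d) * ∑ i ∈ Finset.range (K + 1 - j), (1 / 2 : ℝ) ^ i := by
        rw [Finset.mul_sum]
    _ ≤ c / 2 ^ (j * d) * 2 := by
        gcongr
        exact sum_geometric_two_le _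
    _ = _ := by ring

theorem M2_sum_dist (E : ℂ) (hE : 1 / 2 ≤ E.im) : 1 / 2 ≤ Metric.infDist E halfLine := by
  have hne : halfLine.Nonempty := ⟨0, by simp [halfLine]⟩
  rw [Metric.le_infDist hne]
  intro y hy
  have hy2 : y.im = 0 := hy.2
  rw [dist_eq_norm]
  calc (1 : ℝ) / 2 ≤ |(E - y).im| := by
        rw [Complex.sub_im, hy2, sub_zero]
        exact hE.trans (le_abs_self _)
    _ ≤ _ := Complex.abs_im_le_norm _

theorem M2_sum_point (d : ℕ) (C γ σ : ℝ) (hC : 1 ≤ C) (hγ : 0 < γ) (hσ : 0 ≤ σ)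
    (hσd : σ ≤ (d : ℝ) / 2) (j : ℕ) (E : ℂ) (h1 : 1 / 2 ≤ E.im) (h2 : ‖E‖ ≤ C * 4 ^ j) :
    2 * (1 / (2 * C ^ σ * 2 ^ (γ + σ))) / 2 ^ (j * d) ≤
      ‖E‖ ^ (-σ) * (Metric.infDist E halfLine) ^ (γ + σ) := by
  have hC0 : 0 < C := by linarith
  have hE0 : 0 < ‖E‖ := by
    have : |E.im| ≤ ‖E‖ := Complex.abs_im_le_norm E
    have h3 : E.im ≤ |E.im| := le_abs_self _
    linarith
  have ha : (C * 4 ^ j) ^ (-σ) ≤ ‖E‖ ^ (-σ) :=
    Real.rpow_le_rpow_of_nonpos hE0 h2 (by linarith)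
  have hb : ((1 : ℝ) / 2) ^ (γ + σ) ≤ (Metric.infDist E halfLine) ^ (γ + σ) :=
    Real.rpow_le_rpow (by norm_num) (M2_sum_dist E h1) (by linarith)
  have hc : ((2 : ℝ) ^ (j * d))⁻¹ ≤ ((4 : ℝ) ^ j) ^ (-σ) := by
    have h4 : ((4 : ℝ) ^ j) ^ (-σ) = (2 : ℝ) ^ (-(2 * j * σ)) := by
      rw [show (4 : ℝ) = 2 ^ (2 : ℝ) by norm_num, ← Real.rpow_natCast, ← Real.rpow_mul (by norm_num),
        ← Real.rpow_mul (by norm_num)]
      congr 1
      ring
    rw [h4, ← Real.rpow_natCast, ← Real.rpow_neg (by norm_num)]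
    apply Real.rpow_le_rpow_of_exponent_le (by norm_num)
    push_cast
    have hj : (0 : ℝ) ≤ j := Nat.cast_nonneg j
    nlinarith [mul_le_mul_of_nonneg_left hσd hj]
  calc 2 * (1 / (2 * C ^ σ * 2 ^ (γ + σ))) / 2 ^ (j * d)
      = (C ^ (-σ) * ((2 : ℝ) ^ (j * d))⁻¹) * ((1 : ℝ) / 2) ^ (γ + σ) := by
        rw [Real.rpow_neg hC0.le, one_div (2 : ℝ), Real.inv_rpow (by norm_num)]
        have h5 : 0 < C ^ σ := Real.rpow_pos_of_pos hC0 _
        have h6 : 0 < (2 : ℝ) ^ (γ + σ) := Real.rpow_pos_of_pos (by norm_num) _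
        field_simp
    _ ≤ (C ^ (-σ) * ((4 : ℝ) ^ j) ^ (-σ)) * ((1 : ℝ) / 2) ^ (γ + σ) := by
        gcongr
    _ = (C * 4 ^ j) ^ (-σ) * ((1 : ℝ) / 2) ^ (γ + σ) := by
        rw [Real.mul_rpow hC0.le (by positivity)]
    _ ≤ _ := by gcongr


/-- TARGET -/
theorem sum_lower (d : ℕ) (hd : 1 ≤ d) (C γ σ : ℝ) (hC : 1 ≤ C) (hγ : 0 < γ) (hσ : 0 ≤ σ)
    (hσd : σ ≤ (d : ℝ) / 2) :
    ∃ c : ℝ, 0 < c ∧ ∀ (m : ℂ → ℝ≥0∞) (K : ℕ) (X : ℝ), 0 ≤ X →
      (∀ k ≤ K, ENNReal.ofReal (X * 2 ^ (k * d)) ≤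
        ∑' E : ℂ, {E : ℂ | 1 / 2 ≤ E.im ∧ ‖E‖ ≤ C * 4 ^ k}.indicator m E) →
      ENNReal.ofReal (c * (K + 1) * X) ≤
        ∑' E : ℂ, halfLineᶜ.indicator (fun E => m E *
          ENNReal.ofReal (‖E‖ ^ (-σ) * (Metric.infDist E halfLine) ^ (γ + σ))) E := by
  have hC0 : 0 < C := by linarith
  set c : ℝ := 1 / (2 * C ^ σ * 2 ^ (γ + σ)) with hcd
  have hc : 0 < c := by
    have h5 : 0 < C ^ σ := Real.rpow_pos_of_pos hC0 _
    have h6 : 0 < (2 : ℝ) ^ (γ + σ) := Real.rpow_pos_of_pos (by norm_num) _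
    positivity
  refine ⟨c, hc, ?_⟩
  intro m K X hX h
  set Ω : ℕ → Set ℂ := fun k => {E : ℂ | 1 / 2 ≤ E.im ∧ ‖E‖ ≤ C * 4 ^ k} with hΩ
  have hpt : ∀ E : ℂ, ∑ k ∈ Finset.range (K + 1),
      ENNReal.ofReal (c / 2 ^ (k * d)) * (Ω k).indicator m E ≤
      halfLineᶜ.indicator (fun E => m E *
          ENNReal.ofReal (‖E‖ ^ (-σ) * (Metric.infDist E halfLine) ^ (γ + σ))) E := by
    intro E
    by_cases hex : ∃ k, E ∈ Ω k
    · classical
      set j := Nat.find hex with hj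
      have hjm : E ∈ Ω j := Nat.find_spec hex
      have hlt : ∀ k, k < j → E ∉ Ω k := fun k hk => Nat.find_min hex hk
      have hEn : E ∈ halfLineᶜ := by
        intro hE
        have h1 : E.im = 0 := hE.2
        have h2 : 1 / 2 ≤ E.im := hjm.1
        rw [h1] at h2
        norm_num at h2
      rw [Set.indicator_of_mem hEn]
      have hs : ∑ k ∈ Finset.range (K + 1), ENNReal.ofReal (c / 2 ^ (k * d)) * (Ω k).indicator m E ≤
          ∑ k ∈ Finset.Ico j (K + 1), ENNReal.ofReal (c / 2 ^ (k * d)) * m E := by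
        have h1 : ∀ k ∈ Finset.range (K + 1), ENNReal.ofReal (c / 2 ^ (k * d)) * (Ω k).indicator m E ≤
            if j ≤ k then ENNReal.ofReal (c / 2 ^ (k * d)) * m E else 0 := by
          intro k _
          by_cases hk : j ≤ k
          · rw [if_pos hk]
            gcongr
            exact Set.indicator_le_self _ _ _
          · rw [if_neg hk, Set.indicator_of_notMem (hlt k (not_le.1 hk)), mul_zero]
        refine (Finset.sum_le_sum h1).trans ?_
        rw [← Finset.sum_filter]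
        apply Finset.sum_le_sum_of_subset
        intro k hk
        rw [Finset.mem_filter, Finset.mem_range] at hk
        rw [Finset.mem_Ico]
        exact ⟨hk.2, hk.1⟩
      refine hs.trans ?_
      rw [← Finset.sum_mul, mul_comm, ← ENNReal.ofReal_sum_of_nonneg (fun k _ => by positivity)]
      gcongr
      exact (M2_sum_geo d hd c hc j K).trans
        (M2_sum_point d C γ σ hC hγ hσ hσd j E hjm.1 hjm.2)
    · have h1 : ∀ k ∈ Finset.range (K + 1),
          ENNReal.ofReal (c / 2 ^ (k * d)) * (Ω k).indicator m E = 0 := by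
        intro k _
        have : E ∉ Ω k := fun hk => hex ⟨k, hk⟩
        rw [Set.indicator_of_notMem this, mul_zero]
      rw [Finset.sum_eq_zero h1]
      exact zero_le
  calc ENNReal.ofReal (c * (K + 1) * X)
      = ∑ k ∈ Finset.range (K + 1), ENNReal.ofReal (c / 2 ^ (k * d)) *
          ENNReal.ofReal (X * 2 ^ (k * d)) := by
        have h1 : ∀ k ∈ Finset.range (K + 1), ENNReal.ofReal (c / 2 ^ (k * d)) *
          ENNReal.ofReal (X * 2 ^ (k * d)) = ENNReal.ofReal (c * X) := by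
          intro k _
          rw [← ENNReal.ofReal_mul (by positivity)]
          congr 1
          field_simp
        rw [Finset.sum_congr rfl h1, Finset.sum_const, Finset.card_range, nsmul_eq_mul,
          ← ENNReal.ofReal_natCast, ← ENNReal.ofReal_mul (by positivity)]
        congr 1
        push_cast
        ring
    _ ≤ ∑ k ∈ Finset.range (K + 1), ENNReal.ofReal (c / 2 ^ (k * d)) *
          ∑' E : ℂ, (Ω k).indicator m E := by
        apply Finset.sum_le_sum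
        intro k hk
        gcongr
        exact h k (by rw [Finset.mem_range] at hk; omega)
    _ = ∑' E : ℂ, ∑ k ∈ Finset.range (K + 1), ENNReal.ofReal (c / 2 ^ (k * d)) *
          (Ω k).indicator m E := by
        rw [Summable.tsum_finsetSum (fun _ _ => ENNReal.summable)]
        apply Finset.sum_congr rfl
        intro k _
        rw [ENNReal.tsum_mul_left]
    _ ≤ _ := ENNReal.tsum_le_tsum hpt

end Pool.Agent.Helper31_CP
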