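import Mathlib
import Pool.Agent.Helper31_CP.Lev
import Pool.Agent.Helper31_CP.M1_count
import Pool.Agent.Helper31_CP.M2_sum

set_option autoImplicit false

namespace Pool.Agent.Helper31_CP

open MeasureTheory Filter Topology Set
open scoped InnerProductSpace ENNReal

/-- The eigenvalue sum. -/
noncomputable def eSum {d : ℕ} (h : ℝ) (V : EE d → ℂ) (γ σ : ℝ) : ℝ≥0∞ :=
  ∑' E : ℂ, halfLineᶜ.indicator (fun E => ((mult (IsHu h V) E : ℕ∞) : ℝ≥0∞) *
    ENNReal.ofReal (‖E‖ ^ (-σ) * (Metric.infDist E halfLine) ^ (γ + σ))) E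

theorem tendsto_main (d : ℕ) (hd : 1 ≤ d) (γ σ : ℝ) (hγ : 0 < γ) (hσ : 0 ≤ σ)
    (hσd : σ ≤ (d : ℝ) / 2)
    (hlin : ∀ h : ℝ, IsHu h (Vpot : EE d → ℂ) 0 0 ∧
      (∀ u f u' f' : HH d, IsHu h Vpot u f → IsHu h Vpot u' f' → IsHu h Vpot (u + u') (f + f')) ∧
      (∀ (t : ℂ) (u f : HH d), IsHu h Vpot u f → IsHu h Vpot (t • u) (t • f))) :
    Tendsto (fun h : ℝ => ENNReal.ofReal (h ^ d) * eSum h (Vpot : EE d → ℂ) γ σ)
      (𝓝[>] 0) (𝓝 ⊤) := by
  obtain ⟨c₀, hc₀, hlev⟩ := level d hd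
  obtain ⟨c, hc, hsum⟩ := sum_lower d hd 7 γ σ (by norm_num) hγ hσ hσd
  -- for every K, eventually the product is at least c c₀ (K+1)
  have key : ∀ K : ℕ, ∃ h₀ : ℝ, 0 < h₀ ∧ ∀ h : ℝ, 0 < h → h < h₀ →
      ENNReal.ofReal (c * (K + 1) * c₀) ≤
        ENNReal.ofReal (h ^ d) * eSum h (Vpot : EE d → ℂ) γ σ := by
    intro K
    have hl : ∀ k : ℕ, (2 : ℝ) ≤ 2 * 4 ^ k := fun k => by
      have : (1 : ℝ) ≤ 4 ^ k := one_le_pow₀ (by norm_num)
      linarith
    choose h₀ hh₀ hk using fun k : ℕ => hlev (2 * 4 ^ k) (hl k)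
    have hne : (Finset.range (K + 1)).Nonempty := ⟨0, by simp⟩
    refine ⟨(Finset.range (K + 1)).inf' hne h₀, ?_, ?_⟩
    · rw [Finset.lt_inf'_iff]
      exact fun k _ => hh₀ k
    intro h hh hlt
    have hhd : 0 < h ^ d := by positivity
    have h1 := hsum (fun E => ((mult (IsHu h (Vpot : EE d → ℂ)) E : ℕ∞) : ℝ≥0∞)) K
      (c₀ / h ^ d) (by positivity) (by
        intro k hkK
        have hltk : h < h₀ k := lt_of_lt_of_le hlt
          (Finset.inf'_le _ (Finset.mem_range.2 (by omega)))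
        obtain ⟨n, w, A, hn, hli, hrel, hroot⟩ := hk k h hh hltk
        have h2 := mult_count (IsHu h (Vpot : EE d → ℂ)) (hlin h).1
          (fun a b c d => (hlin h).2.1 a b c d) (fun t a b => (hlin h).2.2 t a b) w hli A hrel
          {E : ℂ | 1 / 2 ≤ E.im ∧ ‖E‖ ≤ 7 * 4 ^ k} (by
            intro E hE
            obtain ⟨h3, h4⟩ := hroot E hE
            refine ⟨h3, h4.trans ?_⟩
            have : (1 : ℝ) ≤ 4 ^ k := one_le_pow₀ (by norm_num)
            linarith)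
        refine le_trans ?_ h2
        rw [← ENNReal.ofReal_natCast]
        apply ENNReal.ofReal_le_ofReal
        refine le_trans ?_ hn
        have h5 : (2 : ℝ) ^ k ≤ Real.sqrt (2 * 4 ^ k) := by
          apply Real.le_sqrt_of_sq_le
          rw [← pow_mul, mul_comm k 2, pow_mul]
          norm_num
        have h6 : (2 : ℝ) ^ (k * d) ≤ (Real.sqrt (2 * 4 ^ k)) ^ d := by
          rw [pow_mul]
          exact pow_le_pow_left₀ (by positivity) h5 d
        rw [div_pow, div_mul_eq_mul_div, mul_div_assoc]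
        have : (2 : ℝ) ^ (k * d) / h ^ d ≤ (Real.sqrt (2 * 4 ^ k)) ^ d / h ^ d :=
          div_le_div_of_nonneg_right h6 hhd.le
        exact mul_le_mul_of_nonneg_left this hc₀.le)
    have h2 : ENNReal.ofReal (c * (K + 1) * c₀) =
        ENNReal.ofReal (h ^ d) * ENNReal.ofReal (c * (K + 1) * (c₀ / h ^ d)) := by
      rw [← ENNReal.ofReal_mul hhd.le]
      congr 1
      field_simp
    rw [h2]
    exact mul_le_mul_right h1 _
  rw [ENNReal.tendsto_nhds_top_iff_nat]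
  intro n
  obtain ⟨K, hK⟩ := exists_nat_gt ((n : ℝ) / (c * c₀))
  obtain ⟨h₀, hh₀, hkey⟩ := key K
  have hmem : Ioo (0 : ℝ) h₀ ∈ 𝓝[>] (0 : ℝ) := Ioo_mem_nhdsGT hh₀
  filter_upwards [hmem] with h hh
  refine lt_of_lt_of_le ?_ (hkey h hh.1 hh.2)
  rw [← ENNReal.ofReal_natCast, ENNReal.ofReal_lt_ofReal_iff (by positivity)]
  rw [div_lt_iff₀ (by positivity)] at hK
  nlinarith [mul_pos hc hc₀]

end Pool.Agent.Helper31_CP
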