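import Mathlib
import Pool.Agent.Helper31_CP.B3
import Pool.Agent.Helper31_CP.P1b_codim
import Pool.Agent.Helper31_CP.P5_space
import Pool.Agent.Helper31_CP.F1_fingen
import Pool.Agent.Helper31_CP.F2_formbound
import Pool.Agent.Helper31_CP.F3_lin
import Pool.Agent.Helper31_CP.F4_energy

set_option autoImplicit false

namespace Pool.Agent.Helper31_CP

open MeasureTheory Filter Topology Set
open scoped InnerProductSpace

theorem Vpot_meas {d : ℕ} (h : Measurable (Ulog : EE d → ℝ)) : Measurable (Vpot : EE d → ℂ) := by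
  unfold Vpot
  exact (Complex.measurable_ofReal.comp h).add (measurable_const.indicator measurableSet_ball)

theorem vpot_lin {d : ℕ} (hd : 1 ≤ d) (h : ℝ) : IsHu h (Vpot : EE d → ℂ) 0 0 ∧
      (∀ u f u' f' : HH d, IsHu h Vpot u f → IsHu h Vpot u' f' → IsHu h Vpot (u + u') (f + f')) ∧
      (∀ (t : ℂ) (u f : HH d), IsHu h Vpot u f → IsHu h Vpot (t • u) (t • f)) :=
  isHu_linear h Vpot (Vpot_meas (Ulog_props d hd).1)

/-- The key inequality: there are finitely many vectors controlling the low energies. -/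
theorem control {d : ℕ} (hd : 1 ≤ d) (h lam : ℝ) (hh : 0 < h) (hlam : 0 < lam)
    (hbig : h ^ 2 ≤ 2 * lam) (W : EE d → ℝ) (hWm : Measurable W)
    (hWO : ∀ x ∈ OO d, 2 * lam ≤ (W x) ^ 2) :
    ∃ (n : ℕ) (e : Fin n → HH d), Orthonormal ℂ e ∧ ∀ z : VX d, InV h W z →
      (1 + 2 * lam) * ‖z none‖ ^ 2 ≤ ‖z‖ ^ 2 + (1 + 2 * lam) * ∑ j, ‖⟪e j, z none⟫_ℂ‖ ^ 2 := by
  obtain ⟨C, hC1, hcod⟩ := finite_codim d hd
  have hC0 : 0 < C := by linarith
  have hsq0 : 0 < Real.sqrt (2 * lam * C) := Real.sqrt_pos.2 (by positivity)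
  obtain ⟨s, hs⟩ : ∃ s : ℝ, s = h / Real.sqrt (2 * lam * C) := ⟨_, rfl⟩
  have hs0 : 0 < s := by rw [hs]; positivity
  have hs1 : s ≤ 1 := by
    rw [hs, div_le_one hsq0]
    apply Real.le_sqrt_of_sq_le
    nlinarith
  obtain ⟨F, hFfin, hFrank, hFuse⟩ := hcod s hs0 hs1
  obtain ⟨S, hScl, hS⟩ := space_exists d h W hWm
  haveI : CompleteSpace S := hScl.completeSpace_coe
  obtain ⟨J, hJa, hJ⟩ := J_exists S
  haveI := hFfin
  obtain ⟨n, e, he, hb⟩ := form_bound J hJ lam hlam F (fun z hzF => by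
        rw [hJa]
        refine codim_use C s h lam hh hlam hC0 hs W (z : VX d) ((hS z).1 z.2) hWO
          (fun p hp => hFuse _ p hp ?_)
        intro f hf
        have := hzF f hf
        rwa [hJa] at this)
  refine ⟨n, e, he, fun z hz => ?_⟩
  have := hb ⟨z, (hS z).2 hz⟩
  rw [hJa] at this
  exact this

theorem finite_mult (d : ℕ) (hd : 1 ≤ d) (h : ℝ) (hh : 0 < h) (E : ℂ) (hE : E ∉ halfLine) :
    Module.Finite ℂ (gen (IsHu h (Vpot : EE d → ℂ)) E) := by
  obtain ⟨hUm, hU0, hU1, hUM, -⟩ := Ulog_props d hd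
  obtain ⟨hl0, hladd, hlsmul⟩ := vpot_lin hd h
  by_cases hpos : 0 < E.im ∧ 0 ≤ E.re
  · obtain ⟨hIm, hRe⟩ := hpos
    obtain ⟨lam, hlam⟩ : ∃ lam : ℝ, lam = max 1 (max (h ^ 2) ((E.re + 1) / (2 * E.im))) := ⟨_, rfl⟩
    have h1 : 1 ≤ lam := by rw [hlam]; exact le_max_left _ _
    have h2 : h ^ 2 ≤ lam := by
      rw [hlam]; exact (le_max_left _ _).trans (le_max_right _ _)
    have h3 : (E.re + 1) / (2 * E.im) ≤ lam := by
      rw [hlam]; exact (le_max_right _ _).trans (le_max_right _ _)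
    have hlam0 : 0 < lam := by linarith
    have h4 : 1 ≤ 2 * lam * E.im - E.re := by
      rw [div_le_iff₀ (by positivity)] at h3
      linarith
    have hΛ0 : (0 : ℝ) ≤ 2 * lam := by positivity
    have hW2 := Wf_sq (d := d) (2 * lam) hΛ0 hU0
    obtain ⟨n, e, he, hb⟩ := control hd h lam hh hlam0 (by linarith) (Wf (2 * lam) : EE d → ℝ)
      (Wf_meas _ hUm) (by
        intro x hx
        rw [hW2, indicator_of_mem hx]
        linarith [hU0 x])
    refine (finite_gen _ hl0 (fun a b c d => hladd a b c d) (fun t a b => hlsmul t a b) E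
      ⌈(1 + 2 * lam) * n⌉₊ ?_).1
    intro m w hw hwf
    have key : ∀ i, 1 ≤ (1 + 2 * lam) * ∑ j, ‖⟪e j, w i⟫_ℂ‖ ^ 2 := by
      intro i
      obtain ⟨f, hrel, hf⟩ := hwf i
      obtain ⟨-, -, z, hz, hzw, hzn⟩ := energy d h (2 * lam) hh hΛ0 Ulog (Wf (2 * lam)) hUm hU0
        (Wf_meas _ hUm) hW2 Vpot (fun x => rfl) (w i) f E (hw.1 i) hrel hf
      have h5 := hb z hz
      rw [hzn, hzw, hw.1 i] at h5
      nlinarith
    have hsum : (m : ℝ) ≤ (1 + 2 * lam) * n := by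
      have h5 : (m : ℝ) ≤ ∑ i : Fin m, (1 + 2 * lam) * ∑ j, ‖⟪e j, w i⟫_ℂ‖ ^ 2 := by
        calc (m : ℝ) = ∑ i : Fin m, (1 : ℝ) := by simp
          _ ≤ _ := Finset.sum_le_sum fun i _ => key i
      refine h5.trans ?_
      rw [← Finset.mul_sum, Finset.sum_comm]
      refine mul_le_mul_of_nonneg_left ?_ (by positivity)
      calc ∑ j : Fin n, ∑ i : Fin m, ‖⟪e j, w i⟫_ℂ‖ ^ 2 ≤ ∑ j : Fin n, (1 : ℝ) := by
            refine Finset.sum_le_sum fun j _ => ?_
            have h6 := hw.sum_inner_products_le (e j) (s := Finset.univ)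
            rw [he.1 j] at h6
            refine le_trans (le_of_eq ?_) (h6.trans (by norm_num))
            refine Finset.sum_congr rfl fun i _ => ?_
            rw [← norm_inner_symm]
        _ = n := by simp
    exact_mod_cast hsum.trans (Nat.le_ceil _)
  · refine (finite_gen _ hl0 (fun a b c d => hladd a b c d) (fun t a b => hlsmul t a b) E 0 ?_).1
    intro m w hw hwf
    by_contra hm
    have hm0 : 0 < m := Nat.pos_of_ne_zero (by omega)
    obtain ⟨f, hrel, hf⟩ := hwf ⟨0, hm0⟩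
    obtain ⟨hre, him, -⟩ := energy d h 0 hh le_rfl Ulog (Wf 0) hUm hU0
        (Wf_meas _ hUm) (Wf_sq 0 le_rfl hU0) Vpot (fun x => rfl) (w ⟨0, hm0⟩) f E (hw.1 _) hrel hf
    apply hpos
    refine ⟨lt_of_le_of_ne him ?_, hre⟩
    intro h0
    exact hE ⟨hre, h0.symm⟩

end Pool.Agent.Helper31_CP
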